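import Pool.Agent.PFlow.StmtsK

/-!
# KTN: linear algebra of a positive definite matrix
-/

open Matrix

namespace Pool.Agent.PFlow

open Pool.Agent.PenroseSph

namespace KTN

/-- A positive definite real matrix has a symmetric square root. -/
lemma exists_sqrt {G : Bil} (hG : G.PosSemidef) : ∃ S : Bil, Sᵀ = S ∧ S * S = G := by
  open scoped MatrixOrder in
  have h0 : (0 : Bil) ≤ G := Matrix.nonneg_iff_posSemidef.2 hG
  refine ⟨CFC.sqrt G, ?_, CFC.sqrt_mul_sqrt_self G h0⟩
  have h1 : (0 : Bil) ≤ CFC.sqrt G := CFC.sqrt_nonneg G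
  have h2 := (Matrix.nonneg_iff_posSemidef.1 h1).isHermitian
  rwa [Matrix.IsHermitian, Matrix.conjTranspose_eq_transpose_of_trivial] at h2

/-- the bilinear form on matrices -/
def bin (G B C : Bil) : ℝ := (Bᵀ * (G * C * G)).trace

lemma bin_eq (G B C : Bil) (hG : Gᵀ = G) :
    bin G B C = ∑ i, ∑ j, ∑ k, ∑ l, G i k * G j l * B i j * C k l := by
  have hs : ∀ i j, G i j = G j i := fun i j => by
    conv_lhs => rw [← hG]
    rfl
  unfold bin
  simp only [Matrix.trace, Matrix.diag_apply, Matrix.mul_apply, Matrix.transpose_apply,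
    Finset.mul_sum, Finset.sum_mul]
  rw [Finset.sum_comm]
  refine Finset.sum_congr rfl fun i _ => Finset.sum_congr rfl fun j _ => ?_
  rw [Finset.sum_comm]
  refine Finset.sum_congr rfl fun k _ => Finset.sum_congr rfl fun l _ => ?_
  rw [hs j l]
  ring

lemma bin_self_nonneg {G : Bil} (hG : G.PosSemidef) (B : Bil) : 0 ≤ bin G B B := by
  obtain ⟨S, hS, hSS⟩ := exists_sqrt hG
  have h1 : bin G B B = ((S * B * S)ᵀ * (S * B * S)).trace := by
    unfold bin
    rw [← hSS]
    simp only [Matrix.transpose_mul, hS]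
    have : Bᵀ * (S * S * B * (S * S)) = (Bᵀ * S * (S * B * S)) * S := by
      simp only [Matrix.mul_assoc]
    rw [this, Matrix.trace_mul_comm]
    congr 1
    simp only [Matrix.mul_assoc]
  rw [h1]
  simp only [Matrix.trace, Matrix.diag_apply, Matrix.mul_apply, Matrix.transpose_apply]
  exact Finset.sum_nonneg fun i _ => Finset.sum_nonneg fun j _ => mul_self_nonneg _

lemma bin_symm (G B C : Bil) (hG : Gᵀ = G) : bin G B C = bin G C B := by
  unfold bin
  have h1 : (Bᵀ * (G * C * G))ᵀ = (G * Cᵀ * G) * B := by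
    simp only [Matrix.transpose_mul, Matrix.transpose_transpose, hG, Matrix.mul_assoc]
  have h2 : (G * Cᵀ * G) * B = G * (Cᵀ * (G * B)) := by
    simp only [Matrix.mul_assoc]
  rw [← Matrix.trace_transpose, h1, h2, Matrix.trace_mul_comm]
  simp only [Matrix.mul_assoc]

/-- Cauchy-Schwarz for a symmetric nonnegative form, abstract version -/
lemma cs (a b c : ℝ) (h : ∀ t : ℝ, 0 ≤ a - 2 * t * b + t ^ 2 * c) (hc : 0 ≤ c) :
    b ^ 2 ≤ a * c := by
  rcases hc.lt_or_eq with h1 | h1
  · have := h (b / c)
    have e : a - 2 * (b / c) * b + (b / c) ^ 2 * c = a - b ^ 2 / c := by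
      field_simp
      ring
    rw [e, sub_nonneg, div_le_iff₀ h1] at this
    exact this
  · subst h1
    have hb : b = 0 := by
      by_contra hb
      have := h ((a + 1) / (2 * b))
      have e : a - 2 * ((a + 1) / (2 * b)) * b + ((a + 1) / (2 * b)) ^ 2 * 0 = -1 := by
        field_simp
        ring
      rw [e] at this
      linarith
    rw [hb]
    simp

lemma bin_expand (G B C : Bil) (hG : Gᵀ = G) (t : ℝ) : bin G (B - t • C) (B - t • C) =
    bin G B B - 2 * t * bin G B C + t ^ 2 * bin G C C := by
  have h := bin_symm G C B hG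
  unfold bin at *
  simp only [Matrix.transpose_sub, Matrix.transpose_smul, Matrix.mul_sub, Matrix.sub_mul,
    Matrix.mul_smul, Matrix.smul_mul, Matrix.trace_sub, Matrix.trace_smul, smul_eq_mul]
  rw [h]
  ring

lemma bin_cs {G : Bil} (hG : G.PosSemidef) (B C : Bil) :
    bin G B C ^ 2 ≤ bin G B B * bin G C C := by
  have hs : Gᵀ = G := by
    have := hG.isHermitian
    rwa [Matrix.IsHermitian, Matrix.conjTranspose_eq_transpose_of_trivial] at this
  apply cs _ _ _ _ (bin_self_nonneg hG C)
  intro t
  rw [← bin_expand G B C hs t]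
  exact bin_self_nonneg hG _

lemma bin_outer (G B : Bil) (hG : Gᵀ = G) (p : Cov) :
    bin G B (Matrix.of fun i j => p i * p j) =
      ev B (fun i => ∑ j, G i j * p j) (fun i => ∑ j, G i j * p j) := by
  rw [bin_eq _ _ _ hG]
  simp only [ev, Matrix.of_apply, Finset.mul_sum, Finset.sum_mul]
  refine Finset.sum_congr rfl fun i _ => Finset.sum_congr rfl fun j _ => ?_
  rw [Finset.sum_comm]
  refine Finset.sum_congr rfl fun k _ => Finset.sum_congr rfl fun l _ => ?_
  ring

lemma ev_raise (G : Bil) (hG : Gᵀ = G) (p q : Cov) :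
    ∑ i, (∑ j, G i j * p j) * q i = ev G p q := by
  have hs : ∀ i j, G i j = G j i := fun i j => by
    conv_lhs => rw [← hG]
    rfl
  simp only [ev, Finset.sum_mul]
  rw [Finset.sum_comm]
  refine Finset.sum_congr rfl fun i _ => Finset.sum_congr rfl fun j _ => ?_
  rw [hs j i]

end KTN

open KTN in
theorem KTN_thm : KTN := by
  intro g x hg p
  have hG : (g x)⁻¹.PosDef := hg.inv
  set G : Bil := (g x)⁻¹ with hGdef
  have hs : Gᵀ = G := by
    have := hG.isHermitian
    rwa [Matrix.IsHermitian, Matrix.conjTranspose_eq_transpose_of_trivial] at this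
  have hpos : ∀ q : Cov, q ≠ 0 → 0 < ev G q q := by
    intro q hq
    have := hG.dotProduct_mulVec_pos hq
    have e : star q ⬝ᵥ (G *ᵥ q) = ev G q q := by
      simp only [dotProduct, Matrix.mulVec, ev, star_trivial, Finset.mul_sum]
      refine Finset.sum_congr rfl fun i _ => Finset.sum_congr rfl fun j _ => ?_
      ring
    rwa [e] at this
  have hev0 : ev G 0 0 = 0 := by simp [ev]
  have hnn : ∀ q : Cov, 0 ≤ ev G q q := by
    intro q
    by_cases hq : q = 0
    · rw [hq, hev0]
    · exact (hpos q hq).le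
  have hlen : len g x p ^ 2 = lsq g x p := Real.sq_sqrt (hnn p)
  have hnsq : ∀ B : Bil, nsq g x B = bin G B B := fun B => (bin_eq G B B hs).symm
  have hraise : raise g x p = fun i => ∑ j, G i j * p j := rfl
  have houter : bin G (Matrix.of fun i j => p i * p j) (Matrix.of fun i j => p i * p j) =
      lsq g x p ^ 2 := by
    rw [bin_outer G _ hs]
    have h1 : ev (Matrix.of fun i j => p i * p j : Bil) (fun i => ∑ j, G i j * p j)
        (fun i => ∑ j, G i j * p j) = (∑ i, (∑ j, G i j * p j) * p i) ^ 2 := by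
      simp only [ev, Matrix.of_apply]
      rw [pow_two, Finset.sum_mul_sum]
      refine Finset.sum_congr rfl fun i _ => Finset.sum_congr rfl fun j _ => ?_
      ring
    rw [h1, ev_raise G hs]
    rfl
  refine ⟨hnn p, hpos p, hlen, ?_, ?_, ?_, ?_, ?_⟩
  · intro q
    exact ev_raise G hs p q
  · intro q
    have h2 : ∀ t : ℝ, ev G (p - t • q) (p - t • q) =
        ev G p p - 2 * t * ev G p q + t ^ 2 * ev G q q := by
      intro t
      have h3 : ev G q p = ev G p q := by
        rw [← ev_raise G hs p q]
        simp only [ev, Finset.sum_mul]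
        refine Finset.sum_congr rfl fun i _ => Finset.sum_congr rfl fun j _ => ?_
        ring
      have h4 : ev G (p - t • q) (p - t • q) =
          ev G p p - t * ev G p q - t * ev G q p + t ^ 2 * ev G q q := by
        simp only [ev, Pi.sub_apply, Pi.smul_apply, smul_eq_mul, Finset.mul_sum,
          ← Finset.sum_sub_distrib, ← Finset.sum_add_distrib]
        refine Finset.sum_congr rfl fun i _ => Finset.sum_congr rfl fun j _ => ?_
        ring
      rw [h4, h3]
      ring
    exact cs (ev G p p) (ev G p q) (ev G q q) (fun t => by rw [← h2 t]; exact hnn _) (hnn q)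
  · intro B
    have h1 := bin_cs hG.posSemidef B (Matrix.of fun i j => p i * p j)
    rw [houter, bin_outer G B hs, ← hnsq] at h1
    rw [mul_comm]
    exact h1
  · intro B
    rw [hnsq]
    exact bin_self_nonneg hG.posSemidef B
  · intro hp B
    have h0 : 0 < len g x p := Real.sqrt_pos.2 (hpos p hp)
    rw [← hlen]
    simp only [bnn, ev, nrm]
    rw [Finset.sum_div]
    refine Finset.sum_congr rfl fun i _ => ?_
    rw [Finset.sum_div]
    refine Finset.sum_congr rfl fun j _ => ?_
    field_simp

end Pool.Agent.PFlow
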