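import Pool.Agent.PFlow.StmtsK

/-!
# Module KBAR: uniform bound of the operators
-/

open MeasureTheory Filter Topology
open scoped ContDiff

namespace Pool.Agent.PFlow

open Pool.Agent.PenroseSph

namespace KBAR

theorem abs_le_vec (p : Cov) (i : Fin 3) : |p i| ≤ ‖vec p‖ := by
  have h := PiLp.norm_apply_le (vec p) i
  rw [Real.norm_eq_abs] at h
  exact h

theorem ev_le (B : Bil) (v w : Cov) :
    |ev B v w| ≤ (∑ i, ∑ j, |B i j|) * (‖vec v‖ * ‖vec w‖) := by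
  unfold ev
  rw [Finset.sum_mul]
  refine (Finset.abs_sum_le_sum_abs _ _).trans (Finset.sum_le_sum fun i _ => ?_)
  rw [Finset.sum_mul]
  refine (Finset.abs_sum_le_sum_abs _ _).trans (Finset.sum_le_sum fun j _ => ?_)
  rw [abs_mul, abs_mul, mul_assoc]
  exact mul_le_mul_of_nonneg_left (mul_le_mul (abs_le_vec v i) (abs_le_vec w j) (abs_nonneg _)
    (norm_nonneg _)) (abs_nonneg _)

theorem sum_le_nine {F : Fin 3 → Fin 3 → ℝ} {Q : ℝ} (h : ∀ i j, F i j ≤ Q) :
    ∑ i, ∑ j, F i j ≤ 9 * Q := by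
  calc ∑ i, ∑ j, F i j ≤ ∑ _i : Fin 3, ∑ _j : Fin 3, Q :=
        Finset.sum_le_sum fun i _ => Finset.sum_le_sum fun j _ => h i j
    _ = 9 * Q := by
        simp only [Finset.sum_const, Finset.card_univ, Fintype.card_fin, nsmul_eq_mul]
        push_cast
        ring

theorem r1 {ε C s t v : ℝ} (hε1 : ε < 1) (hε : 0 < ε) (hC : 1 ≤ C) (hv : 0 ≤ v)
    (hvs : v ^ 2 ≤ C * s) (hst : s ≤ t) (ht : 0 < t) :
    t ^ ((ε - 1) / 2) * v ^ (1 - ε) ≤ C := by
  have h1 : v ^ (1 - ε) = (v ^ 2) ^ ((1 - ε) / 2) := by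
    rw [← Real.rpow_natCast v 2, ← Real.rpow_mul hv]
    congr 1
    push_cast
    ring
  have h2 : (v ^ 2) ^ ((1 - ε) / 2) ≤ (C * t) ^ ((1 - ε) / 2) :=
    Real.rpow_le_rpow (by positivity)
      (hvs.trans (mul_le_mul_of_nonneg_left hst (by linarith))) (by linarith)
  have h3 : (C * t) ^ ((1 - ε) / 2) = C ^ ((1 - ε) / 2) * t ^ ((1 - ε) / 2) :=
    Real.mul_rpow (by linarith) ht.le
  have h4 : t ^ ((ε - 1) / 2) * t ^ ((1 - ε) / 2) = 1 := by
    rw [← Real.rpow_add ht, show (ε - 1) / 2 + (1 - ε) / 2 = 0 by ring, Real.rpow_zero]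
  have h5 : C ^ ((1 - ε) / 2) ≤ C := by
    calc C ^ ((1 - ε) / 2) ≤ C ^ (1 : ℝ) := Real.rpow_le_rpow_of_exponent_le hC (by linarith)
      _ = C := Real.rpow_one C
  have h6 : 0 < t ^ ((ε - 1) / 2) := Real.rpow_pos_of_pos ht _
  calc t ^ ((ε - 1) / 2) * v ^ (1 - ε)
      ≤ t ^ ((ε - 1) / 2) * (C ^ ((1 - ε) / 2) * t ^ ((1 - ε) / 2)) := by
        rw [h1, ← h3]
        exact mul_le_mul_of_nonneg_left h2 h6.le
    _ = C ^ ((1 - ε) / 2) * (t ^ ((ε - 1) / 2) * t ^ ((1 - ε) / 2)) := by ring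
    _ = C ^ ((1 - ε) / 2) := by rw [h4, mul_one]
    _ ≤ C := h5

theorem r2 {ε s t : ℝ} (hst : s ≤ t) (ht : 0 < t) :
    t ^ ((ε - 3) / 2) * s ≤ t ^ ((ε - 1) / 2) := by
  have h6 : 0 < t ^ ((ε - 3) / 2) := Real.rpow_pos_of_pos ht _
  calc t ^ ((ε - 3) / 2) * s ≤ t ^ ((ε - 3) / 2) * t := mul_le_mul_of_nonneg_left hst h6.le
    _ = t ^ ((ε - 3) / 2) * t ^ (1 : ℝ) := by rw [Real.rpow_one]
    _ = t ^ ((ε - 1) / 2) := by
        rw [← Real.rpow_add ht]
        congr 1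
        ring

theorem r3 {ε s t T : ℝ} (hε : 0 < ε) (hε1 : ε < 1) (hst : s ≤ t) (ht : 0 < t) (hT : 1 ≤ T)
    (htT : t ≤ T) : t ^ ((ε - 2) / 2) * s ≤ T := by
  have h6 : 0 < t ^ ((ε - 2) / 2) := Real.rpow_pos_of_pos ht _
  calc t ^ ((ε - 2) / 2) * s ≤ t ^ ((ε - 2) / 2) * t := mul_le_mul_of_nonneg_left hst h6.le
    _ = t ^ ((ε - 2) / 2) * t ^ (1 : ℝ) := by rw [Real.rpow_one]
    _ = t ^ (ε / 2) := by
        rw [← Real.rpow_add ht]
        congr 1
        ring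
    _ ≤ T ^ (ε / 2) := Real.rpow_le_rpow ht.le htT (by linarith)
    _ ≤ T ^ (1 : ℝ) := Real.rpow_le_rpow_of_exponent_le hT (by linarith)
    _ = T := Real.rpow_one T

theorem rpow_le_self {E a : ℝ} (hE : 1 ≤ E) (ha : a ≤ 1) : E ^ a ≤ E := by
  calc E ^ a ≤ E ^ (1 : ℝ) := Real.rpow_le_rpow_of_exponent_le hE ha
    _ = E := Real.rpow_one E

theorem chess_le {g h : TensorField} {C : ℝ} (hC : GBound g h C) (x : E3) (p : Cov) (M : Bil)
    (i j : Fin 3) : |cHess g x p M i j| ≤ |M i j| + 3 * C * ‖vec p‖ := by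
  change |M i j - ∑ k, christoffel g k i j x * p k| ≤ _
  refine (abs_sub _ _).trans (add_le_add le_rfl ?_)
  refine (Finset.abs_sum_le_sum_abs _ _).trans ?_
  calc ∑ k, |christoffel g k i j x * p k| ≤ ∑ _k : Fin 3, C * ‖vec p‖ := by
        refine Finset.sum_le_sum fun k _ => ?_
        rw [abs_mul]
        exact mul_le_mul (hC.chr x k i j) (abs_le_vec p k) (abs_nonneg _)
          (by linarith [hC.one])
    _ = 3 * C * ‖vec p‖ := by
        simp only [Finset.sum_const, Finset.card_univ, Fintype.card_fin, nsmul_eq_mul]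
        push_cast
        ring

end KBAR

open KBAR in
theorem KBAR_thm (h1 : KBND) (h2 : KTN) : KBAR := by
  have _ := h2
  intro ε g h r C₁ hε hε1 hG
  obtain ⟨C, hC⟩ := h1 g h r hG
  have hC1 := hC.one
  obtain ⟨E, hE⟩ : ∃ E, E = 1 + |C₁| := ⟨_, rfl⟩
  have hE1 : 1 ≤ E := by
    rw [hE]
    linarith [abs_nonneg C₁]
  have hE2 : C₁ ≤ E := by
    rw [hE]
    linarith [le_abs_self C₁]
  obtain ⟨Q, hQ⟩ : ∃ Q, Q = E * (C + E) + 3 * C * ((C + E) * E) := ⟨_, rfl⟩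
  have hQ0 : 0 ≤ Q := by
    rw [hQ]
    positivity
  refine ⟨C * (9 * C * Q + 9 * C ^ 3 * Q) + C * ((C * E ^ 2 + 1) * (9 * C ^ 2 + 9 * C ^ 4)), ?_⟩
  intro δ κ hδ hδ1 hκ hκ1 x p M hp hM
  set v := ‖vec p‖ with hv
  have hv0 : 0 ≤ v := norm_nonneg _
  have hvE : v ≤ E := hp.trans hE2
  set s := lsq g x p with hs
  have hlow : v ^ 2 ≤ C * s := hC.low x p
  have hup : s ≤ C * v ^ 2 := hC.up x p
  have hs0 : 0 ≤ s := by
    by_contra hcon
    push Not at hcon
    have : C * s < 0 := mul_neg_of_pos_of_neg (by linarith) hcon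
    nlinarith [sq_nonneg v]
  set t := s + δ ^ 2 with ht
  have ht0 : 0 < t := by positivity
  have hst : s ≤ t := by
    rw [ht]
    nlinarith [sq_nonneg δ]
  have hvol0 : 0 ≤ volDen g x := Real.sqrt_nonneg _
  have hvol := hC.volUp x
  -- the weight
  set α := regA ε δ κ s with hα
  have hα0 : 0 ≤ α := by
    rw [hα]
    unfold regA
    have := Real.rpow_pos_of_pos ht0 ((ε - 1) / 2)
    linarith
  have hve : v ^ (1 - ε) ≤ E := (Real.rpow_le_rpow hv0 hvE (by linarith)).trans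
    (rpow_le_self hE1 (by linarith))
  have hve' : v ^ ε ≤ E := (Real.rpow_le_rpow hv0 hvE hε.le).trans
    (rpow_le_self hE1 (by linarith))
  have hve0 : 0 ≤ v ^ (1 - ε) := Real.rpow_nonneg hv0 _
  have hve0' : 0 ≤ v ^ ε := Real.rpow_nonneg hv0 _
  have ha1 : α * v ^ (1 - ε) ≤ C + E := by
    have h3 := r1 hε1 hε hC1 hv0 hlow hst ht0
    have h4 : κ * v ^ (1 - ε) ≤ 1 * E := mul_le_mul hκ1 hve hve0 zero_le_one
    have h5 : α * v ^ (1 - ε) = t ^ ((ε - 1) / 2) * v ^ (1 - ε) + κ * v ^ (1 - ε) := by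
      rw [hα]
      unfold regA
      ring
    rw [h5]
    linarith
  have ha2 : α * v ≤ (C + E) * E := by
    have h3 : v = v ^ (1 - ε) * v ^ ε := by
      rw [← Real.rpow_add_of_nonneg hv0 (by linarith) hε.le, show 1 - ε + ε = 1 by ring,
        Real.rpow_one]
    calc α * v = α * v ^ (1 - ε) * v ^ ε := by
          rw [mul_assoc, ← h3]
      _ ≤ (C + E) * E := mul_le_mul ha1 hve' hve0' (by linarith)
  -- the Hessian
  have hH : ∀ i j, α * |cHess g x p M i j| ≤ Q := by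
    intro i j
    have h3 := chess_le hC x p M i j
    have h4 : |M i j| ≤ E * v ^ (1 - ε) :=
      (hM i j).trans (mul_le_mul_of_nonneg_right hE2 hve0)
    calc α * |cHess g x p M i j| ≤ α * (E * v ^ (1 - ε) + 3 * C * v) :=
          mul_le_mul_of_nonneg_left (by linarith) hα0
      _ = E * (α * v ^ (1 - ε)) + 3 * C * (α * v) := by ring
      _ ≤ E * (C + E) + 3 * C * ((C + E) * E) := by gcongr
      _ = Q := hQ.symm
  have hHs : α * ∑ i, ∑ j, |cHess g x p M i j| ≤ 9 * Q := by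
    rw [Finset.mul_sum]
    simp only [Finset.mul_sum]
    exact sum_le_nine hH
  have hHs0 : 0 ≤ ∑ i, ∑ j, |cHess g x p M i j| :=
    Finset.sum_nonneg fun i _ => Finset.sum_nonneg fun j _ => abs_nonneg _
  have hraise : ‖vec (raise g x p)‖ * ‖vec (raise g x p)‖ ≤ C ^ 3 * s := by
    have h3 := hC.raise x p
    calc ‖vec (raise g x p)‖ * ‖vec (raise g x p)‖ ≤ (C * v) * (C * v) :=
          mul_le_mul h3 h3 (norm_nonneg _) (by positivity)
      _ = C ^ 2 * v ^ 2 := by ring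
      _ ≤ C ^ 2 * (C * s) := mul_le_mul_of_nonneg_left hlow (by positivity)
      _ = C ^ 3 * s := by ring
  -- first operator
  have hT : |α * trg g x (cHess g x p M)| ≤ 9 * C * Q := by
    rw [abs_mul, abs_of_nonneg hα0]
    calc α * |trg g x (cHess g x p M)| ≤ α * (C * ∑ i, ∑ j, |cHess g x p M i j|) :=
          mul_le_mul_of_nonneg_left (hC.tr x _) hα0
      _ = C * (α * ∑ i, ∑ j, |cHess g x p M i j|) := by ring
      _ ≤ C * (9 * Q) := mul_le_mul_of_nonneg_left hHs (by linarith)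
      _ = 9 * C * Q := by ring
  have hD : |regD ε δ s| * s ≤ α := by
    have h3 : |regD ε δ s| = (1 - ε) * t ^ ((ε - 3) / 2) := by
      unfold regD
      rw [abs_mul, abs_of_neg (by linarith : ε - 1 < 0),
        abs_of_pos (Real.rpow_pos_of_pos ht0 _)]
      ring
    have h4 := r2 (ε := ε) hst ht0
    have h5 : 0 < t ^ ((ε - 1) / 2) := Real.rpow_pos_of_pos ht0 _
    have h6 : 0 ≤ t ^ ((ε - 3) / 2) * s := by positivity
    rw [h3, hα]
    unfold regA
    rw [← ht]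
    nlinarith
  have hR : |regD ε δ s * ev (cHess g x p M) (raise g x p) (raise g x p)| ≤ 9 * C ^ 3 * Q := by
    rw [abs_mul]
    calc |regD ε δ s| * |ev (cHess g x p M) (raise g x p) (raise g x p)|
        ≤ |regD ε δ s| * ((∑ i, ∑ j, |cHess g x p M i j|) * (C ^ 3 * s)) :=
          mul_le_mul_of_nonneg_left ((ev_le _ _ _).trans
            (mul_le_mul_of_nonneg_left hraise hHs0)) (abs_nonneg _)
      _ = C ^ 3 * ((|regD ε δ s| * s) * ∑ i, ∑ j, |cHess g x p M i j|) := by ring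
      _ ≤ C ^ 3 * (α * ∑ i, ∑ j, |cHess g x p M i j|) :=
          mul_le_mul_of_nonneg_left (mul_le_mul_of_nonneg_right hD hHs0) (by positivity)
      _ ≤ C ^ 3 * (9 * Q) := mul_le_mul_of_nonneg_left hHs (by positivity)
      _ = 9 * C ^ 3 * Q := by ring
  have hop : |opL ε δ κ g x p M| ≤ C * (9 * C * Q + 9 * C ^ 3 * Q) := by
    unfold opL
    rw [abs_mul, abs_of_nonneg hvol0]
    exact mul_le_mul hvol ((abs_add_le _ _).trans (add_le_add hT hR)) (abs_nonneg _)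
      (by linarith)
  -- second operator
  have hhs : ∑ i, ∑ j, |h x i j| ≤ 9 * C := sum_le_nine fun i j => hC.hh x i j
  have hhs0 : 0 ≤ ∑ i, ∑ j, |h x i j| :=
    Finset.sum_nonneg fun i _ => Finset.sum_nonneg fun j _ => abs_nonneg _
  have htT : t ≤ C * E ^ 2 + 1 := by
    have h3 : v ^ 2 ≤ E ^ 2 := by gcongr
    have h4 : δ ^ 2 ≤ 1 := by nlinarith
    have h5 : C * v ^ 2 ≤ C * E ^ 2 := mul_le_mul_of_nonneg_left h3 (by linarith)
    rw [ht]
    linarith
  have hT1 : 1 ≤ C * E ^ 2 + 1 := by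
    have : 0 ≤ C * E ^ 2 := by positivity
    linarith
  have hr3 := r3 hε hε1 hst ht0 hT1 htT
  have htp : 0 < t ^ ((ε - 2) / 2) := Real.rpow_pos_of_pos ht0 _
  have hin : |s * trg g x (h x) - (1 - ε) * ev (h x) (raise g x p) (raise g x p)| ≤
      s * (9 * C ^ 2 + 9 * C ^ 4) := by
    refine (abs_sub _ _).trans ?_
    have h3 : |s * trg g x (h x)| ≤ s * (9 * C ^ 2) := by
      rw [abs_mul, abs_of_nonneg hs0]
      refine mul_le_mul_of_nonneg_left ?_ hs0
      calc |trg g x (h x)| ≤ C * ∑ i, ∑ j, |h x i j| := hC.tr x _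
        _ ≤ C * (9 * C) := mul_le_mul_of_nonneg_left hhs (by linarith)
        _ = 9 * C ^ 2 := by ring
    have h4 : |(1 - ε) * ev (h x) (raise g x p) (raise g x p)| ≤ s * (9 * C ^ 4) := by
      rw [abs_mul, abs_of_nonneg (by linarith : 0 ≤ 1 - ε)]
      calc (1 - ε) * |ev (h x) (raise g x p) (raise g x p)|
          ≤ 1 * ((9 * C) * (C ^ 3 * s)) := by
            refine mul_le_mul (by linarith) ((ev_le _ _ _).trans
              (mul_le_mul hhs hraise (by positivity) (by linarith))) (abs_nonneg _) zero_le_one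
        _ = s * (9 * C ^ 4) := by ring
    linarith
  have hcB : |cB ε δ g h x (vec p)| ≤ C * ((C * E ^ 2 + 1) * (9 * C ^ 2 + 9 * C ^ 4)) := by
    change |volDen g x * t ^ ((ε - 2) / 2) *
      (s * trg g x (h x) - (1 - ε) * ev (h x) (raise g x p) (raise g x p))| ≤ _
    rw [abs_mul, abs_mul, abs_of_nonneg hvol0, abs_of_pos htp, mul_assoc]
    refine mul_le_mul hvol ?_ (by positivity) (by linarith)
    calc t ^ ((ε - 2) / 2) *
        |s * trg g x (h x) - (1 - ε) * ev (h x) (raise g x p) (raise g x p)|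
        ≤ t ^ ((ε - 2) / 2) * (s * (9 * C ^ 2 + 9 * C ^ 4)) :=
          mul_le_mul_of_nonneg_left hin htp.le
      _ = (t ^ ((ε - 2) / 2) * s) * (9 * C ^ 2 + 9 * C ^ 4) := by ring
      _ ≤ (C * E ^ 2 + 1) * (9 * C ^ 2 + 9 * C ^ 4) :=
          mul_le_mul_of_nonneg_right hr3 (by positivity)
  exact add_le_add hop hcB

end Pool.Agent.PFlow
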