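import Pool.Agent.PFlow.StmtsK

/-!
# KBND: the bounds of the metric
-/

open MeasureTheory Filter Topology
open scoped ContDiff

namespace Pool.Agent.PFlow

open Pool.Agent.PenroseSph

namespace KBND

/-! ### Boundedness -/

lemma bdd {f : E3 → ℝ} (hf : Continuous f) (r c : ℝ) (h : ∀ x, r ≤ ‖x‖ → f x = c) :
    ∃ C, 0 ≤ C ∧ ∀ x, |f x| ≤ C := by
  have hK : IsCompact (Metric.closedBall (0 : E3) r) := isCompact_closedBall _ _
  obtain ⟨C, hC⟩ := hK.exists_bound_of_continuousOn hf.continuousOn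
  refine ⟨max C |c|, le_max_of_le_right (abs_nonneg c), fun x => ?_⟩
  by_cases hx : ‖x‖ ≤ r
  · have h1 := hC x (by simpa using hx)
    rw [Real.norm_eq_abs] at h1
    exact le_max_of_le_left h1
  · rw [h x (le_of_lt (not_le.mp hx))]
    exact le_max_right _ _

lemma bddFin {ι : Type} [Fintype ι] {f : ι → E3 → ℝ}
    (h : ∀ i, ∃ C, 0 ≤ C ∧ ∀ x, |f i x| ≤ C) : ∃ C, 0 ≤ C ∧ ∀ i x, |f i x| ≤ C := by
  choose C hC0 hC using h
  refine ⟨∑ i, C i, Finset.sum_nonneg fun i _ => hC0 i, fun i x => (hC i x).trans ?_⟩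
  exact Finset.single_le_sum (f := C) (fun j _ => hC0 j) (Finset.mem_univ i)

lemma pd_cont {f : E3 → ℝ} (hf : ContDiff ℝ ∞ f) (k : Fin 3) : Continuous (pd k f) := by
  have h1 : Continuous (fderiv ℝ f) := hf.continuous_fderiv (by simp)
  exact h1.clm_apply continuous_const

lemma pd_far {f : E3 → ℝ} {r c : ℝ} (h : ∀ x, r ≤ ‖x‖ → f x = c) (k : Fin 3) (x : E3)
    (hx : r < ‖x‖) : pd k f x = 0 := by
  have h1 : f =ᶠ[𝓝 x] fun _ => c := by
    filter_upwards [(isOpen_lt continuous_const continuous_norm).mem_nhds hx] with y hy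
    exact h y (le_of_lt hy)
  unfold pd
  rw [h1.fderiv_eq]
  simp

lemma bddPd {f : E3 → ℝ} (hf : ContDiff ℝ ∞ f) (r c : ℝ) (h : ∀ x, r ≤ ‖x‖ → f x = c)
    (k : Fin 3) : ∃ C, 0 ≤ C ∧ ∀ x, |pd k f x| ≤ C := by
  refine bdd (pd_cont hf k) (r + 1) 0 fun x hx => pd_far h k x (by linarith)

/-! ### Algebra -/

lemma norm_vec_sq (p : Cov) : ‖vec p‖ ^ 2 = ∑ i, p i ^ 2 := by
  rw [EuclideanSpace.norm_eq, Real.sq_sqrt (Finset.sum_nonneg fun i _ => sq_nonneg _)]
  refine Finset.sum_congr rfl fun i _ => ?_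
  rw [Real.norm_eq_abs, sq_abs]

lemma abs_le_norm_vec (p : Cov) (i : Fin 3) : |p i| ≤ ‖vec p‖ := by
  have h := PiLp.norm_apply_le (vec p) i
  rwa [Real.norm_eq_abs] at h

lemma bilin_le {G : Bil} {C : ℝ} (hG : ∀ i j, |G i j| ≤ C) (p : Cov) :
    ev G p p ≤ 9 * C * ‖vec p‖ ^ 2 := by
  have h1 : ∀ i j : Fin 3, G i j * p i * p j ≤ C * ‖vec p‖ ^ 2 := by
    intro i j
    have a1 : G i j * p i * p j ≤ |G i j| * |p i| * |p j| := by
      rw [← abs_mul, ← abs_mul]; exact le_abs_self _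
    have hC : 0 ≤ C := (abs_nonneg _).trans (hG i j)
    calc G i j * p i * p j ≤ |G i j| * |p i| * |p j| := a1
      _ ≤ C * ‖vec p‖ * ‖vec p‖ := by
          have b1 := hG i j
          have b2 := abs_le_norm_vec p i
          have b3 := abs_le_norm_vec p j
          gcongr
      _ = C * ‖vec p‖ ^ 2 := by ring
  have h2 : ev G p p ≤ ∑ i : Fin 3, ∑ j : Fin 3, C * ‖vec p‖ ^ 2 :=
    Finset.sum_le_sum fun i _ => Finset.sum_le_sum fun j _ => h1 i j
  refine h2.trans (le_of_eq ?_)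
  simp only [Fin.sum_univ_three]
  ring

/-- The quadratic form of `nsq` for a general matrix. -/
noncomputable def quad (G M : Bil) : ℝ :=
  ∑ i, ∑ j, ∑ k, ∑ l, G i k * G j l * M i j * M k l

lemma quad_le {G : Bil} {C : ℝ} (hG : ∀ i j, |G i j| ≤ C) (M : Bil) :
    quad G M ≤ 9 * C ^ 2 * ∑ i, ∑ j, M i j ^ 2 := by
  have h1 : ∀ i j k l : Fin 3, G i k * G j l * M i j * M k l ≤
      C ^ 2 * ((M i j ^ 2 + M k l ^ 2) / 2) := by
    intro i j k l
    have hC : 0 ≤ C := (abs_nonneg _).trans (hG i k)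
    have a1 : G i k * G j l * M i j * M k l ≤ |G i k| * |G j l| * (|M i j| * |M k l|) := by
      rw [← abs_mul, ← abs_mul, ← abs_mul]
      refine le_trans (le_of_eq ?_) (le_abs_self _)
      ring
    have a2 : |G i k| * |G j l| ≤ C ^ 2 := by
      have b1 := hG i k
      have b2 := hG j l
      calc |G i k| * |G j l| ≤ C * C := by gcongr
        _ = C ^ 2 := by ring
    have a3 : |M i j| * |M k l| ≤ (M i j ^ 2 + M k l ^ 2) / 2 := by
      have := sq_nonneg (|M i j| - |M k l|)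
      have e1 := sq_abs (M i j)
      have e2 := sq_abs (M k l)
      nlinarith
    refine a1.trans (mul_le_mul a2 a3 (by positivity) (by positivity))
  have h2 : quad G M ≤ ∑ i : Fin 3, ∑ j : Fin 3, ∑ k : Fin 3, ∑ l : Fin 3,
      C ^ 2 * ((M i j ^ 2 + M k l ^ 2) / 2) :=
    Finset.sum_le_sum fun i _ => Finset.sum_le_sum fun j _ => Finset.sum_le_sum fun k _ =>
      Finset.sum_le_sum fun l _ => h1 i j k l
  refine h2.trans (le_of_eq ?_)
  simp only [Fin.sum_univ_three]
  ring

lemma quad_trace (G M : Bil) : quad G M = (M.transpose * G * M * G.transpose).trace := by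
  unfold quad
  simp only [Matrix.trace, Matrix.diag_apply, Matrix.mul_apply, Matrix.transpose_apply,
    Fin.sum_univ_three]
  ring

lemma sumsq_trace (M : Bil) : ∑ i, ∑ j, M i j ^ 2 = (M.transpose * M).trace := by
  simp only [Matrix.trace, Matrix.diag_apply, Matrix.mul_apply, Matrix.transpose_apply,
    Fin.sum_univ_three]
  ring

/-- The lower bound of the form `quad G`, `G = g⁻¹`, by a bound of `g`. -/
lemma quad_low {g G : Bil} {C : ℝ} (hC : 0 ≤ C) (hg : ∀ i j, |g i j| ≤ C)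
    (h1 : G * g = 1) (h2 : g * G = 1) (s1 : g.transpose = g) (s2 : G.transpose = G)
    (hpos : ∀ B : Bil, 0 ≤ quad G B) (B : Bil) :
    ∑ i, ∑ j, B i j ^ 2 ≤ (9 * C ^ 2 + 1) * quad G B := by
  set D : ℝ := 9 * C ^ 2 + 1 with hD
  have hDpos : 0 < D := by positivity
  set S : ℝ := ∑ i, ∑ j, B i j ^ 2 with hS
  have hS0 : 0 ≤ S := Finset.sum_nonneg fun i _ => Finset.sum_nonneg fun j _ => sq_nonneg _
  have hQ : quad g B ≤ D * S := by
    have := quad_le hg B
    rw [hD]
    nlinarith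
  have key : quad G (B - D⁻¹ • (g * B * g)) = quad G B - 2 * D⁻¹ * S + D⁻¹ ^ 2 * quad g B := by
    have e1 : G * (g * B * g) * G = B := by
      calc G * (g * B * g) * G = (G * g) * B * (g * G) := by noncomm_ring
        _ = B := by rw [h1, h2, one_mul, mul_one]
    have e2 : (g * B * g).transpose = g * B.transpose * g := by
      rw [Matrix.transpose_mul, Matrix.transpose_mul, s1, Matrix.mul_assoc]
    have t1 : (B.transpose * G * (g * B * g) * G).trace = S := by
      rw [hS, sumsq_trace]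
      congr 1
      calc B.transpose * G * (g * B * g) * G = B.transpose * (G * (g * B * g) * G) := by
            noncomm_ring
        _ = B.transpose * B := by rw [e1]
    have t2 : ((g * B * g).transpose * G * B * G).trace = S := by
      rw [hS, sumsq_trace, e2]
      have : g * B.transpose * g * G * B * G = g * (B.transpose * B * G) := by
        calc g * B.transpose * g * G * B * G = g * B.transpose * (g * G) * B * G := by
              noncomm_ring
          _ = g * (B.transpose * B * G) := by rw [h2]; noncomm_ring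
      rw [this, Matrix.trace_mul_comm]
      congr 1
      rw [Matrix.mul_assoc, h1, mul_one]
    have t3 : ((g * B * g).transpose * G * (g * B * g) * G).trace = quad g B := by
      rw [quad_trace, s1]
      have : (g * B * g).transpose * G * (g * B * g) * G = g * (B.transpose * g * B) := by
        calc (g * B * g).transpose * G * (g * B * g) * G
            = (g * B * g).transpose * (G * (g * B * g) * G) := by noncomm_ring
          _ = g * (B.transpose * g * B) := by rw [e1, e2]; noncomm_ring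
      rw [this, Matrix.trace_mul_comm]
    have t0 : quad G B = (B.transpose * G * B * G).trace := by rw [quad_trace, s2]
    rw [t0, quad_trace, s2]
    have e3 : (B - D⁻¹ • (g * B * g)).transpose * G * (B - D⁻¹ • (g * B * g)) * G =
        B.transpose * G * B * G - D⁻¹ • (B.transpose * G * (g * B * g) * G) -
          D⁻¹ • ((g * B * g).transpose * G * B * G) +
          (D⁻¹ ^ 2) • ((g * B * g).transpose * G * (g * B * g) * G) := by
      rw [Matrix.transpose_sub, Matrix.transpose_smul]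
      simp only [Matrix.sub_mul, Matrix.mul_sub, Matrix.smul_mul, Matrix.mul_smul, smul_smul,
        smul_sub]
      rw [pow_two]
      abel
    rw [e3, Matrix.trace_add, Matrix.trace_sub, Matrix.trace_sub, Matrix.trace_smul,
      Matrix.trace_smul, Matrix.trace_smul, t1, t2, t3]
    simp only [smul_eq_mul]
    ring
  have h3 := hpos (B - D⁻¹ • (g * B * g))
  rw [key] at h3
  have h4 : D⁻¹ ^ 2 * quad g B ≤ D⁻¹ * S := by
    calc D⁻¹ ^ 2 * quad g B ≤ D⁻¹ ^ 2 * (D * S) := by gcongr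
      _ = D⁻¹ * S := by field_simp
  have h5 : D⁻¹ * S ≤ quad G B := by linarith
  calc S = D * (D⁻¹ * S) := by field_simp
    _ ≤ D * quad G B := by gcongr

end KBND

open KBND

theorem KBND_thm (h1 : KSM) (h2 : KTN) : KBND := by
  intro g h r hd
  obtain ⟨sG, sV, sC⟩ := h1 g h r hd
  have gSm : ∀ i j, ContDiff ℝ ∞ (fun x => g x i j) := fun i j =>
    contDiffOn_univ.mp (hd.met.smooth i j)
  have hSm : ∀ i j, ContDiff ℝ ∞ (fun x => h x i j) := fun i j =>
    contDiffOn_univ.mp (hd.ten.smooth i j)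
  have gFar : ∀ i j (x : E3), r ≤ ‖x‖ → g x i j = (1 : Bil) i j := fun i j x hx => by
    rw [(hd.flat x hx).1]
  have GFar : ∀ i j (x : E3), r ≤ ‖x‖ → (g x)⁻¹ i j = (1 : Bil) i j := fun i j x hx => by
    rw [(hd.flat x hx).1, inv_one]
  have vFar : ∀ x : E3, r ≤ ‖x‖ → volDen g x = 1 := fun x hx => by
    unfold volDen
    rw [(hd.flat x hx).1, Matrix.det_one, Real.sqrt_one]
  have hFar : ∀ i j (x : E3), r ≤ ‖x‖ → h x i j = 0 := fun i j x hx => by
    rw [(hd.flat x hx).2]; rfl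
  have pD : ∀ x, (g x).PosDef := fun x => hd.met.posDef x (Set.mem_univ x)
  have vPos : ∀ x, 0 < volDen g x := fun x => Real.sqrt_pos.mpr (pD x).det_pos
  have cFar : ∀ k i j (x : E3), r + 1 ≤ ‖x‖ → christoffel g k i j x = 0 := by
    intro k i j x hx
    unfold christoffel
    have a : ∀ m a b, pd m (fun y => g y a b) x = 0 := fun m a b =>
      pd_far (fun y hy => gFar a b y hy) m x (by linarith)
    simp [a]
  -- constants
  obtain ⟨Cg, Cg0, hCg⟩ := bddFin (ι := Fin 3 × Fin 3) (f := fun q x => g x q.1 q.2)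
    (fun q => bdd (gSm q.1 q.2).continuous r _ (gFar q.1 q.2))
  obtain ⟨CG, CG0, hCG⟩ := bddFin (ι := Fin 3 × Fin 3) (f := fun q x => (g x)⁻¹ q.1 q.2)
    (fun q => bdd (sG q.1 q.2).continuous r _ (GFar q.1 q.2))
  obtain ⟨Ch, Ch0, hCh⟩ := bddFin (ι := Fin 3 × Fin 3) (f := fun q x => h x q.1 q.2)
    (fun q => bdd (hSm q.1 q.2).continuous r _ (hFar q.1 q.2))
  obtain ⟨Cc, Cc0, hCc⟩ := bddFin (ι := Fin 3 × Fin 3 × Fin 3)
    (f := fun q x => christoffel g q.1 q.2.1 q.2.2 x)
    (fun q => bdd (sC q.1 q.2.1 q.2.2).continuous (r + 1) 0 (cFar q.1 q.2.1 q.2.2))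
  obtain ⟨Ci, Ci0, hCi⟩ := bddFin (ι := Fin 3 × Fin 3 × Fin 3)
    (f := fun q x => pd q.2.2 (fun y => (g y)⁻¹ q.1 q.2.1) x)
    (fun q => bddPd (sG q.1 q.2.1) r _ (GFar q.1 q.2.1) q.2.2)
  obtain ⟨Cd, Cd0, hCd⟩ := bddFin (ι := Fin 3) (f := fun q x => pd q (volDen g) x)
    (fun q => bddPd sV r _ vFar q)
  obtain ⟨Cv, Cv0, hCv⟩ := bdd sV.continuous r 1 vFar
  obtain ⟨Cw, Cw0, hCw⟩ := bdd (f := fun x => (volDen g x)⁻¹)
    (sV.continuous.inv₀ fun x => (vPos x).ne') r 1 (fun x hx => by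
      change (volDen g x)⁻¹ = 1
      rw [vFar x hx, inv_one])
  have hCg' : ∀ x i j, |g x i j| ≤ Cg := fun x i j => hCg (i, j) x
  have hCG' : ∀ x i j, |(g x)⁻¹ i j| ≤ CG := fun x i j => hCG (i, j) x
  -- symmetric and inverse matrices
  have sym1 : ∀ x, (g x).transpose = g x := fun x => by
    have := (pD x).isHermitian
    rw [Matrix.IsHermitian, Matrix.conjTranspose_eq_transpose_of_trivial] at this
    exact this
  have sym2 : ∀ x, ((g x)⁻¹).transpose = (g x)⁻¹ := fun x => by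
    rw [Matrix.transpose_nonsing_inv, sym1 x]
  have u1 : ∀ x, IsUnit (g x).det := fun x => isUnit_iff_ne_zero.mpr (pD x).det_pos.ne'
  have i1 : ∀ x, (g x)⁻¹ * g x = 1 := fun x => Matrix.nonsing_inv_mul _ (u1 x)
  have i2 : ∀ x, g x * (g x)⁻¹ = 1 := fun x => Matrix.mul_nonsing_inv _ (u1 x)
  -- the lower bound of `lsq`
  have low : ∀ (x : E3) (p : Cov), ‖vec p‖ ^ 2 ≤ 9 * Cg * lsq g x p := by
    intro x p
    obtain ⟨l0, -, -, -, lcs, -⟩ := h2 g x (pD x) p
    set q : Cov := (g x).mulVec p with hq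
    have e1 : ev (g x)⁻¹ p q = ‖vec p‖ ^ 2 := by
      rw [norm_vec_sq]
      have : ev (g x)⁻¹ p q = p ⬝ᵥ (g x)⁻¹.mulVec q := by
        simp only [ev, dotProduct, Matrix.mulVec, Fin.sum_univ_three]
        ring
      rw [this, hq, Matrix.mulVec_mulVec, i1, Matrix.one_mulVec]
      simp only [dotProduct, Fin.sum_univ_three]
      ring
    have e2 : lsq g x q = ev (g x) p p := by
      have : lsq g x q = (g x)⁻¹.mulVec q ⬝ᵥ q := by
        simp only [lsq, ev, dotProduct, Matrix.mulVec, Fin.sum_univ_three]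
        ring
      rw [this, hq, Matrix.mulVec_mulVec, i1, Matrix.one_mulVec]
      simp only [ev, dotProduct, Matrix.mulVec, Fin.sum_univ_three]
      ring
    have e3 := lcs q
    rw [e1, e2] at e3
    have e4 := bilin_le (hCg' x) p
    by_cases hp : ‖vec p‖ ^ 2 = 0
    · rw [hp]; positivity
    · have hp' : 0 < ‖vec p‖ ^ 2 := lt_of_le_of_ne (sq_nonneg _) (Ne.symm hp)
      have e5 : (‖vec p‖ ^ 2) ^ 2 ≤ (9 * Cg * lsq g x p) * ‖vec p‖ ^ 2 := by
        calc (‖vec p‖ ^ 2) ^ 2 ≤ lsq g x p * ev (g x) p p := e3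
          _ ≤ lsq g x p * (9 * Cg * ‖vec p‖ ^ 2) := by gcongr
          _ = _ := by ring
      rw [pow_two (‖vec p‖ ^ 2)] at e5
      exact le_of_mul_le_mul_right e5 hp'
  -- raise
  have rai : ∀ (x : E3) (p : Cov), ‖vec (raise g x p)‖ ≤ 6 * CG * ‖vec p‖ := by
    intro x p
    have c1 : ∀ i, (raise g x p i) ^ 2 ≤ (3 * CG * ‖vec p‖) ^ 2 := by
      intro i
      rw [← sq_abs]
      have : |raise g x p i| ≤ 3 * CG * ‖vec p‖ := by
        unfold raise
        refine (Finset.abs_sum_le_sum_abs _ _).trans ?_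
        have : ∀ j ∈ (Finset.univ : Finset (Fin 3)), |(g x)⁻¹ i j * p j| ≤ CG * ‖vec p‖ := by
          intro j _
          rw [abs_mul]
          exact mul_le_mul (hCG' x i j) (abs_le_norm_vec p j) (abs_nonneg _) CG0
        refine (Finset.sum_le_sum this).trans (le_of_eq ?_)
        simp only [Fin.sum_univ_three]
        ring
      gcongr
    have c2 : ‖vec (raise g x p)‖ ^ 2 ≤ 3 * (3 * CG * ‖vec p‖) ^ 2 := by
      rw [norm_vec_sq]
      refine (Finset.sum_le_sum fun i _ => c1 i).trans (le_of_eq ?_)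
      simp only [Fin.sum_univ_three]
      ring
    by_contra hcon
    push Not at hcon
    have c3 : (6 * CG * ‖vec p‖) ^ 2 < ‖vec (raise g x p)‖ ^ 2 :=
      pow_lt_pow_left₀ hcon (by positivity) two_ne_zero
    nlinarith [sq_nonneg (CG * ‖vec p‖)]
  have nsq_quad : ∀ (x : E3) (M : Bil), nsq g x M = quad (g x)⁻¹ M := fun _ _ => rfl
  have qpos : ∀ (x : E3) (M : Bil), 0 ≤ quad (g x)⁻¹ M := fun x M => by
    obtain ⟨-, -, -, -, -, -, n0, -⟩ := h2 g x (pD x) 0
    exact n0 M
  -- the constant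
  set C : ℝ := 1 + (9 * CG + 9 * Cg + Cv + Cw + CG + 6 * CG + Cc + Ch + Ci + Cd + 9 * CG ^ 2 +
    (9 * Cg ^ 2 + 1)) with hC
  have le : ∀ a : ℝ, a ≤ 9 * CG + 9 * Cg + Cv + Cw + CG + 6 * CG + Cc + Ch + Ci + Cd +
      9 * CG ^ 2 + (9 * Cg ^ 2 + 1) → a ≤ C := fun a ha => by rw [hC]; linarith
  have p1 : 0 ≤ 9 * CG ^ 2 := by positivity
  have p2 : 0 ≤ 9 * Cg ^ 2 := by positivity
  refine ⟨C, ?_⟩
  refine
    { one := ?_
      up := ?_
      low := ?_
      volUp := ?_
      volLow := ?_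
      inv := ?_
      raise := ?_
      chr := ?_
      hh := ?_
      tr := ?_
      dinv := ?_
      dvol := ?_
      nsqUp := ?_
      nsqLow := ?_ }
  · rw [hC]; linarith
  · intro x p
    refine (bilin_le (hCG' x) p).trans ?_
    have : 9 * CG ≤ C := le _ (by linarith)
    gcongr
  · intro x p
    obtain ⟨l0, -⟩ := h2 g x (pD x) p
    refine (low x p).trans ?_
    have : 9 * Cg ≤ C := le _ (by linarith)
    gcongr
  · intro x
    exact ((le_abs_self _).trans (hCv x)).trans (le _ (by linarith))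
  · intro x
    have a1 : (volDen g x)⁻¹ ≤ Cw := (le_abs_self _).trans (hCw x)
    have a2 : Cw ≤ C := le _ (by linarith)
    have a3 := vPos x
    calc (1 : ℝ) = (volDen g x)⁻¹ * volDen g x := (inv_mul_cancel₀ a3.ne').symm
      _ ≤ C * volDen g x := by
          have : (volDen g x)⁻¹ ≤ C := a1.trans a2
          gcongr
  · intro x i j
    exact (hCG' x i j).trans (le _ (by linarith))
  · intro x p
    refine (rai x p).trans ?_
    have : 6 * CG ≤ C := le _ (by linarith)
    gcongr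
  · intro x k i j
    exact (hCc (k, i, j) x).trans (le _ (by linarith))
  · intro x i j
    exact (hCh (i, j) x).trans (le _ (by linarith))
  · intro x M
    have a2 : CG ≤ C := le _ (by linarith)
    unfold trg
    refine (Finset.abs_sum_le_sum_abs _ _).trans ?_
    rw [Finset.mul_sum]
    refine Finset.sum_le_sum fun i _ => ?_
    refine (Finset.abs_sum_le_sum_abs _ _).trans ?_
    rw [Finset.mul_sum]
    refine Finset.sum_le_sum fun j _ => ?_
    rw [abs_mul]
    exact mul_le_mul_of_nonneg_right ((hCG' x i j).trans a2) (abs_nonneg _)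
  · intro x i j k
    exact (hCi (i, j, k) x).trans (le _ (by linarith))
  · intro x k
    exact (hCd k x).trans (le _ (by linarith))
  · intro x M
    rw [nsq_quad]
    refine (quad_le (hCG' x) M).trans ?_
    have a2 : 9 * CG ^ 2 ≤ C := le _ (by linarith)
    have a3 : 0 ≤ ∑ i, ∑ j, M i j ^ 2 :=
      Finset.sum_nonneg fun i _ => Finset.sum_nonneg fun j _ => sq_nonneg _
    gcongr
  · intro x M
    rw [nsq_quad]
    refine (quad_low Cg0 (hCg' x) (i1 x) (i2 x) (sym1 x) (sym2 x) (qpos x) M).trans ?_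
    have a2 : 9 * Cg ^ 2 + 1 ≤ C := le _ (by linarith)
    have a3 := qpos x M
    gcongr

end Pool.Agent.PFlow
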