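import Pool.Agent.PFlow.StmtsK

/-!
# KCOEF: the regularised coefficients satisfy `Coef`
-/

namespace Pool.Agent.PFlow

open Pool.Agent.PenroseSph

/-- KCOEF: the regularised coefficients satisfy `Coef`. -/
theorem KCOEF_thm (h1 : KSMO) (h2 : KMON) (h3 : KLIP) : KCOEF := by
  intro ε δ κ g h r he he1 hd hk hg
  obtain ⟨s1, s2, s3, s4, s5⟩ := h1 ε δ κ g h r he he1 hd hk hg
  obtain ⟨c, hc, hm⟩ := h2 ε δ κ g h r he he1 hd hk hg
  obtain ⟨L, l1, l2, l3⟩ := h3 ε δ κ g h r he he1 hd hk hg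
  exact ⟨c, L, hc, ⟨s1, s2, s3, s4, hm, l1, l2, l3, s5⟩⟩

end Pool.Agent.PFlow
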