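import Pool.Agent.PFlow.StmtsK

/-!
# Block K: the Cordes inequality (module KCOR)
-/

open MeasureTheory Filter Topology
open scoped ContDiff

namespace Pool.Agent.PFlow

open Pool.Agent.PenroseSph

namespace KCOR

/-- the quadratic inequality -/
lemma sq_add_le {ε A R : ℝ} (h0 : 0 < ε) (h1 : ε < 1) :
    (A + R) ^ 2 ≤ A ^ 2 / (1 - ε) + R ^ 2 / ε := by
  have h2 : 0 < 1 - ε := by linarith
  rw [div_add_div _ _ h2.ne' h0.ne', le_div_iff₀ (mul_pos h2 h0)]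
  nlinarith [sq_nonneg (ε * A - (1 - ε) * R)]

/-- the scalar estimates for the weights -/
lemma weights {ε δ κ s : ℝ} (h0 : 0 < ε) (h1 : ε < 1) (hδ : 0 < δ) (hδ1 : δ ≤ 1) (hκ : 0 < κ)
    (hs : 0 ≤ s) :
    0 < regA ε δ κ s ∧ |regD ε δ s| * s ≤ (1 - ε) * regA ε δ κ s ∧
    s ^ 2 * ((s + δ ^ 2) ^ ((ε - 2) / 2)) ^ 2 ≤ s * regA ε δ κ s ^ 2 ∧
    1 ≤ (2 + s) * regA ε δ κ s ^ 2 := by
  set t : ℝ := s + δ ^ 2 with ht
  have ht0 : 0 < t := by positivity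
  have hst : s ≤ t := by rw [ht]; nlinarith [sq_nonneg δ]
  set P : ℝ := t ^ ((ε - 1) / 2) with hP
  have hP0 : 0 < P := Real.rpow_pos_of_pos ht0 _
  have hA : regA ε δ κ s = P + κ := rfl
  have hPA : P ≤ regA ε δ κ s := by rw [hA]; linarith
  have hA0 : 0 < regA ε δ κ s := lt_of_lt_of_le hP0 hPA
  have hPA2 : P ^ 2 ≤ regA ε δ κ s ^ 2 := pow_le_pow_left₀ hP0.le hPA 2
  refine ⟨hA0, ?_, ?_, ?_⟩
  · have e1 : |regD ε δ s| = (1 - ε) * t ^ ((ε - 3) / 2) := by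
      unfold regD
      rw [abs_mul, abs_of_neg (by linarith : ε - 1 < 0),
        abs_of_pos (Real.rpow_pos_of_pos ht0 _)]
      ring
    have e2 : t ^ ((ε - 3) / 2) * t = P := by
      rw [hP]
      nth_rewrite 2 [← Real.rpow_one t]
      rw [← Real.rpow_add ht0]
      congr 1
      ring
    rw [e1]
    have e3 : t ^ ((ε - 3) / 2) * s ≤ P := by
      rw [← e2]
      exact mul_le_mul_of_nonneg_left hst (Real.rpow_pos_of_pos ht0 _).le
    calc (1 - ε) * t ^ ((ε - 3) / 2) * s = (1 - ε) * (t ^ ((ε - 3) / 2) * s) := by ring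
      _ ≤ (1 - ε) * regA ε δ κ s :=
        mul_le_mul_of_nonneg_left (e3.trans hPA) (by linarith)
  · have e1 : (t ^ ((ε - 2) / 2)) ^ 2 * t = P ^ 2 := by
      rw [hP, ← Real.rpow_natCast, ← Real.rpow_natCast, ← Real.rpow_mul ht0.le,
        ← Real.rpow_mul ht0.le]
      nth_rewrite 2 [← Real.rpow_one t]
      rw [← Real.rpow_add ht0]
      congr 1
      push_cast
      ring
    calc s ^ 2 * (t ^ ((ε - 2) / 2)) ^ 2 = s * ((t ^ ((ε - 2) / 2)) ^ 2 * s) := by ring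
      _ ≤ s * ((t ^ ((ε - 2) / 2)) ^ 2 * t) := by gcongr
      _ = s * P ^ 2 := by rw [e1]
      _ ≤ s * regA ε δ κ s ^ 2 := by gcongr
  · have e1 : P ^ 2 * t ^ (1 - ε) = 1 := by
      rw [hP, ← Real.rpow_natCast, ← Real.rpow_mul ht0.le, ← Real.rpow_add ht0]
      have : (ε - 1) / 2 * ((2 : ℕ) : ℝ) + (1 - ε) = 0 := by push_cast; ring
      rw [this, Real.rpow_zero]
    have e2 : t ^ (1 - ε) ≤ 2 + s := by
      rcases le_total t 1 with h | h
      · exact (Real.rpow_le_one ht0.le h (by linarith)).trans (by linarith)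
      · calc t ^ (1 - ε) ≤ t ^ (1 : ℝ) := Real.rpow_le_rpow_of_exponent_le h (by linarith)
          _ = t := Real.rpow_one t
          _ ≤ 2 + s := by rw [ht]; nlinarith
    calc (1 : ℝ) = P ^ 2 * t ^ (1 - ε) := e1.symm
      _ ≤ P ^ 2 * (2 + s) := by gcongr
      _ ≤ regA ε δ κ s ^ 2 * (2 + s) := by gcongr
      _ = _ := by ring

/-- the bound of the terms with `h` -/
lemma hterm {g h : TensorField} {C : ℝ} (hC : GBound g h C) {x : E3} {p : Cov}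
    (hk1 : 0 ≤ lsq g x p)
    (hk2 : ∀ B : Bil, (ev B (raise g x p) (raise g x p)) ^ 2 ≤ lsq g x p ^ 2 * nsq g x B)
    {ε : ℝ} (h0 : 0 < ε) (h1 : ε < 1) :
    |lsq g x p * trg g x (h x) - (1 - ε) * ev (h x) (raise g x p) (raise g x p)| ≤
      12 * C ^ 2 * lsq g x p := by
  have hC1 := hC.one
  have a1 : |trg g x (h x)| ≤ 9 * C ^ 2 := by
    refine (hC.tr x (h x)).trans ?_
    have : ∑ i, ∑ j, |h x i j| ≤ 9 * C := by
      calc ∑ i, ∑ j, |h x i j| ≤ ∑ _i : Fin 3, ∑ _j : Fin 3, C :=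
            Finset.sum_le_sum fun i _ => Finset.sum_le_sum fun j _ => hC.hh x i j
        _ = 9 * C := by simp; ring
    calc C * ∑ i, ∑ j, |h x i j| ≤ C * (9 * C) := by gcongr
      _ = _ := by ring
  have a2 : nsq g x (h x) ≤ 9 * C ^ 3 := by
    refine (hC.nsqUp x (h x)).trans ?_
    have : ∑ i, ∑ j, h x i j ^ 2 ≤ 9 * C ^ 2 := by
      calc ∑ i, ∑ j, h x i j ^ 2 ≤ ∑ _i : Fin 3, ∑ _j : Fin 3, C ^ 2 :=
            Finset.sum_le_sum fun i _ => Finset.sum_le_sum fun j _ => by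
              rw [← sq_abs]
              exact pow_le_pow_left₀ (abs_nonneg _) (hC.hh x i j) 2
        _ = 9 * C ^ 2 := by simp; ring
    calc C * ∑ i, ∑ j, h x i j ^ 2 ≤ C * (9 * C ^ 2) := by gcongr
      _ = _ := by ring
  have a3 : |ev (h x) (raise g x p) (raise g x p)| ≤ 3 * C ^ 2 * lsq g x p := by
    apply abs_le_of_sq_le_sq _ (by positivity)
    refine (hk2 (h x)).trans ?_
    have a4 : C ^ 3 ≤ C ^ 4 := pow_le_pow_right₀ hC1 (by norm_num)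
    calc lsq g x p ^ 2 * nsq g x (h x) ≤ lsq g x p ^ 2 * (9 * C ^ 3) := by gcongr
      _ ≤ lsq g x p ^ 2 * (9 * C ^ 4) := by gcongr
      _ = (3 * C ^ 2 * lsq g x p) ^ 2 := by ring
  calc |lsq g x p * trg g x (h x) - (1 - ε) * ev (h x) (raise g x p) (raise g x p)|
      ≤ |lsq g x p * trg g x (h x)| + |(1 - ε) * ev (h x) (raise g x p) (raise g x p)| :=
        abs_sub _ _
    _ = lsq g x p * |trg g x (h x)| + (1 - ε) * |ev (h x) (raise g x p) (raise g x p)| := by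
        rw [abs_mul, abs_mul, abs_of_nonneg hk1, abs_of_pos (by linarith : 0 < 1 - ε)]
    _ ≤ lsq g x p * (9 * C ^ 2) + 1 * (3 * C ^ 2 * lsq g x p) := by
        gcongr
        linarith
    _ = _ := by ring

end KCOR

/-- **KCOR**: the Cordes inequality, uniformly in `δ, κ ∈ (0, 1]`. -/
theorem KCOR_thm (h1 : KBND) (h2 : KTN) : KCOR := by
  intro ε g h r hε0 hε1 hG
  obtain ⟨C, hC⟩ := h1 g h r hG
  have hC1 := hC.one
  have hε' : 0 < 1 - ε := by linarith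
  refine ⟨(4 * C ^ 3 + 288 * C ^ 5) / ε, by positivity, ?_⟩
  intro δ κ hδ hδ1 hκ hκ1 x p M F heq
  obtain ⟨hk1, -, -, -, -, hk2, hk3, -⟩ := h2 g x (hG.met.posDef x (Set.mem_univ x)) p
  obtain ⟨hA0, hD, hW, hP⟩ := KCOR.weights (κ := κ) hε0 hε1 hδ hδ1 hκ hk1
  have hht := KCOR.hterm hC hk1 hk2 hε0 hε1
  have hQ := hk2 (cHess g x p M)
  have hN := hk3 (cHess g x p M)
  have hup := hC.up x p
  have hv := hC.volLow x
  set H := cHess g x p M with hH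
  set s := lsq g x p with hs
  set T := trg g x H with hT
  set Q := ev H (raise g x p) (raise g x p) with hQd
  set a := regA ε δ κ s with ha
  set b := regD ε δ s with hb
  set v := volDen g x with hvd
  set W := (s + δ ^ 2) ^ ((ε - 2) / 2) with hWd
  set Y := s * trg g x (h x) - (1 - ε) * ev (h x) (raise g x p) (raise g x p) with hY
  have hv0 : 0 < v := by
    by_contra hcon
    rw [not_lt] at hcon
    have : C * v ≤ 0 := mul_nonpos_of_nonneg_of_nonpos (by linarith) hcon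
    linarith
  have hB : cB ε δ g h x (vec p) = v * W * Y := rfl
  have hL : opL ε δ κ g x p M = v * (a * T + b * Q) := rfl
  rw [hB, hL] at heq
  -- solve for the trace
  have hTe : T = -(b * Q) / a + (F / v - W * Y) / a := by
    field_simp
    linarith
  have hA2 : (-(b * Q) / a) ^ 2 ≤ (1 - ε) ^ 2 * nsq g x H := by
    rw [div_pow, div_le_iff₀ (by positivity)]
    have e1 : (|b| * s) ^ 2 ≤ ((1 - ε) * a) ^ 2 := pow_le_pow_left₀ (by positivity) hD 2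
    calc (-(b * Q)) ^ 2 = b ^ 2 * Q ^ 2 := by ring
      _ ≤ b ^ 2 * (s ^ 2 * nsq g x H) := by gcongr
      _ = (|b| * s) ^ 2 * nsq g x H := by rw [mul_pow, sq_abs]; ring
      _ ≤ ((1 - ε) * a) ^ 2 * nsq g x H := by gcongr
      _ = _ := by ring
  have hn : 0 ≤ ‖vec p‖ ^ 2 := by positivity
  have hR1 : (F / v / a) ^ 2 ≤ 2 * C ^ 3 * (F ^ 2 * (1 + ‖vec p‖ ^ 2)) := by
    have e1 : 1 / (v * a) ^ 2 ≤ C ^ 2 * (2 + s) := by
      rw [div_le_iff₀ (by positivity)]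
      have e2 : (1 : ℝ) ≤ (C * v) ^ 2 := one_le_pow₀ hv
      calc (1 : ℝ) = 1 * 1 := (one_mul 1).symm
        _ ≤ (C * v) ^ 2 * ((2 + s) * a ^ 2) := by gcongr
        _ = _ := by ring
    have e3 : 2 + s ≤ 2 * C * (1 + ‖vec p‖ ^ 2) := by nlinarith
    calc (F / v / a) ^ 2 = F ^ 2 * (1 / (v * a) ^ 2) := by field_simp
      _ ≤ F ^ 2 * (C ^ 2 * (2 * C * (1 + ‖vec p‖ ^ 2))) := by
        gcongr
        exact e1.trans (by gcongr)
      _ = _ := by ring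
  have hR2 : (W * Y / a) ^ 2 ≤ 144 * C ^ 5 * ‖vec p‖ ^ 2 := by
    rw [div_pow, div_le_iff₀ (by positivity)]
    have e1 : Y ^ 2 ≤ (12 * C ^ 2 * s) ^ 2 := by
      rw [← sq_abs]
      exact pow_le_pow_left₀ (abs_nonneg _) hht 2
    calc (W * Y) ^ 2 = W ^ 2 * Y ^ 2 := by ring
      _ ≤ W ^ 2 * (12 * C ^ 2 * s) ^ 2 := by gcongr
      _ = 144 * C ^ 4 * (s ^ 2 * W ^ 2) := by ring
      _ ≤ 144 * C ^ 4 * (s * a ^ 2) := by gcongr
      _ ≤ 144 * C ^ 4 * ((C * ‖vec p‖ ^ 2) * a ^ 2) := by gcongr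
      _ = _ := by ring
  have hR : ((F / v - W * Y) / a) ^ 2 ≤
      (4 * C ^ 3 + 288 * C ^ 5) * (‖vec p‖ ^ 2 + F ^ 2 * (1 + ‖vec p‖ ^ 2)) := by
    have e1 : (F / v - W * Y) / a = F / v / a - W * Y / a := by ring
    rw [e1]
    have e2 : (F / v / a - W * Y / a) ^ 2 ≤ 2 * (F / v / a) ^ 2 + 2 * (W * Y / a) ^ 2 := by
      nlinarith [sq_nonneg (F / v / a + W * Y / a)]
    have e3 : 0 ≤ F ^ 2 * (1 + ‖vec p‖ ^ 2) := by positivity
    have e4 : 0 ≤ C ^ 3 := by positivity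
    have e5 : 0 ≤ C ^ 5 := by positivity
    nlinarith [mul_nonneg e4 hn, mul_nonneg e5 e3]
  calc T ^ 2 = (-(b * Q) / a + (F / v - W * Y) / a) ^ 2 := by rw [← hTe]
    _ ≤ (-(b * Q) / a) ^ 2 / (1 - ε) + ((F / v - W * Y) / a) ^ 2 / ε := KCOR.sq_add_le hε0 hε1
    _ ≤ (1 - ε) ^ 2 * nsq g x H / (1 - ε) +
        (4 * C ^ 3 + 288 * C ^ 5) * (‖vec p‖ ^ 2 + F ^ 2 * (1 + ‖vec p‖ ^ 2)) / ε := by
        gcongr
    _ = _ := by
        field_simp

end Pool.Agent.PFlow
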