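import Pool.Agent.PFlow.StmtsK

/-!
# KCUT: cut-off functions
-/

open MeasureTheory Filter Topology
open scoped ContDiff

namespace Pool.Agent.PFlow

open Pool.Agent.PenroseSph

namespace KCUT

/-- the function `(t_+)^m` -/
noncomputable def sp (m : ℕ) (t : ℝ) : ℝ := (max t 0) ^ m

lemma sp_of_nonpos {m : ℕ} (hm : m ≠ 0) {t : ℝ} (ht : t ≤ 0) : sp m t = 0 := by
  rw [sp, max_eq_right ht, zero_pow hm]

lemma sp_of_nonneg {m : ℕ} {t : ℝ} (ht : 0 ≤ t) : sp m t = t ^ m := by
  rw [sp, max_eq_left ht]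

lemma sp_nonneg (m : ℕ) (t : ℝ) : 0 ≤ sp m t := pow_nonneg (le_max_right _ _) _

lemma continuous_sp (m : ℕ) : Continuous (sp m) := by
  unfold sp
  fun_prop

lemma hasDerivAt_sp {m : ℕ} (hm : 2 ≤ m) (t : ℝ) :
    HasDerivAt (sp m) (m * sp (m - 1) t) t := by
  rcases lt_trichotomy t 0 with ht | ht | ht
  · rw [sp_of_nonpos (by omega) ht.le, mul_zero]
    refine (hasDerivAt_const t (0 : ℝ)).congr_of_eventuallyEq ?_
    filter_upwards [eventually_lt_nhds ht] with s hs
    exact sp_of_nonpos (by omega) hs.le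
  · subst ht
    rw [sp_of_nonpos (by omega) le_rfl, mul_zero, hasDerivAt_iff_isLittleO_nhds_zero]
    have h1 : (fun h : ℝ => sp m (0 + h) - sp m 0 - h • (0 : ℝ)) = fun h => sp m h := by
      funext h
      rw [zero_add, sp_of_nonpos (by omega) (le_refl (0 : ℝ)), sub_zero, smul_zero, sub_zero]
    rw [h1]
    have h2 : (fun h : ℝ => sp m h) =O[𝓝 0] (fun h : ℝ => h ^ m) := by
      refine Asymptotics.IsBigO.of_bound 1 (Eventually.of_forall fun h => ?_)
      rw [one_mul, Real.norm_eq_abs, Real.norm_eq_abs, abs_of_nonneg (sp_nonneg m h), abs_pow, sp]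
      refine pow_le_pow_left₀ (le_max_right _ _) ?_ m
      exact max_le (le_abs_self h) (abs_nonneg h)
    exact h2.trans_isLittleO (Asymptotics.isLittleO_pow_id (by omega))
  · rw [sp_of_nonneg ht.le]
    refine (hasDerivAt_pow m t).congr_of_eventuallyEq ?_
    filter_upwards [eventually_gt_nhds ht] with s hs
    exact sp_of_nonneg hs.le

section

variable (m : ℕ) (a b : ℝ)

/-- the weight -/
noncomputable def wt (t : ℝ) : ℝ := sp m ((t - a) / (b - a)) * sp m ((b - t) / (b - a))

/-- the derivative of the weight -/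
noncomputable def wt' (t : ℝ) : ℝ :=
  m / (b - a) * (sp (m - 1) ((t - a) / (b - a)) * sp m ((b - t) / (b - a)) -
    sp m ((t - a) / (b - a)) * sp (m - 1) ((b - t) / (b - a)))

variable {m a b}

lemma continuous_wt : Continuous (wt m a b) := by
  unfold wt
  have := continuous_sp m
  fun_prop

lemma continuous_wt' : Continuous (wt' m a b) := by
  unfold wt'
  have := continuous_sp m
  have := continuous_sp (m - 1)
  fun_prop

lemma hasDerivAt_wt (hm : 2 ≤ m) (t : ℝ) : HasDerivAt (wt m a b) (wt' m a b t) t := by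
  have h1 : HasDerivAt (fun t : ℝ => (t - a) / (b - a)) (1 / (b - a)) t :=
    ((hasDerivAt_id t).sub_const a).div_const (b - a)
  have h2 : HasDerivAt (fun t : ℝ => (b - t) / (b - a)) (-1 / (b - a)) t :=
    ((hasDerivAt_id t).const_sub b).div_const (b - a)
  have h3 := (hasDerivAt_sp hm ((t - a) / (b - a))).comp t h1
  have h4 := (hasDerivAt_sp hm ((b - t) / (b - a))).comp t h2
  have h5 := h3.mul h4
  refine h5.congr_deriv ?_
  simp only [wt', Function.comp]
  ring

lemma wt_nonneg (t : ℝ) : 0 ≤ wt m a b t := mul_nonneg (sp_nonneg _ _) (sp_nonneg _ _)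

lemma wt_of_le (hm : m ≠ 0) (hab : a < b) {t : ℝ} (ht : t ≤ a) : wt m a b t = 0 := by
  rw [wt, sp_of_nonpos hm (div_nonpos_of_nonpos_of_nonneg (by linarith) (by linarith)), zero_mul]

lemma wt_of_ge (hm : m ≠ 0) (hab : a < b) {t : ℝ} (ht : b ≤ t) : wt m a b t = 0 := by
  rw [wt, sp_of_nonpos hm (t := (b - t) / (b - a))
    (div_nonpos_of_nonpos_of_nonneg (by linarith) (by linarith)), mul_zero]

lemma wt'_of_le (hm : 2 ≤ m) (hab : a < b) {t : ℝ} (ht : t ≤ a) : wt' m a b t = 0 := by
  have h : (t - a) / (b - a) ≤ 0 := div_nonpos_of_nonpos_of_nonneg (by linarith) (by linarith)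
  rw [wt', sp_of_nonpos (by omega) h, sp_of_nonpos (by omega) h]
  ring

lemma wt'_of_ge (hm : 2 ≤ m) (hab : a < b) {t : ℝ} (ht : b ≤ t) : wt' m a b t = 0 := by
  have h : (b - t) / (b - a) ≤ 0 := div_nonpos_of_nonpos_of_nonneg (by linarith) (by linarith)
  rw [wt', sp_of_nonpos (by omega) h, sp_of_nonpos (by omega) h]
  ring

/-- the weight and its derivative inside the interval -/
lemma inside (hm : 2 ≤ m) {t : ℝ} (h1 : a < t) (h2 : t < b) :
    ∃ p : ℝ, 0 < p ∧ p ≤ 1 ∧ wt m a b t = p ^ m ∧ |wt' m a b t| ≤ m / (b - a) * p ^ (m - 1) := by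
  have hba : 0 < b - a := by linarith
  set u := (t - a) / (b - a) with hu
  set v := (b - t) / (b - a) with hv
  have hu0 : 0 < u := div_pos (by linarith) hba
  have hv0 : 0 < v := div_pos (by linarith) hba
  have huv : u + v = 1 := by
    rw [hu, hv]; field_simp; ring
  refine ⟨u * v, mul_pos hu0 hv0, ?_, ?_, ?_⟩
  · nlinarith
  · rw [wt, ← hu, ← hv, sp_of_nonneg hu0.le, sp_of_nonneg hv0.le, mul_pow]
  · have e : wt' m a b t = m / (b - a) * (u * v) ^ (m - 1) * (v - u) := by
      rw [wt', ← hu, ← hv, sp_of_nonneg hu0.le, sp_of_nonneg hv0.le, sp_of_nonneg hu0.le,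
        sp_of_nonneg hv0.le]
      obtain ⟨k, rfl⟩ : ∃ k, m = k + 1 := ⟨m - 1, by omega⟩
      rw [Nat.add_sub_cancel, pow_succ u k, pow_succ v k, mul_pow]
      ring
    rw [e, abs_mul, abs_of_nonneg (by positivity)]
    have h3 : |v - u| ≤ 1 := by
      rw [abs_le]; constructor <;> linarith
    calc (m : ℝ) / (b - a) * (u * v) ^ (m - 1) * |v - u|
        ≤ (m : ℝ) / (b - a) * (u * v) ^ (m - 1) * 1 :=
          mul_le_mul_of_nonneg_left h3 (by positivity)
      _ = _ := mul_one _

/-- the total mass -/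
noncomputable def tot (m : ℕ) (a b : ℝ) : ℝ := ∫ s in a..b, wt m a b s

lemma tot_pos (hm : 2 ≤ m) (hab : a < b) : 0 < tot m a b := by
  refine intervalIntegral.intervalIntegral_pos_of_pos_on
    (continuous_wt.intervalIntegrable _ _) ?_ hab
  intro t ht
  obtain ⟨p, hp, -, h, -⟩ := inside hm ht.1 ht.2
  rw [h]
  positivity

/-- the profile -/
noncomputable def phi (m : ℕ) (a b t : ℝ) : ℝ := (∫ s in t..b, wt m a b s) / tot m a b

lemma hasDerivAt_phi (t : ℝ) : HasDerivAt (phi m a b) (-wt m a b t / tot m a b) t := by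
  have h : HasDerivAt (fun u => ∫ s in u..b, wt m a b s) (-wt m a b t) t :=
    intervalIntegral.integral_hasDerivAt_left (continuous_wt.intervalIntegrable _ _)
      (continuous_wt.stronglyMeasurableAtFilter _ _) continuous_wt.continuousAt
  exact h.div_const _

lemma phi_of_le (hm : 2 ≤ m) (hab : a < b) {t : ℝ} (ht : t ≤ a) : phi m a b t = 1 := by
  have h1 : (∫ s in t..b, wt m a b s) = (∫ s in t..a, wt m a b s) + ∫ s in a..b, wt m a b s :=
    (intervalIntegral.integral_add_adjacent_intervals (continuous_wt.intervalIntegrable _ _)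
      (continuous_wt.intervalIntegrable _ _)).symm
  have h2 : (∫ s in t..a, wt m a b s) = 0 := by
    have : (∫ s in t..a, wt m a b s) = ∫ s in t..a, (0 : ℝ) := by
      refine intervalIntegral.integral_congr fun s hs => ?_
      rw [Set.uIcc_of_le ht] at hs
      exact wt_of_le (by omega) hab hs.2
    rw [this, intervalIntegral.integral_zero]
  rw [phi, h1, h2, zero_add]
  exact div_self (tot_pos hm hab).ne'

lemma phi_of_ge (hm : 2 ≤ m) (hab : a < b) {t : ℝ} (ht : b ≤ t) : phi m a b t = 0 := by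
  have h2 : (∫ s in t..b, wt m a b s) = 0 := by
    have : (∫ s in t..b, wt m a b s) = ∫ s in t..b, (0 : ℝ) := by
      refine intervalIntegral.integral_congr fun s hs => ?_
      rw [Set.uIcc_of_ge ht] at hs
      exact wt_of_ge (by omega) hab hs.1
    rw [this, intervalIntegral.integral_zero]
  rw [phi, h2, zero_div]

lemma phi_mem (hm : 2 ≤ m) (hab : a < b) (t : ℝ) : 0 ≤ phi m a b t ∧ phi m a b t ≤ 1 := by
  have hI := tot_pos hm hab
  rcases le_or_gt t a with h | h
  · rw [phi_of_le hm hab h]; norm_num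
  · rcases le_or_gt b t with h' | h'
    · rw [phi_of_ge hm hab h']; norm_num
    · have h1 : 0 ≤ ∫ s in t..b, wt m a b s :=
        intervalIntegral.integral_nonneg h'.le fun s _ => wt_nonneg s
      have h2 : 0 ≤ ∫ s in a..t, wt m a b s :=
        intervalIntegral.integral_nonneg h.le fun s _ => wt_nonneg s
      have h3 : tot m a b = (∫ s in a..t, wt m a b s) + ∫ s in t..b, wt m a b s :=
        (intervalIntegral.integral_add_adjacent_intervals (continuous_wt.intervalIntegrable _ _)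
          (continuous_wt.intervalIntegrable _ _)).symm
      refine ⟨div_nonneg h1 hI.le, ?_⟩
      rw [phi, div_le_one hI]
      linarith

lemma deriv_phi : deriv (phi m a b) = fun t => -wt m a b t / tot m a b := by
  funext t
  exact (hasDerivAt_phi t).deriv

lemma contDiff_wt (hm : 2 ≤ m) : ContDiff ℝ 1 (wt m a b) := by
  rw [contDiff_one_iff_deriv]
  refine ⟨fun t => (hasDerivAt_wt hm t).differentiableAt, ?_⟩
  have : deriv (wt m a b) = wt' m a b := by
    funext t
    exact (hasDerivAt_wt hm t).deriv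
  rw [this]
  exact continuous_wt'

lemma contDiff_phi (hm : 2 ≤ m) : ContDiff ℝ 2 (phi m a b) := by
  have h : ContDiff ℝ (1 + 1) (phi m a b) := by
    rw [contDiff_succ_iff_deriv]
    refine ⟨fun t => (hasDerivAt_phi t).differentiableAt, ?_, ?_⟩
    · intro h
      exact absurd h (by decide)
    · rw [deriv_phi]
      exact (contDiff_wt hm).neg.div_const _
  have e : ((1 : WithTop ℕ∞) + 1) = 2 := one_add_one_eq_two
  rwa [e] at h

end

/-! ### The function on the space -/

lemma inner_single (x : E3) (i : Fin 3) : inner ℝ x (EuclideanSpace.single i (1 : ℝ)) = x i := by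
  rw [EuclideanSpace.inner_single_right]
  simp

lemma pd_comp_sq {F : ℝ → ℝ} {F' : ℝ} (x : E3) (i : Fin 3) (hF : HasDerivAt F F' (‖x‖ ^ 2)) :
    pd i (fun y : E3 => F (‖y‖ ^ 2)) x = F' * (2 * x i) := by
  have h1 : HasFDerivAt (fun y : E3 => ‖y‖ ^ 2) (2 • innerSL ℝ x) x :=
    (hasStrictFDerivAt_norm_sq x).hasFDerivAt
  have h2 := hF.comp_hasFDerivAt x h1
  have h3 : (fun y : E3 => F (‖y‖ ^ 2)) = F ∘ fun y : E3 => ‖y‖ ^ 2 := rfl
  rw [pd, h3, h2.fderiv]
  simp only [ContinuousLinearMap.smul_apply, innerSL_apply_apply, inner_single, smul_eq_mul,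
    nsmul_eq_mul, Nat.cast_ofNat]

lemma norm_vec_sq (p : Cov) : ‖vec p‖ ^ 2 = ∑ i, p i ^ 2 := by
  rw [EuclideanSpace.norm_sq_eq]
  refine Finset.sum_congr rfl fun i _ => ?_
  rw [Real.norm_eq_abs, sq_abs]

lemma norm_vec_smul (c : ℝ) (x : E3) : ‖vec (fun i => c * x i)‖ = |c| * ‖x‖ := by
  have h : vec (fun i => c * x i) = c • x := by
    ext i
    rfl
  rw [h, norm_smul, Real.norm_eq_abs]

lemma abs_coord_le (x : E3) (i : Fin 3) : |x i| ≤ ‖x‖ := by
  rw [← Real.norm_eq_abs]
  exact PiLp.norm_apply_le x i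

lemma pd_coord_mul {G : E3 → ℝ} (x : E3) (i j : Fin 3) (hG : DifferentiableAt ℝ G x) :
    pd i (fun y : E3 => G y * (2 * y j)) x =
      pd i G x * (2 * x j) + G x * (2 * if i = j then 1 else 0) := by
  have h1 : HasFDerivAt (fun y : E3 => 2 * y j)
      ((2 : ℝ) • (EuclideanSpace.proj j : E3 →L[ℝ] ℝ)) x := by
    have := (EuclideanSpace.proj j : E3 →L[ℝ] ℝ).hasFDerivAt (x := x)
    exact this.const_mul 2
  have h2 : HasFDerivAt (fun y : E3 => G y * (2 * y j))
      (G x • ((2 : ℝ) • (EuclideanSpace.proj j : E3 →L[ℝ] ℝ)) + (2 * x j) • fderiv ℝ G x) x :=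
    hG.hasFDerivAt.mul h1
  rw [pd, h2.fderiv]
  show G x * (2 * (EuclideanSpace.single i (1 : ℝ) : E3) j) +
    (2 * x j) * fderiv ℝ G x (EuclideanSpace.single i 1) =
    fderiv ℝ G x (EuclideanSpace.single i 1) * (2 * x j) + G x * (2 * if i = j then 1 else 0)
  by_cases h : i = j
  · subst h
    have : (EuclideanSpace.single i (1 : ℝ) : E3) i = 1 := by simp
    rw [this, if_pos rfl]
    ring
  · have : (EuclideanSpace.single i (1 : ℝ) : E3) j = 0 := by
      simp [Ne.symm h]
    rw [this, if_neg h]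
    ring

end KCUT

open KCUT in
theorem KCUT_thm : KCUT := by
  intro ε r₁ r₂ hε hε1 hr₁ hr₂
  obtain ⟨m, hm2, hmε⟩ : ∃ m : ℕ, 2 ≤ m ∧ 1 ≤ m * ε := by
    obtain ⟨k, hk⟩ := exists_nat_ge (1 / ε)
    refine ⟨k + 2, by omega, ?_⟩
    rw [div_le_iff₀ hε] at hk
    push_cast
    nlinarith
  set a : ℝ := r₁ ^ 2 with ha
  set b : ℝ := r₂ ^ 2 with hb
  have hab : a < b := by
    rw [ha, hb]
    exact pow_lt_pow_left₀ hr₂ hr₁.le two_ne_zero
  have hba : 0 < b - a := by linarith
  set I := tot m a b with hI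
  have hIpos : 0 < I := tot_pos hm2 hab
  have hgrad : ∀ x : E3, grad (fun y : E3 => phi m a b (‖y‖ ^ 2)) x =
      fun i => (-wt m a b (‖x‖ ^ 2) / I * 2) * x i := by
    intro x
    funext i
    rw [grad, pd_comp_sq x i (hasDerivAt_phi _)]
    ring
  have hnorm : ∀ x : E3, ‖vec (grad (fun y : E3 => phi m a b (‖y‖ ^ 2)) x)‖ =
      2 * (wt m a b (‖x‖ ^ 2) / I) * ‖x‖ := by
    intro x
    rw [hgrad x, norm_vec_smul]
    congr 1
    have h1 : -wt m a b (‖x‖ ^ 2) / I * 2 = -(2 * (wt m a b (‖x‖ ^ 2) / I)) := by ring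
    rw [h1, abs_neg, abs_of_nonneg]
    have := wt_nonneg (m := m) (a := a) (b := b) (‖x‖ ^ 2)
    positivity
  have hhess : ∀ (x : E3) (i j : Fin 3), hess2 (fun y : E3 => phi m a b (‖y‖ ^ 2)) x i j =
      -wt' m a b (‖x‖ ^ 2) / I * (2 * x i) * (2 * x j) +
        -wt m a b (‖x‖ ^ 2) / I * (2 * if i = j then 1 else 0) := by
    intro x i j
    have h1 : pd j (fun y : E3 => phi m a b (‖y‖ ^ 2)) =
        fun y : E3 => (fun z : E3 => -wt m a b (‖z‖ ^ 2) / I) y * (2 * y j) := by
      funext y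
      rw [pd_comp_sq y j (hasDerivAt_phi _)]
    have h2 : HasDerivAt (fun t => -wt m a b t / I) (-wt' m a b (‖x‖ ^ 2) / I) (‖x‖ ^ 2) :=
      ((hasDerivAt_wt hm2 _).neg).div_const I
    have h3 : DifferentiableAt ℝ (fun z : E3 => -wt m a b (‖z‖ ^ 2) / I) x := by
      have h4 : HasFDerivAt (fun y : E3 => ‖y‖ ^ 2) (2 • innerSL ℝ x) x :=
        (hasStrictFDerivAt_norm_sq x).hasFDerivAt
      exact (h2.comp_hasFDerivAt x h4).differentiableAt
    show pd i (pd j (fun y : E3 => phi m a b (‖y‖ ^ 2))) x = _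
    rw [h1, pd_coord_mul x i j h3, pd_comp_sq x i h2]
  -- the constants
  set M : ℝ := 4 * b * (m / (b - a)) / I + 2 / I with hM
  have hM0 : 0 ≤ M := by
    rw [hM]
    have : 0 < b := lt_of_le_of_lt (by positivity) hab
    positivity
  set c : ℝ := (2 * (r₁ / I)) ^ (1 - ε) with hc
  have hc0 : 0 < c := Real.rpow_pos_of_pos (by positivity) _
  have hMc : 0 ≤ M / c := by positivity
  have hr2I : 0 ≤ 2 * (1 / I) * r₂ := by
    have : 0 < r₂ := hr₁.trans hr₂
    positivity
  refine ⟨fun y : E3 => phi m a b (‖y‖ ^ 2), 2 * (1 / I) * r₂ + M / c, ?_, ?_, ?_, ?_, ?_, ?_⟩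
  · exact (contDiff_phi hm2).comp (contDiff_norm_sq ℝ)
  · intro x
    exact phi_mem hm2 hab _
  · intro x hx
    exact phi_of_le hm2 hab (pow_le_pow_left₀ (norm_nonneg x) hx 2)
  · intro x hx
    exact phi_of_ge hm2 hab (pow_le_pow_left₀ (hr₁.trans hr₂).le hx 2)
  · intro x
    rw [hnorm x]
    rcases le_or_gt (‖x‖ ^ 2) a with h | h
    · rw [wt_of_le (by omega) hab h, zero_div, mul_zero, zero_mul]
      linarith
    · rcases le_or_gt b (‖x‖ ^ 2) with h' | h'
      · rw [wt_of_ge (by omega) hab h', zero_div, mul_zero, zero_mul]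
        linarith
      · obtain ⟨p, hp0, hp1, hw, -⟩ := inside hm2 h h'
        have h1 : wt m a b (‖x‖ ^ 2) ≤ 1 := by
          rw [hw]
          exact pow_le_one₀ hp0.le hp1
        have h2 : ‖x‖ ≤ r₂ := by
          have : ‖x‖ ^ 2 ≤ r₂ ^ 2 := h'.le
          exact (pow_le_pow_iff_left₀ (norm_nonneg x) (hr₁.trans hr₂).le two_ne_zero).1 this
        have h3 : 2 * (wt m a b (‖x‖ ^ 2) / I) * ‖x‖ ≤ 2 * (1 / I) * r₂ := by
          have h0 := wt_nonneg (m := m) (a := a) (b := b) (‖x‖ ^ 2)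
          gcongr
        linarith
  · intro x i j
    rw [hhess x i j, hnorm x]
    rcases le_or_gt (‖x‖ ^ 2) a with h | h
    · rw [wt_of_le (by omega) hab h, wt'_of_le hm2 hab h]
      simp only [neg_zero, zero_div, zero_mul, add_zero, abs_zero, mul_zero]
      have : (0 : ℝ) ≤ 0 ^ (1 - ε) := Real.rpow_nonneg le_rfl _
      positivity
    · rcases le_or_gt b (‖x‖ ^ 2) with h' | h'
      · rw [wt_of_ge (by omega) hab h', wt'_of_ge hm2 hab h']
        simp only [neg_zero, zero_div, zero_mul, add_zero, abs_zero, mul_zero]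
        have : (0 : ℝ) ≤ 0 ^ (1 - ε) := Real.rpow_nonneg le_rfl _
        positivity
      · obtain ⟨p, hp0, hp1, hw, hw'⟩ := inside hm2 h h'
        have hwpos : 0 < wt m a b (‖x‖ ^ 2) := by rw [hw]; positivity
        have hr : r₁ ≤ ‖x‖ := by
          have : r₁ ^ 2 ≤ ‖x‖ ^ 2 := h.le
          exact (pow_le_pow_iff_left₀ hr₁.le (norm_nonneg x) two_ne_zero).1 this
        -- `p^(m-1)` and `p^m` are at most `w^(1-ε)`
        set w := wt m a b (‖x‖ ^ 2) with hwdef
        have hw1 : w ≤ 1 := by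
          rw [hw]
          exact pow_le_one₀ hp0.le hp1
        have e1 : p ^ (m - 1) ≤ w ^ (1 - ε) := by
          rw [hw, ← Real.rpow_natCast p m, ← Real.rpow_mul hp0.le, ← Real.rpow_natCast p (m - 1)]
          refine Real.rpow_le_rpow_of_exponent_ge hp0 hp1 ?_
          rw [Nat.cast_sub (by omega)]
          push_cast
          nlinarith
        have e2 : w ≤ w ^ (1 - ε) := by
          conv_lhs => rw [← Real.rpow_one w]
          exact Real.rpow_le_rpow_of_exponent_ge hwpos hw1 (by linarith)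
        have e3 : c * w ^ (1 - ε) ≤ (2 * (w / I) * ‖x‖) ^ (1 - ε) := by
          rw [hc, ← Real.mul_rpow (by positivity) hwpos.le]
          refine Real.rpow_le_rpow (by positivity) ?_ (by linarith)
          calc 2 * (r₁ / I) * w = 2 * (w / I) * r₁ := by ring
            _ ≤ 2 * (w / I) * ‖x‖ := by gcongr
        have e4 : |(-wt' m a b (‖x‖ ^ 2) / I * (2 * x i) * (2 * x j) +
            -w / I * (2 * if i = j then 1 else 0))| ≤ M * w ^ (1 - ε) := by
          have f1 : |x i| * |x j| ≤ b := by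
            calc |x i| * |x j| ≤ ‖x‖ * ‖x‖ :=
                  mul_le_mul (abs_coord_le x i) (abs_coord_le x j) (abs_nonneg _) (norm_nonneg x)
              _ = ‖x‖ ^ 2 := by ring
              _ ≤ b := h'.le
          have f2 : |(-wt' m a b (‖x‖ ^ 2) / I * (2 * x i) * (2 * x j))| ≤
              4 * b * (m / (b - a)) / I * w ^ (1 - ε) := by
            have f3 : |(-wt' m a b (‖x‖ ^ 2) / I * (2 * x i) * (2 * x j))| =
                4 / I * |wt' m a b (‖x‖ ^ 2)| * (|x i| * |x j|) := by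
              rw [abs_mul, abs_mul, abs_div, abs_neg, abs_mul, abs_mul, abs_of_pos hIpos,
                abs_of_pos (by norm_num : (0 : ℝ) < 2)]
              ring
            rw [f3]
            calc 4 / I * |wt' m a b (‖x‖ ^ 2)| * (|x i| * |x j|)
                ≤ 4 / I * (m / (b - a) * p ^ (m - 1)) * b := by gcongr
              _ ≤ 4 / I * (m / (b - a) * w ^ (1 - ε)) * b := by
                  have : 0 < b := lt_of_le_of_lt (by positivity) hab
                  gcongr
              _ = _ := by ring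
          have f4 : |(-w / I * (2 * if i = j then (1 : ℝ) else 0))| ≤ 2 / I * w ^ (1 - ε) := by
            have f5 : |(2 * if i = j then (1 : ℝ) else 0)| ≤ 2 := by
              split_ifs <;> norm_num
            rw [abs_mul, abs_div, abs_neg, abs_of_pos hwpos, abs_of_pos hIpos]
            calc w / I * |(2 * if i = j then (1 : ℝ) else 0)| ≤ w / I * 2 := by gcongr
              _ = 2 / I * w := by ring
              _ ≤ 2 / I * w ^ (1 - ε) := by gcongr
          calc _ ≤ |(-wt' m a b (‖x‖ ^ 2) / I * (2 * x i) * (2 * x j))| +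
                |(-w / I * (2 * if i = j then (1 : ℝ) else 0))| := abs_add_le _ _
            _ ≤ 4 * b * (m / (b - a)) / I * w ^ (1 - ε) + 2 / I * w ^ (1 - ε) :=
                add_le_add f2 f4
            _ = _ := by rw [hM]; ring
        refine e4.trans ?_
        have hx0 : 0 ≤ (2 * (w / I) * ‖x‖) ^ (1 - ε) := by positivity
        calc M * w ^ (1 - ε) = M / c * (c * w ^ (1 - ε)) := by
              field_simp
          _ ≤ M / c * (2 * (w / I) * ‖x‖) ^ (1 - ε) := by gcongr
          _ ≤ (2 * (1 / I) * r₂ + M / c) * (2 * (w / I) * ‖x‖) ^ (1 - ε) := by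
              apply mul_le_mul_of_nonneg_right _ hx0
              linarith

end Pool.Agent.PFlow
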