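import Pool.Agent.PFlow.StmtsK

/-!
# The divergence of the regularised field along the gradient of a function
-/

open MeasureTheory Filter Topology
open scoped ContDiff

namespace Pool.Agent.PFlow

open Pool.Agent.PenroseSph

namespace KDIV

/-- A covector in terms of the standard basis. -/
theorem vec_eq (p : Cov) : vec p = ∑ j, p j • EuclideanSpace.single j (1 : ℝ) := by
  ext k
  simp [Pi.single_apply]

/-- The coordinate derivatives of a function of class `C²` are differentiable. -/
theorem pd_diff {f : E3 → ℝ} {x : E3} (hf : ContDiffAt ℝ 2 f x) (j : Fin 3) :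
    DifferentiableAt ℝ (pd j f) x := by
  have h1 : ContDiffAt ℝ 1 (fderiv ℝ f) x := hf.fderiv_right (by norm_num)
  have h2 : DifferentiableAt ℝ (fderiv ℝ f) x := h1.differentiableAt (by norm_num)
  exact h2.clm_apply (differentiableAt_const _)

/-- The derivative of the gradient. -/
theorem hasFDerivAt_vec {f : E3 → ℝ} {x : E3} (hf : ContDiffAt ℝ 2 f x) :
    HasFDerivAt (fun y => vec (grad f y))
      (∑ j, (fderiv ℝ (pd j f) x).smulRight (EuclideanSpace.single j (1 : ℝ))) x := by
  have h1 : (fun y => vec (grad f y)) =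
      fun y => ∑ j, pd j f y • EuclideanSpace.single j (1 : ℝ) := by
    funext y
    exact vec_eq _
  rw [h1]
  exact HasFDerivAt.fun_sum fun j _ => (pd_diff hf j).hasFDerivAt.smul_const _

/-- The chain rule. -/
theorem chain {Φ : E3 × E3 → ℝ} (hΦ : Differentiable ℝ Φ) {f : E3 → ℝ} {x : E3}
    (hf : ContDiffAt ℝ 2 f x) (i : Fin 3) :
    pd i (fun y => Φ (y, vec (grad f y))) x =
      pd i (fun y => Φ (y, vec (grad f x))) x +
        ∑ j, hess2 f x i j * pd j (fun ξ => Φ (x, ξ)) (vec (grad f x)) := by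
  have hq := (hΦ (x, vec (grad f x))).hasFDerivAt
  set L := fderiv ℝ Φ (x, vec (grad f x)) with hL
  -- the left hand side
  have h1 : HasFDerivAt (fun y => Φ (y, vec (grad f y))) (L.comp
      ((ContinuousLinearMap.id ℝ E3).prod
        (∑ j, (fderiv ℝ (pd j f) x).smulRight (EuclideanSpace.single j (1 : ℝ))))) x :=
    HasFDerivAt.comp x (f := fun y => (y, vec (grad f y))) hq
      ((hasFDerivAt_id x).prodMk (hasFDerivAt_vec hf))
  have h2 : HasFDerivAt (fun y => Φ (y, vec (grad f x)))
      (L.comp (ContinuousLinearMap.inl ℝ E3 E3)) x :=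
    HasFDerivAt.comp x (f := fun y => (y, vec (grad f x))) hq
      (hasFDerivAt_prodMk_left x (vec (grad f x)))
  have h3 : HasFDerivAt (fun ξ => Φ (x, ξ))
      (L.comp (ContinuousLinearMap.inr ℝ E3 E3)) (vec (grad f x)) :=
    HasFDerivAt.comp (vec (grad f x)) (f := fun ξ => (x, ξ)) hq
      (hasFDerivAt_prodMk_right x (vec (grad f x)))
  unfold pd
  rw [h1.fderiv, h2.fderiv]
  simp_rw [h3.fderiv]
  have h4 : ((ContinuousLinearMap.id ℝ E3).prod
        (∑ j, (fderiv ℝ (pd j f) x).smulRight (EuclideanSpace.single j (1 : ℝ))))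
        (EuclideanSpace.single i 1) =
      ContinuousLinearMap.inl ℝ E3 E3 (EuclideanSpace.single i 1) +
        ∑ j, hess2 f x i j • ContinuousLinearMap.inr ℝ E3 E3 (EuclideanSpace.single j 1) := by
    have h5 : ∀ j, hess2 f x i j = fderiv ℝ (pd j f) x (EuclideanSpace.single i 1) :=
      fun j => rfl
    refine Prod.ext ?_ ?_
    · simp [Prod.fst_sum]
    · simp [Prod.snd_sum, h5]
  rw [ContinuousLinearMap.comp_apply, h4, map_add, map_sum]
  refine congrArg₂ (· + ·) rfl (Finset.sum_congr rfl fun j _ => ?_)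
  rw [map_smul, smul_eq_mul]
  rfl

end KDIV

theorem KDIV_thm (h1 : KSMO) (h2 : KJET) : KDIV := by
  intro ε δ κ g h r hε hε1 hδ hκ hD f x hf
  obtain ⟨hA, -⟩ := h1 ε δ κ g h r hε hε1 hδ hκ hD
  rw [← h2 ε δ κ g h r hε hε1 hδ hκ hD x (grad f x) (hess2 f x), ← Finset.sum_add_distrib]
  refine Finset.sum_congr rfl fun i _ => ?_
  have hΦ : Differentiable ℝ (fun q : E3 × E3 => cA ε δ κ g q.1 q.2 i) :=
    (EuclideanSpace.proj (𝕜 := ℝ) i).differentiable.comp (hA.differentiable (by simp))
  exact KDIV.chain hΦ hf i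

end Pool.Agent.PFlow
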