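import Pool.Agent.PFlow.StmtsK

/-!
# KIDV: derivatives of the inverse metric and of the volume density
-/

open Filter Topology
open scoped ContDiff

namespace Pool.Agent.PFlow

open Pool.Agent.PenroseSph

namespace KIDV

/-- The coordinate vector. -/
noncomputable abbrev ek (k : Fin 3) : E3 := EuclideanSpace.single k 1

lemma pd_eq {f : E3 → ℝ} {f' : E3 →L[ℝ] ℝ} {x : E3} (h : HasFDerivAt f f' x) (k : Fin 3) :
    pd k f x = f' (ek k) := by
  unfold pd
  rw [h.fderiv]

/-- Algebra at a point: `D k a b = ∂_k g_ab`, `G = g⁻¹`. -/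
lemma alg1 (G : Matrix (Fin 3) (Fin 3) ℝ) (D : Fin 3 → Matrix (Fin 3) (Fin 3) ℝ)
    (hG : ∀ i j, G i j = G j i) (hD : ∀ k i j, D k i j = D k j i) (k i j : Fin 3) :
    (G * D k * G) i j = ∑ m, ((1 / 2) * (∑ l, G i l * (D k m l + D m k l - D l k m)) * G m j +
      (1 / 2) * (∑ l, G j l * (D k m l + D m k l - D l k m)) * G i m) := by
  have e1 : ∀ a b, D k a b = (1 / 2) * (D k b a + D b k a - D a k b) +
      (1 / 2) * (D k a b + D a k b - D b k a) := by
    intro a b
    rw [hD k b a]
    ring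
  calc (G * D k * G) i j = ∑ b, ∑ a, G i a * D k a b * G b j := by
        rw [Matrix.mul_apply]
        refine Finset.sum_congr rfl fun b _ => ?_
        rw [Matrix.mul_apply, Finset.sum_mul]
    _ = ∑ b, ∑ a, (G i a * ((1 / 2) * (D k b a + D b k a - D a k b)) * G b j +
          G i a * ((1 / 2) * (D k a b + D a k b - D b k a)) * G b j) := by
        refine Finset.sum_congr rfl fun b _ => Finset.sum_congr rfl fun a _ => ?_
        rw [← add_mul, ← mul_add, ← e1]
    _ = ∑ b, ∑ a, G i a * ((1 / 2) * (D k b a + D b k a - D a k b)) * G b j +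
          ∑ b, ∑ a, G i a * ((1 / 2) * (D k a b + D a k b - D b k a)) * G b j := by
        rw [← Finset.sum_add_distrib]
        exact Finset.sum_congr rfl fun b _ => Finset.sum_add_distrib
    _ = ∑ m, (1 / 2) * (∑ l, G i l * (D k m l + D m k l - D l k m)) * G m j +
          ∑ m, (1 / 2) * (∑ l, G j l * (D k m l + D m k l - D l k m)) * G i m := by
        congr 1
        · refine Finset.sum_congr rfl fun b _ => ?_
          rw [Finset.mul_sum, Finset.sum_mul]
          exact Finset.sum_congr rfl fun a _ => by ring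
        · rw [Finset.sum_comm]
          refine Finset.sum_congr rfl fun b _ => ?_
          rw [Finset.mul_sum, Finset.sum_mul]
          refine Finset.sum_congr rfl fun a _ => ?_
          rw [hG j a]
          ring
    _ = _ := by rw [← Finset.sum_add_distrib]

/-- Algebra at a point: the trace of the Christoffel symbols. -/
lemma alg2 (G : Matrix (Fin 3) (Fin 3) ℝ) (D : Fin 3 → Matrix (Fin 3) (Fin 3) ℝ)
    (hG : ∀ i j, G i j = G j i) (hD : ∀ k i j, D k i j = D k j i) (k : Fin 3) :
    ∑ m, (1 / 2) * (∑ l, G m l * (D m k l + D k m l - D l m k)) =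
      (1 / 2) * ∑ m, ∑ l, G m l * D k m l := by
  rw [← Finset.mul_sum]
  congr 1
  have e1 : ∑ m, ∑ l, G m l * D m k l = ∑ m, ∑ l, G m l * D l m k := by
    rw [Finset.sum_comm]
    refine Finset.sum_congr rfl fun m _ => Finset.sum_congr rfl fun l _ => ?_
    rw [hG l m, hD l k m]
  have e2 : ∑ m, ∑ l, G m l * (D m k l + D k m l - D l m k) =
      ∑ m, ∑ l, G m l * D m k l + ∑ m, ∑ l, G m l * D k m l - ∑ m, ∑ l, G m l * D l m k := by
    rw [← Finset.sum_add_distrib, ← Finset.sum_sub_distrib]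
    refine Finset.sum_congr rfl fun m _ => ?_
    rw [← Finset.sum_add_distrib, ← Finset.sum_sub_distrib]
    exact Finset.sum_congr rfl fun l _ => by ring
  rw [e2, e1]
  ring

/-- The derivative of the determinant. -/
lemma det_pd {g : TensorField} {x : E3} {g' : Fin 3 → Fin 3 → E3 →L[ℝ] ℝ}
    (h : ∀ i j, HasFDerivAt (fun y => g y i j) (g' i j) x) (k : Fin 3) :
    pd k (fun y => (g y).det) x = ∑ a, ∑ b, (g x).adjugate b a * g' a b (ek k) := by
  have h1 := ((((((h 0 0).mul (h 1 1)).mul (h 2 2)).sub (((h 0 0).mul (h 1 2)).mul (h 2 1))).sub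
    (((h 0 1).mul (h 1 0)).mul (h 2 2))).add (((h 0 1).mul (h 1 2)).mul (h 2 0))).add
    (((h 0 2).mul (h 1 0)).mul (h 2 1)) |>.sub (((h 0 2).mul (h 1 1)).mul (h 2 0))
  have h2 : (fun y => (g y).det) = fun y => g y 0 0 * g y 1 1 * g y 2 2 - g y 0 0 * g y 1 2 * g y 2 1
      - g y 0 1 * g y 1 0 * g y 2 2 + g y 0 1 * g y 1 2 * g y 2 0 + g y 0 2 * g y 1 0 * g y 2 1
      - g y 0 2 * g y 1 1 * g y 2 0 := by
    funext y
    rw [Matrix.det_fin_three]
  rw [h2]
  refine (pd_eq h1 k).trans ?_
  simp only [add_apply, sub_apply, smul_apply, smul_eq_mul, Fin.sum_univ_three, Pi.mul_apply]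
  simp only [Matrix.adjugate_fin_three, Matrix.of_apply, Matrix.cons_val_zero,
    Matrix.cons_val_one, Matrix.cons_val]
  ring

end KIDV

open KIDV in
theorem KIDV_thm : KIDV := by
  intro U g hU hg x hx
  have hxU : U ∈ 𝓝 x := hU.mem_nhds hx
  have hdiff : ∀ i j, DifferentiableAt ℝ (fun y => g y i j) x := fun i j =>
    ((hg.smooth i j).contDiffAt hxU).differentiableAt (by simp)
  have hgd : ∀ i j, HasFDerivAt (fun y => g y i j) (fderiv ℝ (fun y => g y i j) x) x := fun i j =>
    (hdiff i j).hasFDerivAt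
  have hsym : ∀ y ∈ U, ∀ i j, g y i j = g y j i := by
    intro y hy i j
    have h1 := (hg.posDef y hy).isHermitian
    have h2 := congrFun (congrFun h1 j) i
    rw [Matrix.conjTranspose_apply] at h2
    simpa using h2
  have hdetpos : ∀ y ∈ U, 0 < (g y).det := fun y hy => (hg.posDef y hy).det_pos
  have hDsym : ∀ k i j, pd k (fun y => g y i j) x = pd k (fun y => g y j i) x := by
    intro k i j
    have h1 : (fun y => g y i j) =ᶠ[𝓝 x] fun y => g y j i := by
      filter_upwards [hxU] with y hy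
      exact hsym y hy i j
    unfold pd
    rw [h1.fderiv_eq]
  -- the determinant
  have hdet : HasFDerivAt (fun y => (g y).det) (fderiv ℝ (fun y => (g y).det) x) x := by
    have h1 : DifferentiableAt ℝ (fun y => (g y).det) x := by
      simp only [Matrix.det_fin_three]
      have := hdiff
      fun_prop
    exact h1.hasFDerivAt
  -- the inverse
  have hinvd : ∀ i j, DifferentiableAt ℝ (fun y => (g y)⁻¹ i j) x := by
    intro i j
    have h1 : (fun y => (g y)⁻¹ i j) = fun y => ((g y).det)⁻¹ * (g y).adjugate i j := by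
      funext y
      rw [Matrix.inv_def, Matrix.smul_apply, Ring.inverse_eq_inv', smul_eq_mul]
    have h2 : DifferentiableAt ℝ (fun y => (g y).adjugate i j) x := by
      simp only [Matrix.adjugate_fin_three]
      have := hdiff
      fin_cases i <;> fin_cases j <;> simp <;> fun_prop
    rw [h1]
    exact (hdet.differentiableAt.inv (hdetpos x hx).ne').mul h2
  have hGd : ∀ i j, HasFDerivAt (fun y => (g y)⁻¹ i j)
      (fderiv ℝ (fun y => (g y)⁻¹ i j) x) x := fun i j => (hinvd i j).hasFDerivAt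
  have hGsym : ∀ i j, (g x)⁻¹ i j = (g x)⁻¹ j i := by
    intro i j
    have h1 : (g x).transpose = g x := by
      ext a b
      exact hsym x hx b a
    have h2 : ((g x)⁻¹).transpose = (g x)⁻¹ := by
      rw [Matrix.transpose_nonsing_inv, h1]
    have h3 := congrFun (congrFun h2 j) i
    exact h3
  have hunit : ∀ y ∈ U, IsUnit (g y).det := fun y hy => (hdetpos y hy).ne'.isUnit
  let D : Fin 3 → Matrix (Fin 3) (Fin 3) ℝ := fun k => Matrix.of fun i j => pd k (fun y => g y i j) x
  let E : Fin 3 → Matrix (Fin 3) (Fin 3) ℝ := fun k =>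
    Matrix.of fun i j => pd k (fun y => (g y)⁻¹ i j) x
  have hEg : ∀ k, E k * g x + (g x)⁻¹ * D k = 0 := by
    intro k
    ext i j
    have h1 : HasFDerivAt (fun y => ∑ m, (g y)⁻¹ i m * g y m j)
        (∑ m, ((g x)⁻¹ i m • fderiv ℝ (fun y => g y m j) x +
          g x m j • fderiv ℝ (fun y => (g y)⁻¹ i m) x)) x :=
      HasFDerivAt.fun_sum fun m _ => (hGd i m).mul (hgd m j)
    have h2 : (fun y => ∑ m, (g y)⁻¹ i m * g y m j) =ᶠ[𝓝 x]
        fun _ => (1 : Matrix (Fin 3) (Fin 3) ℝ) i j := by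
      filter_upwards [hxU] with y hy
      rw [← Matrix.mul_apply, Matrix.nonsing_inv_mul _ (hunit y hy)]
    have h3 : HasFDerivAt (fun y => ∑ m, (g y)⁻¹ i m * g y m j) (0 : E3 →L[ℝ] ℝ) x :=
      (hasFDerivAt_const _ x).congr_of_eventuallyEq h2
    have h4 := congrArg (fun f : E3 →L[ℝ] ℝ => f (ek k)) (h1.unique h3)
    simp only [sum_apply, add_apply, smul_apply, smul_eq_mul, zero_apply] at h4
    rw [Matrix.add_apply, Matrix.mul_apply, Matrix.mul_apply, Matrix.zero_apply, ← h4,
      ← Finset.sum_add_distrib]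
    refine Finset.sum_congr rfl fun m _ => ?_
    change pd k (fun y => (g y)⁻¹ i m) x * g x m j + (g x)⁻¹ i m * pd k (fun y => g y m j) x = _
    unfold pd
    ring
  have hE : ∀ k, E k = -((g x)⁻¹ * D k * (g x)⁻¹) := by
    intro k
    have h1 : E k * g x = -((g x)⁻¹ * D k) := eq_neg_of_add_eq_zero_left (hEg k)
    calc E k = E k * g x * (g x)⁻¹ := by
          rw [mul_assoc, Matrix.mul_nonsing_inv _ (hunit x hx), mul_one]
      _ = _ := by rw [h1, neg_mul]
  have c1 : ∀ i j k, pd k (fun y => (g y)⁻¹ i j) x =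
      -∑ m, (christoffel g i k m x * (g x)⁻¹ m j + christoffel g j k m x * (g x)⁻¹ i m) := by
    intro i j k
    have h1 : pd k (fun y => (g y)⁻¹ i j) x = E k i j := rfl
    rw [h1, hE k, Matrix.neg_apply, alg1 (g x)⁻¹ D hGsym (fun k i j => hDsym k i j) k i j]
    rfl
  have c2 : ∀ k, pd k (volDen g) x = volDen g x * ∑ m, christoffel g m m k x := by
    intro k
    have h1 : HasFDerivAt (volDen g)
        ((1 / (2 * Real.sqrt (g x).det)) • fderiv ℝ (fun y => (g y).det) x) x :=
      hdet.sqrt (hdetpos x hx).ne'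
    have h2 : fderiv ℝ (fun y => (g y).det) x (ek k) =
        ∑ a, ∑ b, (g x).adjugate b a * D k a b := det_pd hgd k
    have h3 : ∀ a b, (g x).adjugate b a = (g x).det * (g x)⁻¹ a b := by
      intro a b
      rw [hGsym a b, Matrix.inv_def, Matrix.smul_apply, Ring.inverse_eq_inv', smul_eq_mul,
        ← mul_assoc, mul_inv_cancel₀ (hdetpos x hx).ne', one_mul]
    have h4 : ∑ m, christoffel g m m k x = (1 / 2) * ∑ m, ∑ l, (g x)⁻¹ m l * D k m l :=
      alg2 (g x)⁻¹ D hGsym (fun k i j => hDsym k i j) k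
    have h5 : ∑ a, ∑ b, (g x).adjugate b a * D k a b =
        (g x).det * ∑ m, ∑ l, (g x)⁻¹ m l * D k m l := by
      rw [Finset.mul_sum]
      refine Finset.sum_congr rfl fun a _ => ?_
      rw [Finset.mul_sum]
      refine Finset.sum_congr rfl fun b _ => ?_
      rw [h3]
      ring
    have h6 : Real.sqrt (g x).det * Real.sqrt (g x).det = (g x).det :=
      Real.mul_self_sqrt (hdetpos x hx).le
    have h7 : Real.sqrt (g x).det ≠ 0 := (Real.sqrt_pos.mpr (hdetpos x hx)).ne'
    rw [pd_eq h1 k, smul_apply, smul_eq_mul, h2, h5, h4]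
    have h8 : volDen g x = Real.sqrt (g x).det := rfl
    rw [h8]
    generalize (∑ m, ∑ l, (g x)⁻¹ m l * D k m l) = S
    generalize Real.sqrt (g x).det = v at *
    rw [← h6]
    field_simp
  refine ⟨c1, c2, ?_⟩
  intro j
  have hvd : DifferentiableAt ℝ (volDen g) x := (hdet.sqrt (hdetpos x hx).ne').differentiableAt
  have h1 : ∀ i, pd i (fun y => volDen g y * (g y)⁻¹ i j) x =
      pd i (volDen g) x * (g x)⁻¹ i j + volDen g x * pd i (fun y => (g y)⁻¹ i j) x := by
    intro i
    have h2 := hvd.hasFDerivAt.mul (hGd i j)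
    refine (pd_eq h2 i).trans ?_
    rw [add_apply, smul_apply, smul_apply, smul_eq_mul, smul_eq_mul]
    unfold pd
    ring
  have h2 : ∀ i, pd i (fun y => volDen g y * (g y)⁻¹ i j) x = volDen g x *
      ((∑ m, christoffel g m m i x * (g x)⁻¹ i j) - (∑ m, christoffel g i i m x * (g x)⁻¹ m j) -
        ∑ m, (g x)⁻¹ i m * christoffel g j i m x) := by
    intro i
    rw [h1, c2, c1, ← Finset.sum_mul, Finset.sum_add_distrib]
    have h3 : ∑ m, christoffel g j i m x * (g x)⁻¹ i m =
        ∑ m, (g x)⁻¹ i m * christoffel g j i m x :=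
      Finset.sum_congr rfl fun m _ => mul_comm _ _
    rw [h3]
    ring
  rw [Finset.sum_congr rfl fun i _ => h2 i, ← Finset.mul_sum, Finset.sum_sub_distrib,
    Finset.sum_sub_distrib, Finset.sum_comm (f := fun i m => christoffel g m m i x * (g x)⁻¹ i j)]
  ring

end Pool.Agent.PFlow
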