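import Pool.Agent.PFlow.StmtsK

/-!
# KJET: the second order operator in terms of the 2-jet
-/

open scoped ContDiff

namespace Pool.Agent.PFlow

open Pool.Agent.PenroseSph

namespace KJET

/-! ### Partial derivatives -/

lemma pd_mul {f k : E3 → ℝ} {x : E3} (hf : DifferentiableAt ℝ f x)
    (hk : DifferentiableAt ℝ k x) (i : Fin 3) :
    pd i (fun y => f y * k y) x = f x * pd i k x + k x * pd i f x := by
  have h := (hf.hasFDerivAt.mul hk.hasFDerivAt).fderiv
  have h2 : (fun y => f y * k y) = f * k := rfl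
  unfold pd
  rw [h2, h]
  simp

lemma pd_const_mul (c : ℝ) {f : E3 → ℝ} {x : E3} (hf : DifferentiableAt ℝ f x) (i : Fin 3) :
    pd i (fun y => c * f y) x = c * pd i f x := by
  have h := (hf.hasFDerivAt.const_mul c).fderiv
  unfold pd
  rw [h]
  simp

lemma pd_sum {ι : Type} (s : Finset ι) {f : ι → E3 → ℝ} {x : E3}
    (hf : ∀ a ∈ s, DifferentiableAt ℝ (f a) x) (i : Fin 3) :
    pd i (fun y => ∑ a ∈ s, f a y) x = ∑ a ∈ s, pd i (f a) x := by
  have h := (HasFDerivAt.fun_sum fun a ha => (hf a ha).hasFDerivAt).fderiv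
  unfold pd
  rw [h]
  simp

lemma pd_comp {φ : ℝ → ℝ} {φ' : ℝ} {f : E3 → ℝ} {x : E3} (hφ : HasDerivAt φ φ' (f x))
    (hf : DifferentiableAt ℝ f x) (i : Fin 3) :
    pd i (fun y => φ (f y)) x = φ' * pd i f x := by
  have h := (hφ.comp_hasFDerivAt x hf.hasFDerivAt).fderiv
  unfold pd
  have h2 : (fun y => φ (f y)) = φ ∘ f := rfl
  rw [h2, h]
  simp

lemma diff_mul {f k : E3 → ℝ} {x : E3} (hf : DifferentiableAt ℝ f x)
    (hk : DifferentiableAt ℝ k x) : DifferentiableAt ℝ (fun y => f y * k y) x := hf.mul hk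

lemma diff_comp {φ : ℝ → ℝ} {φ' : ℝ} {f : E3 → ℝ} {x : E3} (hφ : HasDerivAt φ φ' (f x))
    (hf : DifferentiableAt ℝ f x) : DifferentiableAt ℝ (fun y => φ (f y)) x :=
  (hφ.comp_hasFDerivAt x hf.hasFDerivAt).differentiableAt

lemma hasFDerivAt_coord (l : Fin 3) (x : E3) :
    HasFDerivAt (fun ξ : E3 => ξ l) (EuclideanSpace.proj l : E3 →L[ℝ] ℝ) x :=
  (EuclideanSpace.proj l : E3 →L[ℝ] ℝ).hasFDerivAt

lemma diff_coord (l : Fin 3) (x : E3) : DifferentiableAt ℝ (fun ξ : E3 => ξ l) x :=
  (hasFDerivAt_coord l x).differentiableAt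

lemma pd_coord (j l : Fin 3) (x : E3) :
    pd j (fun ξ : E3 => ξ l) x = if l = j then 1 else 0 := by
  unfold pd
  rw [(hasFDerivAt_coord l x).fderiv]
  simp

lemma regA_deriv (ε δ κ s : ℝ) (hs : 0 < s + δ ^ 2) :
    HasDerivAt (regA ε δ κ) (regD ε δ s / 2) s := by
  have h1 : HasDerivAt (fun t : ℝ => t + δ ^ 2) 1 s := (hasDerivAt_id s).add_const _
  have h2 := (h1.rpow_const (p := (ε - 1) / 2) (Or.inl hs.ne')).add_const κ
  have h3 : regD ε δ s / 2 = 1 * ((ε - 1) / 2) * (s + δ ^ 2) ^ ((ε - 1) / 2 - 1) := by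
    unfold regD
    rw [show (ε - 1) / 2 - 1 = (ε - 3) / 2 by ring]
    ring
  rw [h3]
  exact h2

lemma lsq_nonneg {g : TensorField} {x : E3} (hg : (g x).PosDef) (p : Cov) : 0 ≤ lsq g x p := by
  have h := hg.inv.posSemidef.dotProduct_mulVec_nonneg p
  have h2 : star p ⬝ᵥ ((g x)⁻¹.mulVec p) = lsq g x p := by
    simp only [lsq, ev, dotProduct, Matrix.mulVec, Pi.star_apply, star_trivial, Finset.mul_sum]
    refine Finset.sum_congr rfl fun i _ => Finset.sum_congr rfl fun j _ => ?_
    ring
  rwa [h2] at h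

lemma inv_symm {g : TensorField} {x : E3} (hg : (g x).PosDef) (i j : Fin 3) :
    (g x)⁻¹ i j = (g x)⁻¹ j i := by
  have h := hg.inv.isHermitian.apply i j
  simpa using h.symm

end KJET

open KJET in
theorem KJET_thm (h1 : KSM) (h2 : KIDV) : KJET := by
  intro ε δ κ g h r _ _ hδ _ hd x p M
  obtain ⟨hG, hV, -⟩ := h1 g h r hd
  obtain ⟨hI, -, hD⟩ := h2 Set.univ g isOpen_univ hd.met x (Set.mem_univ x)
  have hpd : (g x).PosDef := hd.met.posDef x (Set.mem_univ x)
  have hs0 : 0 < lsq g x p + δ ^ 2 := by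
    have := lsq_nonneg hpd p
    positivity
  have hGd : ∀ i j, DifferentiableAt ℝ (fun y => (g y)⁻¹ i j) x := fun i j =>
    ((hG i j).differentiable (by simp)) x
  have hVd : DifferentiableAt ℝ (volDen g) x := (hV.differentiable (by simp)) x
  have hsy : ∀ i j, (g x)⁻¹ i j = (g x)⁻¹ j i := inv_symm hpd
  -- the derivatives in x
  have hVG : ∀ i j, DifferentiableAt ℝ (fun y => volDen g y * (g y)⁻¹ i j) x := fun i j =>
    hVd.mul (hGd i j)
  have hSd : DifferentiableAt ℝ (fun y => lsq g y p) x := by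
    unfold lsq ev
    exact DifferentiableAt.fun_sum fun i _ => DifferentiableAt.fun_sum fun j _ =>
      ((hGd i j).mul_const _).mul_const _
  have hS : ∀ i, pd i (fun y => lsq g y p) x =
      -(2 * ∑ m, ∑ k, christoffel g k i m x * p k * raise g x p m) := by
    intro i
    have e1 : (fun y => lsq g y p) = fun y => ∑ k, ∑ l, (p k * p l) * (g y)⁻¹ k l := by
      funext y
      unfold lsq ev
      refine Finset.sum_congr rfl fun k _ => Finset.sum_congr rfl fun l _ => ?_
      ring
    rw [e1, pd_sum _ (fun k _ => DifferentiableAt.fun_sum fun l _ => (hGd k l).const_mul _)]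
    have e2 : ∀ k, pd i (fun y => ∑ l, (p k * p l) * (g y)⁻¹ k l) x =
        ∑ l, (p k * p l) * -∑ m, (christoffel g k i m x * (g x)⁻¹ m l +
          christoffel g l i m x * (g x)⁻¹ k m) := by
      intro k
      rw [pd_sum _ (fun l _ => (hGd k l).const_mul _)]
      refine Finset.sum_congr rfl fun l _ => ?_
      rw [pd_const_mul _ (hGd k l), hI]
    rw [Finset.sum_congr rfl fun k _ => e2 k]
    have s10 := hsy 1 0
    have s20 := hsy 2 0
    have s21 := hsy 2 1
    simp only [raise, Fin.sum_univ_three, s10, s20, s21]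
    ring
  have hF : ∀ i, pd i (fun y => cA ε δ κ g y (vec p) i) x =
      regA ε δ κ (lsq g x p) * ∑ j, p j * pd i (fun y => volDen g y * (g y)⁻¹ i j) x +
      (volDen g x * raise g x p i) * (regD ε δ (lsq g x p) / 2 * pd i (fun y => lsq g y p) x) := by
    intro i
    have e1 : (fun y => cA ε δ κ g y (vec p) i) = fun y => regA ε δ κ (lsq g y p) *
        ∑ j, p j * (volDen g y * (g y)⁻¹ i j) := by
      funext y
      show volDen g y * regA ε δ κ (lsq g y p) * raise g y p i = _
      unfold raise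
      rw [Finset.mul_sum, Finset.mul_sum]
      refine Finset.sum_congr rfl fun j _ => ?_
      ring
    have hsum : DifferentiableAt ℝ (fun y => ∑ j, p j * (volDen g y * (g y)⁻¹ i j)) x :=
      DifferentiableAt.fun_sum fun j _ => (hVG i j).const_mul _
    have hφ := regA_deriv ε δ κ (lsq g x p) hs0
    have hcomp : DifferentiableAt ℝ (fun y => regA ε δ κ (lsq g y p)) x :=
      diff_comp (f := fun y => lsq g y p) hφ hSd
    rw [e1, pd_mul hcomp hsum, pd_comp (f := fun y => lsq g y p) hφ hSd, pd_sum _ (fun j _ => (hVG i j).const_mul _)]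
    congr 1
    · congr 1
      exact Finset.sum_congr rfl fun j _ => pd_const_mul _ (hVG i j) i
    · congr 1
      unfold raise
      rw [Finset.mul_sum]
      refine Finset.sum_congr rfl fun j _ => ?_
      ring
  -- the derivatives in ξ
  have hlin : ∀ i, DifferentiableAt ℝ (fun ξ : E3 => volDen g x * raise g x ξ i) (vec p) := by
    intro i
    unfold raise
    exact (DifferentiableAt.fun_sum fun l _ => (diff_coord l _).const_mul _).const_mul _
  have hraise : ∀ i j, pd j (fun ξ : E3 => volDen g x * raise g x ξ i) (vec p) =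
      volDen g x * (g x)⁻¹ i j := by
    intro i j
    have hr : DifferentiableAt ℝ (fun ξ : E3 => raise g x ξ i) (vec p) := by
      unfold raise
      exact DifferentiableAt.fun_sum fun l _ => (diff_coord l _).const_mul _
    rw [pd_const_mul _ hr]
    congr 1
    unfold raise
    rw [pd_sum _ (fun l _ => (diff_coord l _).const_mul _)]
    have e2 : ∀ l, pd j (fun ξ : E3 => (g x)⁻¹ i l * ξ l) (vec p) =
        (g x)⁻¹ i l * if l = j then 1 else 0 := by
      intro l
      rw [pd_const_mul _ (diff_coord l _), pd_coord]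
    rw [Finset.sum_congr rfl fun l _ => e2 l]
    simp
  have hlsd : DifferentiableAt ℝ (fun ξ : E3 => lsq g x ξ) (vec p) := by
    unfold lsq ev
    exact DifferentiableAt.fun_sum fun k _ => DifferentiableAt.fun_sum fun l _ =>
      ((diff_coord k _).const_mul _).mul (diff_coord l _)
  have hd2 : ∀ k l, DifferentiableAt ℝ (fun ξ : E3 => (g x)⁻¹ k l * ξ k * ξ l) (vec p) :=
    fun k l => diff_mul ((diff_coord k _).const_mul _) (diff_coord l _)
  have hls : ∀ j, pd j (fun ξ : E3 => lsq g x ξ) (vec p) = 2 * raise g x p j := by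
    intro j
    unfold lsq ev
    rw [pd_sum _ (fun k _ => DifferentiableAt.fun_sum fun l _ => hd2 k l)]
    have e2 : ∀ k, pd j (fun ξ : E3 => ∑ l, (g x)⁻¹ k l * ξ k * ξ l) (vec p) =
        ∑ l, ((g x)⁻¹ k l * p k * (if l = j then 1 else 0) +
          p l * ((g x)⁻¹ k l * if k = j then 1 else 0)) := by
      intro k
      rw [pd_sum _ (fun l _ => hd2 k l)]
      refine Finset.sum_congr rfl fun l _ => ?_
      rw [pd_mul ((diff_coord k _).const_mul _) (diff_coord l _), pd_coord,
        pd_const_mul _ (diff_coord k _), pd_coord]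
    rw [Finset.sum_congr rfl fun k _ => e2 k]
    have s10 := hsy 1 0
    have s20 := hsy 2 0
    have s21 := hsy 2 1
    fin_cases j <;> simp [raise, Fin.sum_univ_three, s10, s20, s21] <;> ring
  have hXi : ∀ i j, pd j (fun ξ => cA ε δ κ g x ξ i) (vec p) =
      volDen g x * (regA ε δ κ (lsq g x p) * (g x)⁻¹ i j +
        regD ε δ (lsq g x p) * raise g x p i * raise g x p j) := by
    intro i j
    have e1 : (fun ξ : E3 => cA ε δ κ g x ξ i) = fun ξ : E3 => regA ε δ κ (lsq g x ξ) *
        (volDen g x * raise g x ξ i) := by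
      funext ξ
      show volDen g x * regA ε δ κ (lsq g x ξ) * raise g x ξ i = _
      ring
    have hφ := regA_deriv ε δ κ (lsq g x p) hs0
    have hcomp : DifferentiableAt ℝ (fun ξ : E3 => regA ε δ κ (lsq g x ξ)) (vec p) :=
      diff_comp (f := fun ξ : E3 => lsq g x ξ) (x := vec p) hφ hlsd
    rw [e1, pd_mul hcomp (hlin i), hraise,
      pd_comp (f := fun ξ : E3 => lsq g x ξ) (x := vec p) hφ hlsd, hls]
    show regA ε δ κ (lsq g x p) * (volDen g x * (g x)⁻¹ i j) +
      volDen g x * raise g x p i * (regD ε δ (lsq g x p) / 2 * (2 * raise g x p j)) = _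
    ring
  -- the sum
  have hdiv : ∑ i, pd i (fun y => cA ε δ κ g y (vec p) i) x =
      regA ε δ κ (lsq g x p) * ∑ j, p j *
        -(volDen g x * ∑ k, ∑ l, (g x)⁻¹ k l * christoffel g j k l x) +
      ∑ i, (volDen g x * raise g x p i) * (regD ε δ (lsq g x p) / 2 *
        -(2 * ∑ m, ∑ k, christoffel g k i m x * p k * raise g x p m)) := by
    rw [Finset.sum_congr rfl fun i _ => hF i, Finset.sum_add_distrib, ← Finset.mul_sum,
      Finset.sum_comm]
    congr 1
    · congr 1
      refine Finset.sum_congr rfl fun j _ => ?_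
      rw [← Finset.mul_sum, hD]
    · exact Finset.sum_congr rfl fun i _ => by rw [hS]
  rw [hdiv]
  simp only [hXi]
  unfold opL trg cHess ev
  simp only [Matrix.of_apply]
  generalize regA ε δ κ (lsq g x p) = α
  generalize regD ε δ (lsq g x p) = β
  generalize volDen g x = V
  generalize raise g x p = u
  simp only [Fin.sum_univ_three]
  ring

end Pool.Agent.PFlow
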