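import Pool.Agent.PFlow.StmtsK

/-!
# KLIM: growth and convergence of the coefficients
-/

open MeasureTheory Filter Topology
open scoped ContDiff

namespace Pool.Agent.PFlow

open Pool.Agent.PenroseSph

namespace KLIM

lemma cA_eq (ε δ κ : ℝ) (g : TensorField) (x ξ : E3) :
    cA ε δ κ g x ξ = (volDen g x * regA ε δ κ (lsq g x ξ)) • vec (raise g x ξ) := by
  ext i
  simp [cA, vec]

lemma cA0_eq (ε : ℝ) (g : TensorField) (x ξ : E3) :
    cA0 ε g x ξ = (volDen g x * len g x ξ ^ (ε - 1)) • vec (raise g x ξ) := by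
  ext i
  simp [cA0, vec]

lemma vol_nonneg (g : TensorField) (x : E3) : 0 ≤ volDen g x := Real.sqrt_nonneg _

lemma abs_le_vec (p : Cov) (i : Fin 3) : |p i| ≤ ‖vec p‖ := by
  have h := PiLp.norm_apply_le (vec p) i
  simpa [vec] using h

lemma vec_coe (ξ : E3) : vec ξ = ξ := rfl

/-- bound of a bilinear form -/
lemma ev_bound {B : Bil} {C : ℝ} (hB : ∀ i j, |B i j| ≤ C) (v : Cov) :
    |ev B v v| ≤ 9 * C * ‖vec v‖ ^ 2 := by
  have hC : 0 ≤ C := (abs_nonneg _).trans (hB 0 0)
  unfold ev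
  have h1 : ∀ i j, |B i j * v i * v j| ≤ C * ‖vec v‖ ^ 2 := by
    intro i j
    rw [abs_mul, abs_mul, mul_assoc, sq]
    exact mul_le_mul (hB i j) (mul_le_mul (abs_le_vec v i) (abs_le_vec v j) (abs_nonneg _)
      (norm_nonneg _)) (by positivity) hC
  calc |∑ i, ∑ j, B i j * v i * v j| ≤ ∑ i, |∑ j, B i j * v i * v j| :=
        Finset.abs_sum_le_sum_abs _ _
    _ ≤ ∑ i : Fin 3, ∑ j : Fin 3, |B i j * v i * v j| :=
        Finset.sum_le_sum fun i _ => Finset.abs_sum_le_sum_abs _ _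
    _ ≤ ∑ _i : Fin 3, ∑ _j : Fin 3, C * ‖vec v‖ ^ 2 :=
        Finset.sum_le_sum fun i _ => Finset.sum_le_sum fun j _ => h1 i j
    _ = 9 * C * ‖vec v‖ ^ 2 := by
        simp only [Finset.sum_const, Finset.card_univ, Fintype.card_fin, nsmul_eq_mul]
        push_cast
        ring

/-- the power of the regularised length -/
lemma rpow_bound {C s t δ q : ℝ} (hC : 1 ≤ C) (ht : 0 < t) (hst : t ^ 2 ≤ C * s) (hq : q ≤ 0)
    (hq2 : -1 ≤ q) : (s + δ ^ 2) ^ q ≤ C * t ^ (2 * q) := by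
  have hC0 : 0 < C := by linarith
  have hs : t ^ 2 / C ≤ s + δ ^ 2 := by
    rw [div_le_iff₀ hC0]
    nlinarith [mul_nonneg hC0.le (sq_nonneg δ)]
  have h0 : 0 < t ^ 2 / C := by positivity
  calc (s + δ ^ 2) ^ q ≤ (t ^ 2 / C) ^ q := Real.rpow_le_rpow_of_nonpos h0 hs hq
    _ = t ^ (2 * q) * C ^ (-q) := by
        rw [Real.div_rpow (by positivity) hC0.le, Real.rpow_neg hC0.le, div_eq_mul_inv]
        congr 1
        rw [Real.rpow_mul ht.le]
        norm_num
    _ ≤ t ^ (2 * q) * C := by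
        refine mul_le_mul_of_nonneg_left ?_ (Real.rpow_nonneg ht.le _)
        calc C ^ (-q) ≤ C ^ (1 : ℝ) := Real.rpow_le_rpow_of_exponent_le hC (by linarith)
          _ = C := Real.rpow_one C
    _ = C * t ^ (2 * q) := mul_comm _ _

lemma raise_zero (g : TensorField) (x : E3) (i : Fin 3) : raise g x ((0 : E3) : Cov) i = 0 := by
  simp [raise]

lemma growth {ε : ℝ} {g h : TensorField} {C : ℝ} (h0 : 0 < ε) (h1 : ε < 1)
    (hC : GBound g h C) (hT : ∀ x, (g x).PosDef) (h2 : KTN) (δ κ : ℝ) (hκ : 0 < κ) (x ξ : E3) :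
    ‖cA ε δ κ g x ξ‖ ≤ (18 * C ^ 5) * (‖ξ‖ ^ ε + κ * ‖ξ‖) ∧
      |cB ε δ g h x ξ| ≤ (18 * C ^ 5) * ‖ξ‖ ^ ε := by
  have c1 := hC.one
  have c0 : 0 < C := by linarith
  have hC3 : C ^ 3 ≤ 18 * C ^ 5 := by
    have : C ^ 3 ≤ C ^ 5 := pow_le_pow_right₀ c1 (by norm_num)
    have : 0 ≤ C ^ 5 := by positivity
    linarith
  by_cases hξ : ξ = 0
  · rw [hξ]
    have e1 : cA ε δ κ g x 0 = 0 := by
      rw [cA_eq]
      have e3 : (vec (raise g x ((0 : E3) : Cov)) : E3) = 0 := by
        ext i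
        simp [vec, raise]
      rw [e3, smul_zero]
    have e2 : cB ε δ g h x 0 = 0 := by
      have : lsq g x ((0 : E3) : Cov) = 0 := by simp [lsq, ev]
      unfold cB
      rw [this]
      have : ev (h x) (raise g x ((0 : E3) : Cov)) (raise g x ((0 : E3) : Cov)) = 0 := by
        unfold ev
        refine Finset.sum_eq_zero fun i _ => Finset.sum_eq_zero fun j _ => ?_
        rw [raise_zero]
        ring
      rw [this]
      ring
    rw [e1, e2, norm_zero, abs_zero, Real.zero_rpow h0.ne']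
    constructor <;> simp
  · have hn : 0 < ‖ξ‖ := norm_pos_iff.mpr hξ
    have hlow : ‖ξ‖ ^ 2 ≤ C * lsq g x ξ := hC.low x ξ
    have hup : lsq g x ξ ≤ C * ‖ξ‖ ^ 2 := hC.up x ξ
    have hs : 0 ≤ lsq g x ξ := (h2 g x (hT x) ξ).1
    have hr : ‖vec (raise g x ξ)‖ ≤ C * ‖ξ‖ := hC.raise x ξ
    have hv := hC.volUp x
    have hv0 := vol_nonneg g x
    constructor
    · rw [cA_eq, norm_smul, Real.norm_eq_abs]
      have hb := rpow_bound (δ := δ) c1 hn hlow (q := (ε - 1) / 2) (by linarith) (by linarith)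
      have hb' : 2 * ((ε - 1) / 2) = ε - 1 := by ring
      rw [hb'] at hb
      have hreg0 : 0 ≤ regA ε δ κ (lsq g x ξ) := by
        unfold regA
        have : 0 ≤ (lsq g x ξ + δ ^ 2) ^ ((ε - 1) / 2) := Real.rpow_nonneg (by positivity) _
        linarith
      rw [abs_of_nonneg (mul_nonneg hv0 hreg0)]
      have hreg : regA ε δ κ (lsq g x ξ) ≤ C * ‖ξ‖ ^ (ε - 1) + κ := by
        unfold regA
        linarith
      have hpow : ‖ξ‖ ^ (ε - 1) * ‖ξ‖ = ‖ξ‖ ^ ε := by
        rw [Real.rpow_sub_one hn.ne']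
        field_simp
      calc volDen g x * regA ε δ κ (lsq g x ξ) * ‖vec (raise g x ξ)‖
          ≤ C * (C * ‖ξ‖ ^ (ε - 1) + κ) * (C * ‖ξ‖) := by
            refine mul_le_mul (mul_le_mul hv hreg hreg0 c0.le) hr (norm_nonneg _) ?_
            have : 0 ≤ ‖ξ‖ ^ (ε - 1) := Real.rpow_nonneg hn.le _
            positivity
        _ = C ^ 3 * (‖ξ‖ ^ (ε - 1) * ‖ξ‖) + C ^ 2 * (κ * ‖ξ‖) := by ring
        _ ≤ C ^ 3 * (‖ξ‖ ^ (ε - 1) * ‖ξ‖) + C ^ 3 * (κ * ‖ξ‖) := by
            have : C ^ 2 ≤ C ^ 3 := pow_le_pow_right₀ c1 (by norm_num)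
            have h3 : 0 ≤ κ * ‖ξ‖ := by positivity
            have := mul_le_mul_of_nonneg_right this h3
            linarith
        _ = C ^ 3 * (‖ξ‖ ^ ε + κ * ‖ξ‖) := by rw [hpow]; ring
        _ ≤ (18 * C ^ 5) * (‖ξ‖ ^ ε + κ * ‖ξ‖) := by
            refine mul_le_mul_of_nonneg_right hC3 ?_
            have : 0 ≤ ‖ξ‖ ^ ε := Real.rpow_nonneg hn.le _
            positivity
    · have hb := rpow_bound (δ := δ) c1 hn hlow (q := (ε - 2) / 2) (by linarith) (by linarith)
      have hb' : 2 * ((ε - 2) / 2) = ε - 2 := by ring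
      rw [hb'] at hb
      have hb0 : 0 ≤ (lsq g x ξ + δ ^ 2) ^ ((ε - 2) / 2) := Real.rpow_nonneg (by positivity) _
      have htr : |trg g x (h x)| ≤ 9 * C ^ 2 := by
        refine (hC.tr x (h x)).trans ?_
        have h3 : ∑ i : Fin 3, ∑ j : Fin 3, |h x i j| ≤ ∑ _i : Fin 3, ∑ _j : Fin 3, C :=
          Finset.sum_le_sum fun i _ => Finset.sum_le_sum fun j _ => hC.hh x i j
        have h4 : ∑ _i : Fin 3, ∑ _j : Fin 3, C = 9 * C := by
          simp only [Finset.sum_const, Finset.card_univ, Fintype.card_fin, nsmul_eq_mul]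
          push_cast
          ring
        rw [h4] at h3
        calc C * ∑ i : Fin 3, ∑ j : Fin 3, |h x i j| ≤ C * (9 * C) :=
              mul_le_mul_of_nonneg_left h3 c0.le
          _ = 9 * C ^ 2 := by ring
      have hev : |ev (h x) (raise g x ξ) (raise g x ξ)| ≤ 9 * C ^ 3 * ‖ξ‖ ^ 2 := by
        refine (ev_bound (hC.hh x) _).trans ?_
        calc 9 * C * ‖vec (raise g x ξ)‖ ^ 2 ≤ 9 * C * (C * ‖ξ‖) ^ 2 := by
              refine mul_le_mul_of_nonneg_left ?_ (by positivity)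
              exact pow_le_pow_left₀ (norm_nonneg _) hr 2
          _ = 9 * C ^ 3 * ‖ξ‖ ^ 2 := by ring
      have hin : |lsq g x ξ * trg g x (h x) -
          (1 - ε) * ev (h x) (raise g x ξ) (raise g x ξ)| ≤ 18 * C ^ 3 * ‖ξ‖ ^ 2 := by
        calc |lsq g x ξ * trg g x (h x) - (1 - ε) * ev (h x) (raise g x ξ) (raise g x ξ)|
            ≤ |lsq g x ξ * trg g x (h x)| +
              |(1 - ε) * ev (h x) (raise g x ξ) (raise g x ξ)| := abs_sub _ _
          _ ≤ C * ‖ξ‖ ^ 2 * (9 * C ^ 2) + 1 * (9 * C ^ 3 * ‖ξ‖ ^ 2) := by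
              rw [abs_mul, abs_mul, abs_of_nonneg hs]
              refine add_le_add ?_ ?_
              · exact mul_le_mul hup htr (abs_nonneg _) (by positivity)
              · refine mul_le_mul ?_ hev (abs_nonneg _) (by norm_num)
                rw [abs_of_nonneg (by linarith)]
                linarith
          _ = 18 * C ^ 3 * ‖ξ‖ ^ 2 := by ring
      have hpow : ‖ξ‖ ^ (ε - 2) * ‖ξ‖ ^ 2 = ‖ξ‖ ^ ε := by
        rw [Real.rpow_sub hn]
        norm_num
        field_simp
      unfold cB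
      rw [abs_mul, abs_mul, abs_of_nonneg hv0, abs_of_nonneg hb0]
      calc volDen g x * (lsq g x ξ + δ ^ 2) ^ ((ε - 2) / 2) *
            |lsq g x ξ * trg g x (h x) - (1 - ε) * ev (h x) (raise g x ξ) (raise g x ξ)|
          ≤ C * (C * ‖ξ‖ ^ (ε - 2)) * (18 * C ^ 3 * ‖ξ‖ ^ 2) := by
            refine mul_le_mul (mul_le_mul hv hb hb0 c0.le) hin (abs_nonneg _) ?_
            have : 0 ≤ ‖ξ‖ ^ (ε - 2) := Real.rpow_nonneg hn.le _
            positivity
        _ = 18 * C ^ 5 * (‖ξ‖ ^ (ε - 2) * ‖ξ‖ ^ 2) := by ring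
        _ = 18 * C ^ 5 * ‖ξ‖ ^ ε := by rw [hpow]

lemma raise_cont (g : TensorField) (x : E3) (i : Fin 3) :
    Continuous (fun ξ : E3 => raise g x ξ i) := by
  unfold raise
  fun_prop

lemma lsq_cont (g : TensorField) (x : E3) : Continuous (fun ξ : E3 => lsq g x ξ) := by
  unfold lsq ev
  fun_prop

lemma evr_cont (g h : TensorField) (x : E3) :
    Continuous (fun ξ : E3 => ev (h x) (raise g x ξ) (raise g x ξ)) := by
  unfold ev
  refine continuous_finset_sum _ fun i _ => continuous_finset_sum _ fun j _ => ?_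
  exact (continuous_const.mul (raise_cont g x i)).mul (raise_cont g x j)

lemma vec_cont (g : TensorField) (x : E3) :
    Continuous (fun ξ : E3 => (vec (raise g x ξ) : E3)) := by
  refine (PiLp.continuous_toLp 2 _).comp ?_
  exact continuous_pi fun i => raise_cont g x i

end KLIM

open KLIM in
/-- KLIM: growth and convergence of the coefficients. -/
theorem KLIM_thm (h1 : KBND) (h2 : KTN) : KLIM := by
  intro ε g h r hε0 hε1 hG
  obtain ⟨C, hC⟩ := h1 g h r hG
  have c1 := hC.one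
  have hT : ∀ x, (g x).PosDef := fun x => hG.met.posDef x trivial
  refine ⟨⟨18 * C ^ 5, by positivity, ?_⟩, ?_⟩
  · intro δ κ _ _ hκ _ x ξ
    exact growth hε0 hε1 hC hT h2 δ κ hκ x ξ
  · intro x δ κ ξ ξ₀ hδ hκ hδ0 hκ0 hξ
    by_cases h0 : ξ₀ = 0
    · rw [h0] at hξ ⊢
      have hn : Tendsto (fun n => ‖ξ n‖) atTop (𝓝 0) := by
        have := hξ.norm
        rwa [norm_zero] at this
      have hn2 : Tendsto (fun n => ‖ξ n‖ ^ ε) atTop (𝓝 0) := by
        have := hn.rpow_const (p := ε) (Or.inr hε0.le)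
        rwa [Real.zero_rpow hε0.ne'] at this
      have e1 : cA0 ε g x 0 = 0 := by
        rw [cA0_eq]
        have e3 : (vec (raise g x ((0 : E3) : Cov)) : E3) = 0 := by
          ext i
          simp [vec, raise]
        rw [e3, smul_zero]
      have e2 : cB0 ε g h x 0 = 0 := by
        have : len g x ((0 : E3) : Cov) = 0 := by simp [len, ev]
        unfold cB0
        rw [this, Real.zero_rpow hε0.ne']
        ring
      rw [e1, e2]
      constructor
      · rw [tendsto_zero_iff_norm_tendsto_zero]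
        refine squeeze_zero (fun n => norm_nonneg _)
          (fun n => (growth hε0 hε1 hC hT h2 (δ n) (κ n) (hκ n) x (ξ n)).1) ?_
        have := ((hn2.add (hκ0.mul hn)).const_mul (18 * C ^ 5))
        simpa using this
      · rw [tendsto_zero_iff_norm_tendsto_zero]
        refine squeeze_zero (fun n => norm_nonneg _)
          (fun n => (growth hε0 hε1 hC hT h2 (δ n) (κ n) (hκ n) x (ξ n)).2) ?_
        have := hn2.const_mul (18 * C ^ 5)
        simpa using this
    · have hp0 : (ξ₀ : Cov) ≠ 0 := by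
        intro h3
        apply h0
        ext i
        exact congrFun h3 i
      obtain ⟨k1, k2, k3, _, _, _, _, k8⟩ := h2 g x (hT x) (ξ₀ : Cov)
      have hs0 := k2 hp0
      have hs : Tendsto (fun n => lsq g x (ξ n)) atTop (𝓝 (lsq g x ξ₀)) :=
        ((lsq_cont g x).tendsto ξ₀).comp hξ
      have hsd : Tendsto (fun n => lsq g x (ξ n) + δ n ^ 2) atTop (𝓝 (lsq g x ξ₀)) := by
        have := hs.add (hδ0.pow 2)
        simpa using this
      have hpow : ∀ q : ℝ, Tendsto (fun n => (lsq g x (ξ n) + δ n ^ 2) ^ q) atTop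
          (𝓝 (lsq g x ξ₀ ^ q)) := fun q => hsd.rpow_const (Or.inl hs0.ne')
      have hlen : len g x ξ₀ = lsq g x ξ₀ ^ (1 / 2 : ℝ) := by
        unfold len lsq
        rw [Real.sqrt_eq_rpow]
      constructor
      · have e1 : (fun n => cA ε (δ n) (κ n) g x (ξ n)) = fun n =>
            (volDen g x * regA ε (δ n) (κ n) (lsq g x (ξ n))) • vec (raise g x (ξ n)) := by
          funext n
          exact cA_eq _ _ _ _ _ _
        rw [e1, cA0_eq]
        have hreg : Tendsto (fun n => regA ε (δ n) (κ n) (lsq g x (ξ n))) atTop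
            (𝓝 (len g x ξ₀ ^ (ε - 1))) := by
          have e2 : len g x ξ₀ ^ (ε - 1) = lsq g x ξ₀ ^ ((ε - 1) / 2) + 0 := by
            rw [hlen, ← Real.rpow_mul hs0.le, add_zero]
            congr 1
            ring
          rw [e2]
          unfold regA
          exact (hpow _).add hκ0
        exact (hreg.const_mul _).smul (((vec_cont g x).tendsto ξ₀).comp hξ)
      · have e2 : cB0 ε g h x ξ₀ = volDen g x * lsq g x ξ₀ ^ ((ε - 2) / 2) *
            (lsq g x ξ₀ * trg g x (h x) -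
              (1 - ε) * ev (h x) (raise g x ξ₀) (raise g x ξ₀)) := by
          unfold cB0 beps
          rw [k8 hp0, hlen, ← Real.rpow_mul hs0.le]
          have e3 : lsq g x ξ₀ ^ (1 / 2 * ε) = lsq g x ξ₀ ^ ((ε - 2) / 2) * lsq g x ξ₀ := by
            rw [← Real.rpow_add_one hs0.ne']
            congr 1
            ring
          rw [e3]
          field_simp
        rw [e2]
        unfold cB
        refine ((hpow _).const_mul _).mul ?_
        refine (hs.mul_const _).sub (Tendsto.const_mul _ ?_)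
        exact ((evr_cont g h x).tendsto ξ₀).comp hξ

end Pool.Agent.PFlow
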