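import Pool.Agent.PFlow.StmtsK

/-!
# KLIMJ: convergence of the second order operator at jets with `p ≠ 0`
-/

open MeasureTheory Filter Topology
open scoped ContDiff

namespace Pool.Agent.PFlow

open Pool.Agent.PenroseSph

namespace KLIMJ

lemma pd_contDiffAt {f : E3 → ℝ} {x : E3} (hf : ContDiffAt ℝ 2 f x) (i : Fin 3) :
    ContDiffAt ℝ 1 (pd i f) x := by
  have h1 : ContDiffAt ℝ 1 (fderiv ℝ f) x := hf.fderiv_right (by norm_num)
  exact h1.clm_apply contDiffAt_const

lemma pd_pd_continuousAt {f : E3 → ℝ} {x : E3} (hf : ContDiffAt ℝ 2 f x) (i j : Fin 3) :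
    ContinuousAt (pd i (pd j f)) x := by
  have h1 : ContDiffAt ℝ 0 (fderiv ℝ (pd j f)) x :=
    (pd_contDiffAt hf j).fderiv_right (by norm_num)
  exact (h1.clm_apply contDiffAt_const).continuousAt

section Cont

variable {Z : Type*} [TopologicalSpace Z] {z₀ : Z}

lemma sum_at {F : Fin 3 → Z → ℝ} (h : ∀ i, ContinuousAt (F i) z₀) :
    ContinuousAt (fun z => ∑ i, F i z) z₀ := tendsto_finsetSum _ fun i _ => h i

lemma ev_at {B : Z → Bil} {v w : Z → Cov} (hB : ∀ i j, ContinuousAt (fun z => B z i j) z₀)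
    (hv : ∀ i, ContinuousAt (fun z => v z i) z₀) (hw : ∀ i, ContinuousAt (fun z => w z i) z₀) :
    ContinuousAt (fun z => ev (B z) (v z) (w z)) z₀ := by
  unfold ev
  exact sum_at fun i => sum_at fun j => ((hB i j).mul (hv i)).mul (hw j)

variable {g : TensorField} {X : Z → E3}

lemma raise_at {p : Z → Cov} (hG : ∀ i j, ContinuousAt (fun z => (g (X z))⁻¹ i j) z₀)
    (hp : ∀ i, ContinuousAt (fun z => p z i) z₀) (i : Fin 3) :
    ContinuousAt (fun z => raise g (X z) (p z) i) z₀ := by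
  unfold raise
  exact sum_at fun j => (hG i j).mul (hp j)

lemma trg_at {B : Z → Bil} (hG : ∀ i j, ContinuousAt (fun z => (g (X z))⁻¹ i j) z₀)
    (hB : ∀ i j, ContinuousAt (fun z => B z i j) z₀) :
    ContinuousAt (fun z => trg g (X z) (B z)) z₀ := by
  unfold trg
  exact sum_at fun i => sum_at fun j => (hG i j).mul (hB i j)

lemma cHess_at {p : Z → Cov} {M : Z → Bil}
    (hC : ∀ k i j, ContinuousAt (fun z => christoffel g k i j (X z)) z₀)
    (hp : ∀ i, ContinuousAt (fun z => p z i) z₀)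
    (hM : ∀ i j, ContinuousAt (fun z => M z i j) z₀) (i j : Fin 3) :
    ContinuousAt (fun z => cHess g (X z) (p z) (M z) i j) z₀ := by
  unfold cHess
  simp only [Matrix.of_apply]
  exact (hM i j).sub (sum_at fun k => (hC k i j).mul (hp k))

lemma bnn_at {p : Z → Cov} {B : Z → Bil}
    (hG : ∀ i j, ContinuousAt (fun z => (g (X z))⁻¹ i j) z₀)
    (hp : ∀ i, ContinuousAt (fun z => p z i) z₀)
    (hB : ∀ i j, ContinuousAt (fun z => B z i j) z₀) (hl : len g (X z₀) (p z₀) ≠ 0) :
    ContinuousAt (fun z => bnn g (X z) (p z) (B z)) z₀ := by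
  have h1 : ContinuousAt (fun z => len g (X z) (p z)) z₀ := by
    unfold len
    exact (ev_at hG hp hp).sqrt
  unfold bnn
  have h2 : ∀ i, ContinuousAt (fun z => nrm g (X z) (p z) i) z₀ := by
    intro i
    unfold nrm
    exact (raise_at hG hp i).div h1 hl
  exact ev_at hB h2 h2

end Cont

/-- The identity at `δ = κ = 0`. -/
lemma value (h1 : KTN) (ε : ℝ) (g h : TensorField) (f : E3 → ℝ) (x : E3)
    (hg : (g x).PosDef) (hp : grad f x ≠ 0) :
    opL ε 0 0 g x (grad f x) (hess2 f x) + cB ε 0 g h x (vec (grad f x)) -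
      volDen g x * len g x (grad f x) ^ (ε - 1) * opN ε g h f x = 0 := by
  obtain ⟨-, hs, hlen, -, -, -, -, hb⟩ := h1 g x hg (grad f x)
  have hs0 := hs hp
  have hl : len g x (grad f x) = Real.sqrt (lsq g x (grad f x)) := rfl
  have e1 : len g x (grad f x) ^ (ε - 1) = lsq g x (grad f x) ^ ((ε - 1) / 2) := by
    rw [hl, Real.sqrt_eq_rpow, ← Real.rpow_mul hs0.le]
    congr 1
    ring
  have e2 : len g x (grad f x) = lsq g x (grad f x) ^ ((1 : ℝ) / 2) := by
    rw [hl, Real.sqrt_eq_rpow]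
  have e3 : lsq g x (grad f x) ^ ((ε - 1) / 2) =
      lsq g x (grad f x) ^ ((ε - 3) / 2) * lsq g x (grad f x) := by
    rw [← Real.rpow_add_one hs0.ne']
    congr 1
    ring
  have e4 : lsq g x (grad f x) ^ ((ε - 1) / 2) * lsq g x (grad f x) ^ ((1 : ℝ) / 2) =
      lsq g x (grad f x) ^ ((ε - 2) / 2) * lsq g x (grad f x) := by
    rw [← Real.rpow_add hs0, ← Real.rpow_add_one hs0.ne']
    congr 1
    ring
  unfold opL cB opN beps regA regD
  simp only
  rw [hb hp, hb hp, e1, e2]
  have hz : (0 : ℝ) ^ 2 = 0 := by norm_num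
  rw [hz, add_zero, add_zero]
  generalize ev (cHess g x (grad f x) (hess2 f x)) (raise g x (grad f x))
    (raise g x (grad f x)) = Q
  generalize trg g x (cHess g x (grad f x) (hess2 f x)) = T
  generalize trg g x (h x) = th
  generalize ev (h x) (raise g x (grad f x)) (raise g x (grad f x)) = q
  generalize volDen g x = V at *
  have hsne := hs0.ne'
  generalize lsq g x (grad f x) = s at *
  have f1 : s ^ ((ε - 1) / 2) * (T - (1 - ε) * (Q / s)) =
      s ^ ((ε - 1) / 2) * T + (ε - 1) * s ^ ((ε - 3) / 2) * Q := by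
    have : s ^ ((ε - 1) / 2) * (Q / s) = s ^ ((ε - 3) / 2) * Q := by
      rw [e3]
      field_simp
    linear_combination (ε - 1) * this
  have f2 : s ^ ((ε - 1) / 2) * (s ^ ((1 : ℝ) / 2) * (th - (1 - ε) * (q / s))) =
      s ^ ((ε - 2) / 2) * (s * th - (1 - ε) * q) := by
    rw [← mul_assoc, e4]
    field_simp
  linear_combination (-V) * f1 - V * f2

end KLIMJ

open KLIMJ in
theorem KLIMJ_thm (h1 : KTN) (h2 : KSM) : KLIMJ := by
  intro ε g h r hε hε1 hG K f hK hf hgrad η hη
  obtain ⟨s1, s2, s3⟩ := h2 g h r hG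
  have hh : ∀ i j, Continuous (fun x => h x i j) := fun i j =>
    (contDiffOn_univ.1 (hG.ten.smooth i j)).continuous
  have hev : ∀ y ∈ K, ∀ᶠ z : (ℝ × ℝ) × E3 in 𝓝 (((0 : ℝ), (0 : ℝ)), y),
      |opL ε z.1.1 z.1.2 g z.2 (grad f z.2) (hess2 f z.2) +
        cB ε z.1.1 g h z.2 (vec (grad f z.2)) -
        volDen g z.2 * len g z.2 (grad f z.2) ^ (ε - 1) * opN ε g h f z.2| ≤ η := by
    intro y hy
    have hpos := hG.met.posDef y (Set.mem_univ y)
    have hs : 0 < lsq g y (grad f y) := (h1 g y hpos (grad f y)).2.1 (hgrad y hy)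
    have hlen : len g y (grad f y) ≠ 0 := (Real.sqrt_pos.mpr hs).ne'
    have cG : ∀ i j, ContinuousAt (fun z : (ℝ × ℝ) × E3 => (g z.2)⁻¹ i j) ((0, 0), y) :=
      fun i j => ((s1 i j).continuous.comp continuous_snd).continuousAt
    have cC : ∀ k i j, ContinuousAt (fun z : (ℝ × ℝ) × E3 => christoffel g k i j z.2)
        ((0, 0), y) := fun k i j => ((s3 k i j).continuous.comp continuous_snd).continuousAt
    have cV : ContinuousAt (fun z : (ℝ × ℝ) × E3 => volDen g z.2) ((0, 0), y) :=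
      (s2.continuous.comp continuous_snd).continuousAt
    have ch : ∀ i j, ContinuousAt (fun z : (ℝ × ℝ) × E3 => h z.2 i j) ((0, 0), y) :=
      fun i j => ((hh i j).comp continuous_snd).continuousAt
    have cp : ∀ i, ContinuousAt (fun z : (ℝ × ℝ) × E3 => grad f z.2 i) ((0, 0), y) := by
      intro i
      exact ContinuousAt.comp (g := pd i f) (f := Prod.snd)
        (x := (((0 : ℝ), (0 : ℝ)), y)) (pd_contDiffAt (hf y hy) i).continuousAt continuousAt_snd
    have cM : ∀ i j, ContinuousAt (fun z : (ℝ × ℝ) × E3 => hess2 f z.2 i j) ((0, 0), y) := by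
      intro i j
      exact ContinuousAt.comp (g := pd i (pd j f)) (f := Prod.snd)
        (x := (((0 : ℝ), (0 : ℝ)), y)) (pd_pd_continuousAt (hf y hy) i j) continuousAt_snd
    have cd : ContinuousAt (fun z : (ℝ × ℝ) × E3 => z.1.1) ((0, 0), y) :=
      (continuous_fst.comp continuous_fst).continuousAt
    have ck : ContinuousAt (fun z : (ℝ × ℝ) × E3 => z.1.2) ((0, 0), y) :=
      (continuous_snd.comp continuous_fst).continuousAt
    have cs : ContinuousAt (fun z : (ℝ × ℝ) × E3 => lsq g z.2 (grad f z.2)) ((0, 0), y) := by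
      unfold lsq
      exact ev_at cG cp cp
    have cH := cHess_at cC cp cM
    have cr := raise_at cG cp
    have cT := trg_at cG cH
    have cth := trg_at cG ch
    have cQ := ev_at cH cr cr
    have cq := ev_at ch cr cr
    have csd : ContinuousAt (fun z : (ℝ × ℝ) × E3 => lsq g z.2 (grad f z.2) + z.1.1 ^ 2)
        ((0, 0), y) := cs.add (cd.pow 2)
    have hne : lsq g y (grad f y) + (0 : ℝ) ^ 2 ≠ 0 := by
      have : lsq g y (grad f y) + (0 : ℝ) ^ 2 = lsq g y (grad f y) := by ring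
      rw [this]
      exact hs.ne'
    have cpow : ∀ e : ℝ, ContinuousAt
        (fun z : (ℝ × ℝ) × E3 => (lsq g z.2 (grad f z.2) + z.1.1 ^ 2) ^ e) ((0, 0), y) :=
      fun e => csd.rpow_const (Or.inl hne)
    have cL : ContinuousAt (fun z : (ℝ × ℝ) × E3 =>
        opL ε z.1.1 z.1.2 g z.2 (grad f z.2) (hess2 f z.2)) ((0, 0), y) := by
      unfold opL regA regD
      exact cV.mul ((((cpow _).add ck).mul cT).add ((continuousAt_const.mul (cpow _)).mul cQ))
    have cBc : ContinuousAt (fun z : (ℝ × ℝ) × E3 =>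
        cB ε z.1.1 g h z.2 (vec (grad f z.2))) ((0, 0), y) := by
      unfold cB
      exact (cV.mul (cpow _)).mul ((cs.mul cth).sub (continuousAt_const.mul cq))
    have clen : ContinuousAt (fun z : (ℝ × ℝ) × E3 => len g z.2 (grad f z.2)) ((0, 0), y) := by
      unfold len
      exact (ev_at cG cp cp).sqrt
    have cN : ContinuousAt (fun z : (ℝ × ℝ) × E3 => opN ε g h f z.2) ((0, 0), y) := by
      unfold opN beps
      exact (cT.sub (continuousAt_const.mul (bnn_at cG cp cH hlen))).add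
        (clen.mul (cth.sub (continuousAt_const.mul (bnn_at cG cp ch hlen))))
    have cD : ContinuousAt (fun z : (ℝ × ℝ) × E3 =>
        |opL ε z.1.1 z.1.2 g z.2 (grad f z.2) (hess2 f z.2) +
        cB ε z.1.1 g h z.2 (vec (grad f z.2)) -
        volDen g z.2 * len g z.2 (grad f z.2) ^ (ε - 1) * opN ε g h f z.2|) ((0, 0), y) :=
      ((cL.add cBc).sub ((cV.mul (clen.rpow_const (Or.inl hlen))).mul cN)).abs
    have h0 : |opL ε 0 0 g y (grad f y) (hess2 f y) + cB ε 0 g h y (vec (grad f y)) -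
        volDen g y * len g y (grad f y) ^ (ε - 1) * opN ε g h f y| < η := by
      rw [value h1 ε g h f y hpos (hgrad y hy), abs_zero]
      exact hη
    have := cD.eventually (gt_mem_nhds h0)
    exact this.mono fun z hz => le_of_lt hz
  have hu := hK.eventually_forall_of_forall_eventually (x₀ := ((0 : ℝ), (0 : ℝ)))
    (P := fun (z : ℝ × ℝ) (y : E3) => |opL ε z.1 z.2 g y (grad f y) (hess2 f y) +
        cB ε z.1 g h y (vec (grad f y)) -
        volDen g y * len g y (grad f y) ^ (ε - 1) * opN ε g h f y| ≤ η) hev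
  obtain ⟨ρ, hρ, hball⟩ := Metric.eventually_nhds_iff.mp hu
  refine ⟨ρ / 2, by positivity, fun δ κ hδ hδ' hκ hκ' x hx => ?_⟩
  have hd : dist (δ, κ) ((0 : ℝ), (0 : ℝ)) < ρ := by
    rw [Prod.dist_eq]
    simp only [dist_zero_right, Real.norm_eq_abs, abs_of_pos hδ, abs_of_pos hκ]
    exact max_lt (by linarith) (by linarith)
  exact hball hd x hx

end Pool.Agent.PFlow
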