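import Pool.Agent.PFlow.StmtsK

/-!
# KLIMU: bounds and limits of the nondivergence coefficients
-/

open MeasureTheory Filter Topology
open scoped ContDiff

namespace Pool.Agent.PFlow

open Pool.Agent.PenroseSph

namespace KLIMU

/-! ### The weights -/

theorem regA_pos {ε δ κ s : ℝ} (hs : 0 ≤ s) (hδ : 0 < δ) (hκ : 0 < κ) : 0 < regA ε δ κ s := by
  unfold regA
  have h1 : 0 < s + δ ^ 2 := by positivity
  have h2 := Real.rpow_pos_of_pos h1 ((ε - 1) / 2)
  linarith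

theorem rpow_mul_self {t : ℝ} (ht : 0 < t) (ε : ℝ) :
    t ^ ((ε - 3) / 2) * t = t ^ ((ε - 1) / 2) := by
  conv_lhs =>
    rw [← Real.rpow_one t]
  rw [Real.rpow_one, ← Real.rpow_add_one ht.ne']
  congr 1
  ring

theorem D_bound {ε δ κ s : ℝ} (h0 : 0 < ε) (h1 : ε < 1) (hs : 0 ≤ s) (hδ : 0 < δ) (hκ : 0 < κ) :
    |regD ε δ s| * s ≤ regA ε δ κ s := by
  have ht : 0 < s + δ ^ 2 := by positivity
  have h2 := rpow_mul_self ht ε
  have h3 : 0 < (s + δ ^ 2) ^ ((ε - 3) / 2) := Real.rpow_pos_of_pos ht _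
  have h4 : 0 < (s + δ ^ 2) ^ ((ε - 1) / 2) := Real.rpow_pos_of_pos ht _
  unfold regD regA
  rw [abs_mul, abs_of_pos h3, abs_of_nonpos (by linarith)]
  have h5 : (s + δ ^ 2) ^ ((ε - 3) / 2) * s ≤ (s + δ ^ 2) ^ ((ε - 1) / 2) := by
    rw [← h2]
    exact mul_le_mul_of_nonneg_left (by nlinarith) h3.le
  have h6 : 0 ≤ (s + δ ^ 2) ^ ((ε - 3) / 2) * s := by positivity
  nlinarith

/-- `(s+δ²)^((ε-2)/2) s ≤ √s α(s)` -/
theorem B_bound {ε δ κ s : ℝ} (hs : 0 ≤ s) (hδ : 0 < δ) (hκ : 0 < κ) :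
    (s + δ ^ 2) ^ ((ε - 2) / 2) * s ≤ Real.sqrt s * regA ε δ κ s := by
  have ht : 0 < s + δ ^ 2 := by positivity
  have h4 : 0 < (s + δ ^ 2) ^ ((ε - 1) / 2) := Real.rpow_pos_of_pos ht _
  have h3 : 0 < (s + δ ^ 2) ^ ((ε - 2) / 2) := Real.rpow_pos_of_pos ht _
  have h5 : (s + δ ^ 2) ^ ((ε - 2) / 2) * Real.sqrt (s + δ ^ 2) = (s + δ ^ 2) ^ ((ε - 1) / 2) := by
    rw [Real.sqrt_eq_rpow, ← Real.rpow_add ht]
    congr 1
    ring
  have h6 : Real.sqrt s * Real.sqrt s = s := Real.mul_self_sqrt hs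
  have h7 : Real.sqrt s ≤ Real.sqrt (s + δ ^ 2) := Real.sqrt_le_sqrt (by nlinarith)
  have h8 := Real.sqrt_nonneg s
  calc (s + δ ^ 2) ^ ((ε - 2) / 2) * s
      = Real.sqrt s * ((s + δ ^ 2) ^ ((ε - 2) / 2) * Real.sqrt s) := by
        rw [mul_left_comm, h6]
    _ ≤ Real.sqrt s * ((s + δ ^ 2) ^ ((ε - 2) / 2) * Real.sqrt (s + δ ^ 2)) := by
        apply mul_le_mul_of_nonneg_left _ h8
        exact mul_le_mul_of_nonneg_left h7 h3.le
    _ = Real.sqrt s * (s + δ ^ 2) ^ ((ε - 1) / 2) := by rw [h5]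
    _ ≤ Real.sqrt s * regA ε δ κ s := by
        apply mul_le_mul_of_nonneg_left _ h8
        unfold regA
        linarith

/-- `1/α ≤ 2 + √s` -/
theorem inv_bound {ε δ κ s : ℝ} (h0 : 0 < ε) (h1 : ε < 1) (hs : 0 ≤ s) (hδ : 0 < δ) (hδ1 : δ ≤ 1)
    (hκ : 0 < κ) : 1 / regA ε δ κ s ≤ 2 + Real.sqrt s := by
  have ht : 0 < s + δ ^ 2 := by positivity
  have h4 : 0 < (s + δ ^ 2) ^ ((ε - 1) / 2) := Real.rpow_pos_of_pos ht _
  have h5 : 1 / regA ε δ κ s ≤ 1 / (s + δ ^ 2) ^ ((ε - 1) / 2) := by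
    apply one_div_le_one_div_of_le h4
    unfold regA
    linarith
  have h6 : 1 / (s + δ ^ 2) ^ ((ε - 1) / 2) = (s + δ ^ 2) ^ ((1 - ε) / 2) := by
    rw [one_div, ← Real.rpow_neg ht.le]
    congr 1
    ring
  have h7 : (s + δ ^ 2) ^ ((1 - ε) / 2) ≤ (s + 2) ^ ((1 - ε) / 2) := by
    apply Real.rpow_le_rpow ht.le _ (by linarith)
    nlinarith
  have h8 : (s + 2) ^ ((1 - ε) / 2) ≤ (s + 2) ^ ((1 : ℝ) / 2) := by
    apply Real.rpow_le_rpow_of_exponent_le (by linarith)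
    linarith
  have h9 : (s + 2) ^ ((1 : ℝ) / 2) ≤ 2 + Real.sqrt s := by
    rw [← Real.sqrt_eq_rpow]
    apply Real.sqrt_le_iff.2
    have h10 := Real.sqrt_nonneg s
    have h11 := Real.mul_self_sqrt hs
    constructor
    · linarith
    · nlinarith
  rw [h6] at h5
  linarith

/-! ### Matrices -/

theorem entry_le (B : Bil) (i j : Fin 3) : |B i j| ≤ ∑ i, ∑ j, |B i j| := by
  have h1 : |B i j| ≤ ∑ j, |B i j| :=
    Finset.single_le_sum (f := fun j => |B i j|) (fun j _ => abs_nonneg _) (Finset.mem_univ j)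
  have h2 : ∑ j, |B i j| ≤ ∑ i, ∑ j, |B i j| :=
    Finset.single_le_sum (f := fun i => ∑ j, |B i j|)
      (fun i _ => Finset.sum_nonneg fun j _ => abs_nonneg _) (Finset.mem_univ i)
  linarith

theorem sum_nonneg' (B : Bil) : 0 ≤ ∑ i, ∑ j, |B i j| :=
  Finset.sum_nonneg fun i _ => Finset.sum_nonneg fun j _ => abs_nonneg _

theorem sum_sq_le (B : Bil) : ∑ i, ∑ j, B i j ^ 2 ≤ (∑ i, ∑ j, |B i j|) ^ 2 := by
  have h1 : ∀ i j, B i j ^ 2 ≤ |B i j| * ∑ i, ∑ j, |B i j| := by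
    intro i j
    rw [← sq_abs, pow_two]
    exact mul_le_mul_of_nonneg_left (entry_le B i j) (abs_nonneg _)
  calc ∑ i, ∑ j, B i j ^ 2 ≤ ∑ i, ∑ j, |B i j| * ∑ i, ∑ j, |B i j| :=
        Finset.sum_le_sum fun i _ => Finset.sum_le_sum fun j _ => h1 i j
    _ = (∑ i, ∑ j, |B i j|) ^ 2 := by
        simp only [← Finset.sum_mul]
        ring

section pt

variable {g h : TensorField} {C : ℝ}

theorem ev_le (h2 : KTN) (hB : GBound g h C) {x : E3} (hx : (g x).PosDef) (p : Cov) (B : Bil) :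
    |ev B (raise g x p) (raise g x p)| ≤ lsq g x p * (C * ∑ i, ∑ j, |B i j|) := by
  obtain ⟨k1, -, -, -, -, k6, -, -⟩ := h2 g x hx p
  have hC := hB.one
  have hS := sum_nonneg' B
  apply abs_le_of_sq_le_sq _ (mul_nonneg k1 (mul_nonneg (by linarith) hS))
  have h3 := k6 B
  have h4 := hB.nsqUp x B
  have h5 := sum_sq_le B
  have h6 : nsq g x B ≤ (C * ∑ i, ∑ j, |B i j|) ^ 2 := by
    have h7 : C * ∑ i, ∑ j, B i j ^ 2 ≤ C * (∑ i, ∑ j, |B i j|) ^ 2 :=
      mul_le_mul_of_nonneg_left h5 (by linarith)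
    have h8 : C * (∑ i, ∑ j, |B i j|) ^ 2 ≤ C ^ 2 * (∑ i, ∑ j, |B i j|) ^ 2 :=
      mul_le_mul_of_nonneg_right (by nlinarith) (sq_nonneg _)
    rw [mul_pow]
    linarith
  rw [mul_pow]
  exact h3.trans (mul_le_mul_of_nonneg_left h6 (sq_nonneg _))

theorem coord_le (ξ : E3) (k : Fin 3) : |ξ k| ≤ ‖ξ‖ := by
  have := PiLp.norm_apply_le ξ k
  rwa [Real.norm_eq_abs] at this

theorem cHess_le (hB : GBound g h C) (x ξ : E3) (M : Bil) :
    ∑ i, ∑ j, |cHess g x ξ M i j| ≤ (∑ i, ∑ j, |M i j|) + 27 * C * ‖ξ‖ := by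
  have hC := hB.one
  have h1 : ∀ i j, |cHess g x ξ M i j| ≤ |M i j| + 3 * C * ‖ξ‖ := by
    intro i j
    have h2 : cHess g x ξ M i j = M i j - ∑ k, christoffel g k i j x * ξ k := rfl
    rw [h2]
    have h3 : |∑ k, christoffel g k i j x * ξ k| ≤ 3 * C * ‖ξ‖ := by
      have h4 : ∀ k ∈ (Finset.univ : Finset (Fin 3)), |christoffel g k i j x * ξ k| ≤ C * ‖ξ‖ := by
        intro k _
        rw [abs_mul]
        exact mul_le_mul (hB.chr x k i j) (coord_le ξ k) (abs_nonneg _) (by linarith)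
      refine (Finset.abs_sum_le_sum_abs _ _).trans ((Finset.sum_le_sum h4).trans ?_)
      simp
      linarith
    exact (abs_sub _ _).trans (by linarith)
  refine (Finset.sum_le_sum fun i _ => Finset.sum_le_sum fun j _ => h1 i j).trans ?_
  simp only [Finset.sum_add_distrib]
  simp
  linarith

theorem h_le (hB : GBound g h C) (x : E3) : ∑ i, ∑ j, |h x i j| ≤ 9 * C := by
  refine (Finset.sum_le_sum fun i _ => Finset.sum_le_sum fun j _ => hB.hh x i j).trans ?_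
  simp
  linarith

theorem sqrt_le (hB : GBound g h C) (x ξ : E3) :
    Real.sqrt (lsq g x ξ) ≤ C * ‖ξ‖ := by
  have hC := hB.one
  have h3 : lsq g x ξ ≤ C * ‖ξ‖ ^ 2 := hB.up x ξ
  apply Real.sqrt_le_iff.2
  constructor
  · positivity
  · have h4 : 0 ≤ ‖ξ‖ ^ 2 := sq_nonneg _
    nlinarith

end pt

end KLIMU

open KLIMU in
theorem KLIMU_thm (h1 : KBND) (h2 : KTN) : KLIMU := by
  intro ε g h r hε0 hε1 hG
  obtain ⟨C, hB⟩ := h1 g h r hG
  have hC := hB.one
  have hpd : ∀ x, (g x).PosDef := fun x => hG.met.posDef x (Set.mem_univ x)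
  have hC3 : 1 ≤ C ^ 3 := one_le_pow₀ hC
  have hC34 : C ^ 3 ≤ C ^ 4 := by
    rw [pow_succ C 3]
    nlinarith
  refine ⟨⟨54 * C ^ 4, by positivity, ?_⟩, ?_⟩
  · intro δ κ hδ hδ1 hκ hκ1 x ξ M
    have hs : 0 ≤ lsq g x ξ := (h2 g x (hpd x) ξ).1
    have hA := regA_pos (ε := ε) hs hδ hκ
    have hvol0 : 0 ≤ volDen g x := Real.sqrt_nonneg _
    have hvol := hB.volUp x
    have hn := norm_nonneg ξ
    have hM := sum_nonneg' M
    refine ⟨?_, ?_, ?_⟩
    · set H := cHess g x ξ M with hH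
      have hSH := cHess_le hB x ξ M
      rw [← hH] at hSH
      have hSH0 := sum_nonneg' H
      have e1 : opL ε δ κ g x ξ M / regA ε δ κ (lsq g x ξ) = volDen g x * (trg g x H +
          regD ε δ (lsq g x ξ) / regA ε δ κ (lsq g x ξ) * ev H (raise g x ξ) (raise g x ξ)) := by
        unfold opL
        rw [← hH]
        field_simp
      have e2 : |regD ε δ (lsq g x ξ) / regA ε δ κ (lsq g x ξ) *
          ev H (raise g x ξ) (raise g x ξ)| ≤ C * ∑ i, ∑ j, |H i j| := by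
        rw [abs_mul, abs_div, abs_of_pos hA, div_mul_eq_mul_div, div_le_iff₀ hA]
        have e3 := ev_le h2 hB (hpd x) ξ H
        have e4 := D_bound hε0 hε1 hs hδ hκ
        calc |regD ε δ (lsq g x ξ)| * |ev H (raise g x ξ) (raise g x ξ)|
            ≤ |regD ε δ (lsq g x ξ)| * (lsq g x ξ * (C * ∑ i, ∑ j, |H i j|)) :=
              mul_le_mul_of_nonneg_left e3 (abs_nonneg _)
          _ = (|regD ε δ (lsq g x ξ)| * lsq g x ξ) * (C * ∑ i, ∑ j, |H i j|) := by ring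
          _ ≤ regA ε δ κ (lsq g x ξ) * (C * ∑ i, ∑ j, |H i j|) :=
              mul_le_mul_of_nonneg_right e4 (mul_nonneg (by linarith) hSH0)
          _ = _ := by ring
      have e5 := hB.tr x H
      rw [e1, abs_mul, abs_of_nonneg hvol0]
      have e6 : |trg g x H + regD ε δ (lsq g x ξ) / regA ε δ κ (lsq g x ξ) *
          ev H (raise g x ξ) (raise g x ξ)| ≤ 2 * (C * ∑ i, ∑ j, |H i j|) :=
        (abs_add_le _ _).trans (by linarith)
      calc volDen g x * |trg g x H + regD ε δ (lsq g x ξ) / regA ε δ κ (lsq g x ξ) *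
          ev H (raise g x ξ) (raise g x ξ)| ≤ C * (2 * (C * ∑ i, ∑ j, |H i j|)) :=
            mul_le_mul hvol e6 (abs_nonneg _) (by linarith)
        _ ≤ C * (2 * (C * ((∑ i, ∑ j, |M i j|) + 27 * C * ‖ξ‖))) := by gcongr
        _ = 54 * C ^ 3 * ‖ξ‖ + 2 * C ^ 2 * ∑ i, ∑ j, |M i j| := by ring
        _ ≤ 54 * C ^ 4 * ‖ξ‖ + 54 * C ^ 4 * ∑ i, ∑ j, |M i j| := by
            have e7 : 2 * C ^ 2 ≤ 54 * C ^ 4 := by nlinarith [sq_nonneg C]
            gcongr
        _ = _ := by ring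
    · have hS := h_le hB x
      have hS0 := sum_nonneg' (h x)
      have e3 := ev_le h2 hB (hpd x) ξ (h x)
      have e5 := hB.tr x (h x)
      have e8 := B_bound (ε := ε) hs hδ hκ
      have ht : 0 < lsq g x ξ + δ ^ 2 := by positivity
      have h3 : 0 < (lsq g x ξ + δ ^ 2) ^ ((ε - 2) / 2) := Real.rpow_pos_of_pos ht _
      have e4 : |lsq g x ξ * trg g x (h x) - (1 - ε) * ev (h x) (raise g x ξ) (raise g x ξ)| ≤
          lsq g x ξ * (2 * (C * (9 * C))) := by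
        refine (abs_sub _ _).trans ?_
        rw [abs_mul, abs_mul, abs_of_nonneg hs, abs_of_nonneg (by linarith : 0 ≤ 1 - ε)]
        have e6 : C * ∑ i, ∑ j, |h x i j| ≤ C * (9 * C) :=
          mul_le_mul_of_nonneg_left hS (by linarith)
        have e7 : lsq g x ξ * |trg g x (h x)| ≤ lsq g x ξ * (C * (9 * C)) :=
          mul_le_mul_of_nonneg_left (e5.trans e6) hs
        have e9 : (1 - ε) * |ev (h x) (raise g x ξ) (raise g x ξ)| ≤
            lsq g x ξ * (C * (9 * C)) := by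
          have e10 := mul_le_mul_of_nonneg_left e6 hs
          have e11 := abs_nonneg (ev (h x) (raise g x ξ) (raise g x ξ))
          nlinarith
        linarith
      have e12 := sqrt_le hB x ξ
      rw [abs_div, abs_of_pos hA, div_le_iff₀ hA]
      unfold cB
      rw [abs_mul, abs_mul, abs_of_nonneg hvol0, abs_of_pos h3]
      calc volDen g x * (lsq g x ξ + δ ^ 2) ^ ((ε - 2) / 2) *
          |lsq g x ξ * trg g x (h x) - (1 - ε) * ev (h x) (raise g x ξ) (raise g x ξ)|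
          ≤ C * (lsq g x ξ + δ ^ 2) ^ ((ε - 2) / 2) * (lsq g x ξ * (2 * (C * (9 * C)))) := by
            gcongr
        _ = 18 * C ^ 3 * ((lsq g x ξ + δ ^ 2) ^ ((ε - 2) / 2) * lsq g x ξ) := by ring
        _ ≤ 18 * C ^ 3 * (Real.sqrt (lsq g x ξ) * regA ε δ κ (lsq g x ξ)) := by gcongr
        _ ≤ 18 * C ^ 3 * (C * ‖ξ‖ * regA ε δ κ (lsq g x ξ)) := by gcongr
        _ = 18 * (C ^ 4 * ‖ξ‖ * regA ε δ κ (lsq g x ξ)) := by ring
        _ ≤ 54 * (C ^ 4 * ‖ξ‖ * regA ε δ κ (lsq g x ξ)) := by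
            have e13 : 0 ≤ C ^ 4 * ‖ξ‖ * regA ε δ κ (lsq g x ξ) := by positivity
            linarith
        _ = _ := by ring
    · have e1 := inv_bound hε0 hε1 hs hδ hδ1 hκ
      have e2 := sqrt_le hB x ξ
      have e3 : C ≤ C ^ 4 := by
        have : C * 1 ≤ C * C ^ 3 := mul_le_mul_of_nonneg_left hC3 (by linarith)
        nlinarith
      have e4 : C * ‖ξ‖ ≤ C ^ 4 * ‖ξ‖ := mul_le_mul_of_nonneg_right e3 hn
      nlinarith
  · intro x δ κ ξ ξ₀ hδ hκ hδ0 hκ0 hξ hξ0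
    have hξ0' : (ξ₀ : Cov) ≠ 0 := by
      intro h0
      apply hξ0
      ext i
      exact congrFun h0 i
    obtain ⟨-, k2, k3, -, -, -, -, k8⟩ := h2 g x (hpd x) ξ₀
    have hs0 := k2 hξ0'
    have hbn := k8 hξ0'
    -- continuity in `ξ`
    have c1 : Tendsto (fun n => lsq g x (ξ n)) atTop (𝓝 (lsq g x ξ₀)) := by
      have : Continuous fun ξ : E3 => lsq g x ξ := by
        unfold lsq ev
        fun_prop
      exact (this.tendsto ξ₀).comp hξ
    have c2 : ∀ B : E3 → Bil, (∀ i j, Continuous fun ξ => B ξ i j) →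
        Tendsto (fun n => ev (B (ξ n)) (raise g x (ξ n)) (raise g x (ξ n))) atTop
          (𝓝 (ev (B ξ₀) (raise g x ξ₀) (raise g x ξ₀))) := by
      intro B hBc
      have : Continuous fun ξ : E3 => ev (B ξ) (raise g x ξ) (raise g x ξ) := by
        unfold ev raise
        fun_prop
      exact (this.tendsto ξ₀).comp hξ
    have c3 : ∀ M : Bil, ∀ i j, Continuous fun ξ : E3 => cHess g x ξ M i j := by
      intro M i j
      have e : (fun ξ : E3 => cHess g x ξ M i j) =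
          fun ξ : E3 => M i j - ∑ k, christoffel g k i j x * ξ k := rfl
      rw [e]
      fun_prop
    have c4 : ∀ M : Bil, Tendsto (fun n => trg g x (cHess g x (ξ n) M)) atTop
        (𝓝 (trg g x (cHess g x ξ₀ M))) := by
      intro M
      have hc := c3 M
      have : Continuous fun ξ : E3 => trg g x (cHess g x ξ M) := by
        unfold trg
        fun_prop
      exact (this.tendsto ξ₀).comp hξ
    have c5 : Tendsto (fun n => lsq g x (ξ n) + δ n ^ 2) atTop (𝓝 (lsq g x ξ₀)) := by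
      have := c1.add (hδ0.pow 2)
      simpa using this
    have c6 : ∀ q : ℝ, Tendsto (fun n => (lsq g x (ξ n) + δ n ^ 2) ^ q) atTop
        (𝓝 (lsq g x ξ₀ ^ q)) := fun q => c5.rpow_const (Or.inl hs0.ne')
    have c7 : Tendsto (fun n => regA ε (δ n) (κ n) (lsq g x (ξ n))) atTop
        (𝓝 (lsq g x ξ₀ ^ ((ε - 1) / 2))) := by
      have := (c6 ((ε - 1) / 2)).add hκ0
      simpa [regA] using this
    have c8 : Tendsto (fun n => regD ε (δ n) (lsq g x (ξ n))) atTop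
        (𝓝 ((ε - 1) * lsq g x ξ₀ ^ ((ε - 3) / 2))) := (c6 ((ε - 3) / 2)).const_mul (ε - 1)
    have hA0 : 0 < lsq g x ξ₀ ^ ((ε - 1) / 2) := Real.rpow_pos_of_pos hs0 _
    have hmul := rpow_mul_self hs0 ε
    refine ⟨?_, ?_⟩
    · intro M
      have c9 := ((((c7.mul (c4 M)).add (c8.mul (c2 (fun ξ => cHess g x ξ M) (c3 M)))).const_mul
        (volDen g x)).div c7 hA0.ne')
      have e : volDen g x * (lsq g x ξ₀ ^ ((ε - 1) / 2) * trg g x (cHess g x ξ₀ M) +
          (ε - 1) * lsq g x ξ₀ ^ ((ε - 3) / 2) *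
            ev (cHess g x ξ₀ M) (raise g x ξ₀) (raise g x ξ₀)) / lsq g x ξ₀ ^ ((ε - 1) / 2) =
          volDen g x * beps ε g x ξ₀ (cHess g x ξ₀ M) := by
        unfold beps
        rw [hbn, ← hmul]
        have hD0 : 0 < lsq g x ξ₀ ^ ((ε - 3) / 2) := Real.rpow_pos_of_pos hs0 _
        field_simp
        ring
      rw [← e]
      exact c9
    · have c9 := ((((c6 ((ε - 2) / 2)).const_mul (volDen g x)).mul
        ((c1.mul_const (trg g x (h x))).sub ((c2 (fun _ => h x)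
          (fun i j => continuous_const)).const_mul (1 - ε)))).div c7 hA0.ne')
      have e : volDen g x * lsq g x ξ₀ ^ ((ε - 2) / 2) * (lsq g x ξ₀ * trg g x (h x) -
          (1 - ε) * ev (h x) (raise g x ξ₀) (raise g x ξ₀)) / lsq g x ξ₀ ^ ((ε - 1) / 2) =
          volDen g x * (len g x ξ₀ * beps ε g x ξ₀ (h x)) := by
        unfold beps
        rw [hbn]
        have h5 : lsq g x ξ₀ ^ ((ε - 2) / 2) * len g x ξ₀ = lsq g x ξ₀ ^ ((ε - 1) / 2) := by
          have : len g x ξ₀ = lsq g x ξ₀ ^ ((1 : ℝ) / 2) := Real.sqrt_eq_rpow _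
          rw [this, ← Real.rpow_add hs0]
          congr 1
          ring
        have hl0 : 0 < len g x ξ₀ := Real.sqrt_pos.2 hs0
        have hD0 : 0 < lsq g x ξ₀ ^ ((ε - 2) / 2) := Real.rpow_pos_of_pos hs0 _
        rw [← h5]
        field_simp
        rw [← k3]
        ring
      rw [← e]
      exact c9

end Pool.Agent.PFlow
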