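import Pool.Agent.PFlow.StmtsK

/-!
KMON: strong monotonicity of the regularised coefficients.
-/

open MeasureTheory Filter Topology
open scoped ContDiff

namespace Pool.Agent.PFlow

open Pool.Agent.PenroseSph

namespace KMON

theorem inner_vec (a : Cov) (ζ : E3) : inner ℝ (vec a) ζ = ∑ i, a i * ζ i := by
  rw [PiLp.inner_apply]
  refine Finset.sum_congr rfl fun i _ => ?_
  simp [mul_comm]

theorem inner_cA (ε δ κ : ℝ) (g : TensorField) (x ξ ζ : E3)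
    (h : ∀ q : Cov, ∑ i, raise g x ξ i * q i = ev (g x)⁻¹ ξ q) :
    inner ℝ (cA ε δ κ g x ξ) ζ =
      volDen g x * (regA ε δ κ (lsq g x ξ) * ev (g x)⁻¹ ξ ζ) := by
  unfold cA
  rw [inner_vec, ← h, Finset.mul_sum, Finset.mul_sum]
  refine Finset.sum_congr rfl fun i _ => ?_
  ring

theorem ev_sub_right (B : Bil) (v p q : Cov) : ev B v (p - q) = ev B v p - ev B v q := by
  unfold ev
  simp only [Pi.sub_apply, mul_sub, Finset.sum_sub_distrib]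

theorem ev_sub_left (B : Bil) (v p q : Cov) : ev B (p - q) v = ev B p v - ev B q v := by
  unfold ev
  simp only [Pi.sub_apply, mul_sub, sub_mul, Finset.sum_sub_distrib]

/-- `s (s + δ²)^(ε-1)` is increasing. -/
theorem mono_aux {ε δ : ℝ} (h0 : 0 < ε) (h1 : ε < 1) (hδ : 0 < δ) {s t : ℝ} (hs : 0 ≤ s)
    (hst : s ≤ t) : s * (s + δ ^ 2) ^ (ε - 1) ≤ t * (t + δ ^ 2) ^ (ε - 1) := by
  have hd : 0 < δ ^ 2 := by positivity
  have key : ∀ r : ℝ, 0 ≤ r →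
      r * (r + δ ^ 2) ^ (ε - 1) = (r + δ ^ 2) ^ ε - δ ^ 2 * (r + δ ^ 2) ^ (ε - 1) := by
    intro r hr
    have hp : 0 < r + δ ^ 2 := by positivity
    have h2 : (r + δ ^ 2) ^ ε = (r + δ ^ 2) * (r + δ ^ 2) ^ (ε - 1) := by
      rw [Real.rpow_sub_one hp.ne']
      field_simp
    rw [h2]
    ring
  rw [key s hs, key t (hs.trans hst)]
  have e1 : (s + δ ^ 2) ^ ε ≤ (t + δ ^ 2) ^ ε :=
    Real.rpow_le_rpow (by positivity) (by linarith) h0.le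
  have e2 : (t + δ ^ 2) ^ (ε - 1) ≤ (s + δ ^ 2) ^ (ε - 1) :=
    Real.rpow_le_rpow_of_nonpos (by positivity) (by linarith) (by linarith)
  have e3 := mul_le_mul_of_nonneg_left e2 hd.le
  linarith

/-- `t (t² + δ²)^((ε-1)/2)` is increasing. -/
theorem mono_b {ε δ : ℝ} (h0 : 0 < ε) (h1 : ε < 1) (hδ : 0 < δ) {u v : ℝ} (hu : 0 ≤ u)
    (huv : u ≤ v) :
    (u ^ 2 + δ ^ 2) ^ ((ε - 1) / 2) * u ≤ (v ^ 2 + δ ^ 2) ^ ((ε - 1) / 2) * v := by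
  have hv : 0 ≤ v := hu.trans huv
  have hsq : ∀ r : ℝ, 0 ≤ r → ((r ^ 2 + δ ^ 2) ^ ((ε - 1) / 2) * r) ^ 2 =
      r ^ 2 * (r ^ 2 + δ ^ 2) ^ (ε - 1) := by
    intro r _
    have hp : 0 ≤ r ^ 2 + δ ^ 2 := by positivity
    rw [mul_pow, ← Real.rpow_natCast ((r ^ 2 + δ ^ 2) ^ ((ε - 1) / 2)) 2, ← Real.rpow_mul hp]
    rw [show (ε - 1) / 2 * ((2 : ℕ) : ℝ) = ε - 1 by push_cast; ring]
    ring
  have h2 : ((u ^ 2 + δ ^ 2) ^ ((ε - 1) / 2) * u) ^ 2 ≤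
      ((v ^ 2 + δ ^ 2) ^ ((ε - 1) / 2) * v) ^ 2 := by
    rw [hsq u hu, hsq v hv]
    exact mono_aux h0 h1 hδ (by positivity) (by nlinarith)
  exact (sq_le_sq₀ (by positivity) (by positivity)).mp h2

theorem mono_prod {ε δ : ℝ} (h0 : 0 < ε) (h1 : ε < 1) (hδ : 0 < δ) {u v : ℝ} (hu : 0 ≤ u)
    (hv : 0 ≤ v) :
    0 ≤ ((u ^ 2 + δ ^ 2) ^ ((ε - 1) / 2) * u - (v ^ 2 + δ ^ 2) ^ ((ε - 1) / 2) * v) * (u - v) := by
  rcases le_total u v with h | h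
  · have h2 := mono_b h0 h1 hδ hu h
    exact mul_nonneg_of_nonpos_of_nonpos (by linarith) (by linarith)
  · have h2 := mono_b h0 h1 hδ hv h
    exact mul_nonneg (by linarith) (by linarith)

end KMON

theorem KMON_thm (h1 : KBND) (h2 : KTN) : KMON := by
  intro ε δ κ g h r hε0 hε1 hδ hκ hd
  obtain ⟨C, hC⟩ := h1 g h r hd
  have hC0 : 0 < C := lt_of_lt_of_le one_pos hC.one
  refine ⟨κ / (C * C), by positivity, ?_⟩
  intro x ξ η
  have hpos : (g x).PosDef := hd.met.posDef x (Set.mem_univ x)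
  obtain ⟨a1, -, a3, a4, a5, -⟩ := h2 g x hpos ξ
  obtain ⟨b1, -, b3, b4, b5, -⟩ := h2 g x hpos η
  obtain ⟨c1, -⟩ := h2 g x hpos ((ξ - η : E3) : Cov)
  have hu0 : 0 ≤ len g x ξ := Real.sqrt_nonneg _
  have hv0 : 0 ≤ len g x η := Real.sqrt_nonneg _
  generalize len g x ξ = u at a3 hu0
  generalize len g x η = v at b3 hv0
  have hvol : 0 ≤ volDen g x := Real.sqrt_nonneg _
  -- Cauchy-Schwarz
  have cs1 : ev (g x)⁻¹ ξ η ≤ u * v := by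
    refine le_of_abs_le (abs_le_of_sq_le_sq ?_ (mul_nonneg hu0 hv0))
    rw [mul_pow, a3, b3]
    exact a5 η
  have cs2 : ev (g x)⁻¹ η ξ ≤ u * v := by
    refine le_of_abs_le (abs_le_of_sq_le_sq ?_ (mul_nonneg hu0 hv0))
    rw [mul_pow, a3, b3, mul_comm]
    exact b5 ξ
  have hcov : ((ξ - η : E3) : Cov) = (ξ : Cov) - (η : Cov) := rfl
  have hlsq : lsq g x ((ξ - η : E3) : Cov) =
      u ^ 2 - ev (g x)⁻¹ ξ η - ev (g x)⁻¹ η ξ + v ^ 2 := by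
    rw [a3, b3]
    unfold lsq
    rw [hcov, KMON.ev_sub_left, KMON.ev_sub_right, KMON.ev_sub_right]
    ring
  have hin : inner ℝ (cA ε δ κ g x ξ - cA ε δ κ g x η) (ξ - η) =
      volDen g x * (regA ε δ κ (u ^ 2) * (u ^ 2 - ev (g x)⁻¹ ξ η)) -
        volDen g x * (regA ε δ κ (v ^ 2) * (ev (g x)⁻¹ η ξ - v ^ 2)) := by
    rw [inner_sub_left, KMON.inner_cA ε δ κ g x ξ (ξ - η) a4,
      KMON.inner_cA ε δ κ g x η (ξ - η) b4, hcov, KMON.ev_sub_right, KMON.ev_sub_right, a3, b3]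
    rfl
  have hbu : 0 ≤ (u ^ 2 + δ ^ 2) ^ ((ε - 1) / 2) := by positivity
  have hbv : 0 ≤ (v ^ 2 + δ ^ 2) ^ ((ε - 1) / 2) := by positivity
  have hprod := KMON.mono_prod hε0 hε1 hδ hu0 hv0
  have hlow := hC.low x ((ξ - η : E3) : Cov)
  have hvec : vec ((ξ - η : E3) : Cov) = ξ - η := rfl
  rw [hvec] at hlow
  rw [hin]
  unfold regA
  rw [hlsq] at hlow c1
  have hvl := hC.volLow x
  generalize ev (g x)⁻¹ ξ η = e1 at *
  generalize ev (g x)⁻¹ η ξ = e2 at *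
  generalize volDen g x = V at *
  generalize (u ^ 2 + δ ^ 2) ^ ((ε - 1) / 2) = bu at *
  generalize (v ^ 2 + δ ^ 2) ^ ((ε - 1) / 2) = bv at *
  have m1 : 0 ≤ bu * (u * v - e1) := mul_nonneg hbu (by linarith)
  have m2 : 0 ≤ bv * (u * v - e2) := mul_nonneg hbv (by linarith)
  have hbr : 0 ≤ bu * (u ^ 2 - e1) - bv * (e2 - v ^ 2) := by nlinarith
  have s1 : κ / (C * C) * ‖ξ - η‖ ^ 2 ≤ κ / (C * C) * (C * (u ^ 2 - e1 - e2 + v ^ 2)) :=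
    mul_le_mul_of_nonneg_left hlow (by positivity)
  have s2 : κ / (C * C) * (C * (u ^ 2 - e1 - e2 + v ^ 2)) =
      κ / C * (u ^ 2 - e1 - e2 + v ^ 2) * 1 := by
    field_simp
  have s3 : κ / C * (u ^ 2 - e1 - e2 + v ^ 2) * 1 ≤
      κ / C * (u ^ 2 - e1 - e2 + v ^ 2) * (C * V) :=
    mul_le_mul_of_nonneg_left hvl (mul_nonneg (by positivity) c1)
  have s4 : κ / C * (u ^ 2 - e1 - e2 + v ^ 2) * (C * V) = V * (κ * (u ^ 2 - e1 - e2 + v ^ 2)) := by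
    field_simp
  have s5 : 0 ≤ V * (bu * (u ^ 2 - e1) - bv * (e2 - v ^ 2)) := mul_nonneg hvol hbr
  calc κ / (C * C) * ‖ξ - η‖ ^ 2 ≤ V * (κ * (u ^ 2 - e1 - e2 + v ^ 2)) := by
        rw [← s4]
        exact (s1.trans (le_of_eq s2)).trans s3
    _ ≤ V * (κ * (u ^ 2 - e1 - e2 + v ^ 2)) + V * (bu * (u ^ 2 - e1) - bv * (e2 - v ^ 2)) := by
        linarith
    _ = V * ((bu + κ) * (u ^ 2 - e1)) - V * ((bv + κ) * (e2 - v ^ 2)) := by ring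

end Pool.Agent.PFlow
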