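import Pool.Agent.PFlow.StmtsK

/-!
# KPOS: strict subsolutions and supersolutions of the limit equation
-/

open MeasureTheory Filter Topology
open scoped ContDiff

namespace Pool.Agent.PFlow

open Pool.Agent.PenroseSph

namespace KPOS

lemma cat_sum {ι : Type} {s : Finset ι} {f : ι → E3 → ℝ} {x : E3}
    (h : ∀ i ∈ s, ContinuousAt (f i) x) : ContinuousAt (fun y => ∑ i ∈ s, f i y) x :=
  tendsto_finsetSum _ h

lemma cat_ev {B : E3 → Bil} {v w : E3 → Cov} {x : E3}
    (hB : ∀ i j, ContinuousAt (fun y => B y i j) x) (hv : ∀ i, ContinuousAt (fun y => v y i) x)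
    (hw : ∀ i, ContinuousAt (fun y => w y i) x) :
    ContinuousAt (fun y => ev (B y) (v y) (w y)) x :=
  cat_sum fun i _ => cat_sum fun j _ => ((hB i j).mul (hv i)).mul (hw j)

lemma cat_pd {f : E3 → ℝ} {x : E3} (hf : ContDiffAt ℝ 1 f x) (i : Fin 3) :
    ContinuousAt (fun y => pd i f y) x := by
  have h1 : ContDiffAt ℝ 0 (fderiv ℝ f) x := hf.fderiv_right (by norm_num)
  exact h1.continuousAt.clm_apply continuousAt_const

lemma cdat_pd {f : E3 → ℝ} {x : E3} (hf : ContDiffAt ℝ 2 f x) (i : Fin 3) :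
    ContDiffAt ℝ 1 (fun y => pd i f y) x := by
  have h1 : ContDiffAt ℝ 1 (fderiv ℝ f) x := hf.fderiv_right (by norm_num)
  exact h1.clm_apply contDiffAt_const

/-- Continuity of the limit expression. -/
lemma cat_limit {ε : ℝ} {g h : TensorField} {r : ℝ} (hd : GData g h r) (h1 : KTN) (h2 : KSM)
    {f : E3 → ℝ} {x : E3} (hf : ContDiffAt ℝ 2 f x) (hg : grad f x ≠ 0) :
    0 < len g x (grad f x) ∧
    ContinuousAt (fun y => volDen g y * len g y (grad f y) ^ (ε - 1) * opN ε g h f y) x := by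
  obtain ⟨hG, hV, hC⟩ := h2 g h r hd
  have cG : ∀ i j, ContinuousAt (fun y => (g y)⁻¹ i j) x := fun i j =>
    (hG i j).continuous.continuousAt
  have cV : ContinuousAt (volDen g) x := hV.continuous.continuousAt
  have cC : ∀ k i j, ContinuousAt (christoffel g k i j) x := fun k i j =>
    (hC k i j).continuous.continuousAt
  have ch : ∀ i j, ContinuousAt (fun y => h y i j) x := fun i j =>
    (contDiffOn_univ.1 (hd.ten.smooth i j)).continuous.continuousAt
  have cp : ∀ i, ContinuousAt (fun y => grad f y i) x := fun i =>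
    cat_pd (hf.of_le (by norm_num)) i
  have cM : ∀ i j, ContinuousAt (fun y => hess2 f y i j) x := fun i j =>
    cat_pd (cdat_pd hf j) i
  have cH : ∀ i j, ContinuousAt (fun y => cHess g y (grad f y) (hess2 f y) i j) x := fun i j =>
    (cM i j).sub (cat_sum fun k _ => (cC k i j).mul (cp k))
  have cR : ∀ i, ContinuousAt (fun y => raise g y (grad f y) i) x := fun i =>
    cat_sum fun j _ => (cG i j).mul (cp j)
  have cL : ContinuousAt (fun y => len g y (grad f y)) x := (cat_ev cG cp cp).sqrt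
  obtain ⟨-, hpos, hsq, -⟩ := h1 g x (hd.met.posDef x (Set.mem_univ x)) (grad f x)
  have hL : 0 < len g x (grad f x) := by
    have h3 := hpos hg
    rw [← hsq] at h3
    have h4 : 0 ≤ len g x (grad f x) := Real.sqrt_nonneg _
    rcases h4.eq_or_lt with h5 | h5
    · rw [← h5] at h3
      norm_num at h3
    · exact h5
  have cN : ∀ i, ContinuousAt (fun y => nrm g y (grad f y) i) x := fun i =>
    (cR i).div cL hL.ne'
  have cB : ∀ B : E3 → Bil, (∀ i j, ContinuousAt (fun y => B y i j) x) →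
      ContinuousAt (fun y => beps ε g y (grad f y) (B y)) x := fun B hB =>
    (cat_sum fun i _ => cat_sum fun j _ => (cG i j).mul (hB i j)).sub
      (continuousAt_const.mul (cat_ev hB cN cN))
  refine ⟨hL, (cV.mul (cL.rpow_const (Or.inl hL.ne'))).mul ?_⟩
  exact (cB _ cH).add (cL.mul (cB h ch))

lemma volDen_pos {g h : TensorField} {r : ℝ} (hd : GData g h r) (x : E3) : 0 < volDen g x :=
  Real.sqrt_pos.2 (hd.met.posDef x (Set.mem_univ x)).det_pos

end KPOS

open KPOS in
/-- Strict subsolutions and supersolutions of the limit equation are strict for the regularised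
equation. -/
theorem KPOS_thm (h1 : KTN) (h2 : KSM) (h3 : KLIMJ) : KPOS := by
  intro ε g h r hε hε1 hd K f hK hf
  rcases K.eq_empty_or_nonempty with hne | hne
  · constructor
    · intro _
      refine ⟨1, 1, one_pos, one_pos, fun δ κ _ _ _ _ x hx => ?_⟩
      rw [hne] at hx
      exact absurd hx (Set.notMem_empty x)
    · intro _
      refine ⟨1, 1, one_pos, one_pos, fun δ κ _ _ _ _ x hx => ?_⟩
      rw [hne] at hx
      exact absurd hx (Set.notMem_empty x)
  constructor
  · intro hs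
    have hc : ContinuousOn
        (fun y => volDen g y * len g y (grad f y) ^ (ε - 1) * opN ε g h f y) K := fun x hx =>
      (cat_limit hd h1 h2 (hf x hx) (hs x hx).1).2.continuousWithinAt
    obtain ⟨x₀, hx₀, hmin⟩ := hK.exists_isMinOn hne hc
    have hpos : 0 < volDen g x₀ * len g x₀ (grad f x₀) ^ (ε - 1) * opN ε g h f x₀ :=
      mul_pos (mul_pos (volDen_pos hd x₀)
        (Real.rpow_pos_of_pos (cat_limit (ε := ε) hd h1 h2 (hf x₀ hx₀) (hs x₀ hx₀).1).1 _))
        (hs x₀ hx₀).2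
    obtain ⟨δ₀, hδ₀, hlim⟩ := h3 ε g h r hε hε1 hd K f hK hf (fun x hx => (hs x hx).1)
      (volDen g x₀ * len g x₀ (grad f x₀) ^ (ε - 1) * opN ε g h f x₀ / 2) (half_pos hpos)
    refine ⟨volDen g x₀ * len g x₀ (grad f x₀) ^ (ε - 1) * opN ε g h f x₀ / 2, δ₀,
      half_pos hpos, hδ₀, fun δ κ hδ hδ' hκ hκ' x hx => ?_⟩
    have h4 := (abs_le.1 (hlim δ κ hδ hδ' hκ hκ' x hx)).1
    have h5 := isMinOn_iff.1 hmin x hx
    linarith
  · intro hs
    have hc : ContinuousOn
        (fun y => volDen g y * len g y (grad f y) ^ (ε - 1) * opN ε g h f y) K := fun x hx =>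
      (cat_limit hd h1 h2 (hf x hx) (hs x hx).1).2.continuousWithinAt
    obtain ⟨x₀, hx₀, hmax⟩ := hK.exists_isMaxOn hne hc
    have hneg : volDen g x₀ * len g x₀ (grad f x₀) ^ (ε - 1) * opN ε g h f x₀ < 0 :=
      mul_neg_of_pos_of_neg (mul_pos (volDen_pos hd x₀)
        (Real.rpow_pos_of_pos (cat_limit (ε := ε) hd h1 h2 (hf x₀ hx₀) (hs x₀ hx₀).1).1 _))
        (hs x₀ hx₀).2
    have hpos : 0 < -(volDen g x₀ * len g x₀ (grad f x₀) ^ (ε - 1) * opN ε g h f x₀) :=
      neg_pos.2 hneg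
    obtain ⟨δ₀, hδ₀, hlim⟩ := h3 ε g h r hε hε1 hd K f hK hf (fun x hx => (hs x hx).1)
      (-(volDen g x₀ * len g x₀ (grad f x₀) ^ (ε - 1) * opN ε g h f x₀) / 2) (half_pos hpos)
    refine ⟨-(volDen g x₀ * len g x₀ (grad f x₀) ^ (ε - 1) * opN ε g h f x₀) / 2, δ₀,
      half_pos hpos, hδ₀, fun δ κ hδ hδ' hκ hκ' x hx => ?_⟩
    have h4 := (abs_le.1 (hlim δ κ hδ hδ' hκ hκ' x hx)).2
    have h5 := isMaxOn_iff.1 hmax x hx
    linarith

end Pool.Agent.PFlow
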