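import Pool.Agent.PFlow.StmtsK

/-!
# KSM: smoothness of the inverse metric, the volume density and the Christoffel symbols
-/

open scoped ContDiff

namespace Pool.Agent.PFlow

open Pool.Agent.PenroseSph

namespace KSM

lemma pd_contDiff {f : E3 → ℝ} (hf : ContDiff ℝ ∞ f) (i : Fin 3) : ContDiff ℝ ∞ (pd i f) := by
  unfold pd
  have : ContDiff ℝ ∞ (fun x => fderiv ℝ f x) := hf.fderiv_right (by simp)
  exact this.clm_apply contDiff_const

lemma det_contDiff {g : TensorField} (hg : ∀ i j, ContDiff ℝ ∞ (fun x => g x i j)) :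
    ContDiff ℝ ∞ (fun x => (g x).det) := by
  simp only [Matrix.det_fin_three]
  fun_prop

lemma adj_contDiff {g : TensorField} (hg : ∀ i j, ContDiff ℝ ∞ (fun x => g x i j)) (i j : Fin 3) :
    ContDiff ℝ ∞ (fun x => (g x).adjugate i j) := by
  simp only [Matrix.adjugate_fin_three]
  fin_cases i <;> fin_cases j <;> simp <;> fun_prop

end KSM

open KSM in
theorem KSM_thm : KSM := by
  intro g h r hd
  have hg : ∀ i j, ContDiff ℝ ∞ (fun x => g x i j) := fun i j =>
    contDiffOn_univ.1 (hd.met.smooth i j)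
  have hdet : ∀ x, 0 < (g x).det := fun x => (hd.met.posDef x (Set.mem_univ x)).det_pos
  have hinv : ∀ i j, ContDiff ℝ ∞ (fun x => (g x)⁻¹ i j) := by
    intro i j
    have h1 : (fun x => (g x)⁻¹ i j) = fun x => ((g x).det)⁻¹ * (g x).adjugate i j := by
      funext x
      rw [Matrix.inv_def, Matrix.smul_apply, Ring.inverse_eq_inv', smul_eq_mul]
    rw [h1]
    exact ((det_contDiff hg).inv fun x => (hdet x).ne').mul (adj_contDiff hg i j)
  refine ⟨hinv, ?_, ?_⟩
  · unfold volDen
    exact (det_contDiff hg).sqrt fun x => (hdet x).ne'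
  · intro k i j
    unfold christoffel
    refine contDiff_const.mul (ContDiff.sum fun l _ => (hinv k l).mul ?_)
    exact ((pd_contDiff (hg j l) i).add (pd_contDiff (hg i l) j)).sub (pd_contDiff (hg i j) l)

end Pool.Agent.PFlow
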