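import Pool.Agent.PFlow.StmtsK

/-!
# Block K: smoothness of the regularised coefficients
-/

open MeasureTheory Filter Topology
open scoped ContDiff

namespace Pool.Agent.PFlow

open Pool.Agent.PenroseSph

namespace KSMO

/-- `|p|²` is nonnegative. -/
lemma lsq_nonneg {g : TensorField} {x : E3} (h : (g x).PosDef) (p : Cov) : 0 ≤ lsq g x p := by
  have h1 : ((g x)⁻¹).PosDef := h.inv
  have h2 := h1.posSemidef.dotProduct_mulVec_nonneg p
  have h3 : star p ⬝ᵥ ((g x)⁻¹).mulVec p = lsq g x p := by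
    simp only [lsq, ev, dotProduct, Matrix.mulVec, Finset.mul_sum, Pi.star_apply, star_trivial]
    refine Finset.sum_congr rfl fun i _ => Finset.sum_congr rfl fun j _ => ?_
    ring
  rw [h3] at h2
  exact h2

lemma coord_contDiff (i : Fin 3) : ContDiff ℝ ∞ (fun q : E3 × E3 => q.2 i) :=
  (EuclideanSpace.proj (𝕜 := ℝ) i).contDiff.comp contDiff_snd

lemma lift {f : E3 → ℝ} (hf : ContDiff ℝ ∞ f) : ContDiff ℝ ∞ (fun q : E3 × E3 => f q.1) :=
  hf.comp contDiff_fst

lemma raise_contDiff {g : TensorField} (hi : ∀ i j, ContDiff ℝ ∞ (fun x => (g x)⁻¹ i j))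
    (i : Fin 3) : ContDiff ℝ ∞ (fun q : E3 × E3 => raise g q.1 q.2 i) := by
  unfold raise
  exact ContDiff.sum fun j _ => (lift (hi i j)).mul (coord_contDiff j)

lemma lsq_contDiff {g : TensorField} (hi : ∀ i j, ContDiff ℝ ∞ (fun x => (g x)⁻¹ i j)) :
    ContDiff ℝ ∞ (fun q : E3 × E3 => lsq g q.1 q.2) := by
  unfold lsq ev
  exact ContDiff.sum fun i _ => ContDiff.sum fun j _ =>
    ((lift (hi i j)).mul (coord_contDiff i)).mul (coord_contDiff j)

end KSMO

open KSMO in
theorem KSMO_thm (h1 : KSM) : KSMO := by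
  intro ε δ κ g h r hε hε1 hδ hκ D
  obtain ⟨hi, hv, -⟩ := h1 g h r D
  have hh : ∀ i j, ContDiff ℝ ∞ (fun x => h x i j) := fun i j =>
    contDiffOn_univ.1 (D.ten.smooth i j)
  have hpos : ∀ q : E3 × E3, lsq g q.1 q.2 + δ ^ 2 ≠ 0 := by
    intro q
    have := lsq_nonneg (D.met.posDef q.1 (Set.mem_univ _)) q.2
    positivity
  have hs : ContDiff ℝ ∞ (fun q : E3 × E3 => lsq g q.1 q.2 + δ ^ 2) :=
    (lsq_contDiff hi).add contDiff_const
  have hpow : ∀ t : ℝ, ContDiff ℝ ∞ (fun q : E3 × E3 => (lsq g q.1 q.2 + δ ^ 2) ^ t) :=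
    fun t => hs.rpow_const_of_ne hpos
  have hr := raise_contDiff hi
  have r0 : ∀ x : E3, ∀ i, raise g x (0 : E3) i = 0 := by
    intro x i
    simp [raise]
  have l0 : ∀ x : E3, lsq g x (0 : E3) = 0 := by
    intro x
    simp [lsq, ev]
  refine ⟨?_, ?_, ?_, ?_, ?_⟩
  · rw [contDiff_euclidean]
    intro i
    show ContDiff ℝ ∞ (fun q : E3 × E3 => volDen g q.1 *
      ((lsq g q.1 q.2 + δ ^ 2) ^ ((ε - 1) / 2) + κ) * raise g q.1 q.2 i)
    exact ((lift hv).mul ((hpow _).add contDiff_const)).mul (hr i)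
  · unfold cB
    refine ((lift hv).mul (hpow _)).mul (ContDiff.sub ((lsq_contDiff hi).mul ?_) ?_)
    · unfold trg
      exact ContDiff.sum fun i _ => ContDiff.sum fun j _ => (lift (hi i j)).mul (lift (hh i j))
    · refine contDiff_const.mul ?_
      unfold ev
      exact ContDiff.sum fun i _ => ContDiff.sum fun j _ =>
        ((lift (hh i j)).mul (hr i)).mul (hr j)
  · intro x
    ext i
    show volDen g x * regA ε δ κ (lsq g x (0 : E3)) * raise g x (0 : E3) i = 0
    rw [r0, mul_zero]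
  · intro x
    unfold cB
    rw [l0]
    have : ev (h x) (raise g x (0 : E3)) (raise g x (0 : E3)) = 0 := by
      unfold ev
      refine Finset.sum_eq_zero fun i _ => Finset.sum_eq_zero fun j _ => ?_
      rw [r0 x i, mul_zero, zero_mul]
    rw [this]
    simp
  · intro x ξ hx
    unfold cB
    rw [(D.flat x hx).2]
    simp [trg, ev]

end Pool.Agent.PFlow
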